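import Mathlib

/-!
Packed lanes in one natural number, and the positive part of all lanes at once.
-/

namespace Pool.Agent.H65.Shore

/-- `n` lanes of width `L` bits -/
def packN (L : ℕ) : ℕ → (ℕ → ℕ) → ℕ
  | 0, _ => 0
  | n + 1, f => f 0 + 2 ^ L * packN L n (fun j => f (j + 1))

theorem packN_eq_sum (L n : ℕ) (f : ℕ → ℕ) :
    packN L n f = ∑ j ∈ Finset.range n, f j * (2 ^ L) ^ j := by
  induction n generalizing f with
  | zero => simp [packN]
  | succ n ih =>
    rw [packN, ih, Finset.sum_range_succ', Finset.mul_sum, add_comm]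
    congr 1
    · apply Finset.sum_congr rfl
      intro j _
      ring
    · simp

theorem packN_lt {L n : ℕ} {f : ℕ → ℕ} (hf : ∀ j < n, f j < 2 ^ L) :
    packN L n f < (2 ^ L) ^ n := by
  induction n generalizing f with
  | zero => simp [packN]
  | succ n ih =>
    have h1 := ih (f := fun j => f (j + 1)) (fun j hj => hf (j + 1) (by omega))
    have h0 := hf 0 (by omega)
    rw [packN, pow_succ']
    have : packN L n (fun j => f (j + 1)) + 1 ≤ (2 ^ L) ^ n := h1
    calc f 0 + 2 ^ L * packN L n (fun j => f (j + 1))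
        < 2 ^ L + 2 ^ L * packN L n (fun j => f (j + 1)) := by omega
      _ = 2 ^ L * (packN L n (fun j => f (j + 1)) + 1) := by ring
      _ ≤ 2 ^ L * (2 ^ L) ^ n := Nat.mul_le_mul_left _ this

theorem testBit_packN {L n : ℕ} (hL : 0 < L) {f : ℕ → ℕ} (hf : ∀ j < n, f j < 2 ^ L) (i : ℕ) :
    (packN L n f).testBit i = (decide (i / L < n) && (f (i / L)).testBit (i % L)) := by
  induction n generalizing f i with
  | zero => simp [packN]
  | succ n ih =>
    have h0 := hf 0 (by omega)
    have h1 := ih (f := fun j => f (j + 1)) (fun j hj => hf (j + 1) (by omega))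
    rw [packN, add_comm, Nat.testBit_two_pow_mul_add _ h0]
    split_ifs with h
    · have e1 : i / L = 0 := Nat.div_eq_of_lt h
      have e2 : i % L = i := Nat.mod_eq_of_lt h
      simp [e1, e2]
    · have hle : L ≤ i := not_lt.mp h
      rw [h1]
      have e1 : i / L = (i - L) / L + 1 := by
        conv_lhs => rw [← Nat.sub_add_cancel hle]
        rw [Nat.add_div_right _ hL]
      have e2 : i % L = (i - L) % L := by
        conv_lhs => rw [← Nat.sub_add_cancel hle]
        rw [Nat.add_mod_right]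
      rw [e1, e2]
      simp

theorem packN_congr {L n : ℕ} {f g : ℕ → ℕ} (h : ∀ j < n, f j = g j) :
    packN L n f = packN L n g := by
  induction n generalizing f g with
  | zero => rfl
  | succ n ih =>
    rw [packN, packN, h 0 (by omega), ih (fun j hj => h (j + 1) (by omega))]

theorem packN_mul (L n : ℕ) (f : ℕ → ℕ) (k : ℕ) :
    packN L n (fun j => f j * k) = packN L n f * k := by
  induction n generalizing f with
  | zero => simp [packN]
  | succ n ih =>
    rw [packN, packN, ih (fun j => f (j + 1))]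
    ring

theorem packN_add (L n : ℕ) (f g : ℕ → ℕ) :
    packN L n (fun j => f j + g j) = packN L n f + packN L n g := by
  induction n generalizing f g with
  | zero => simp [packN]
  | succ n ih =>
    rw [packN, packN, packN, ih (fun j => f (j + 1)) (fun j => g (j + 1))]
    ring

/-- the constant lanes `1` -/
def ones (L n : ℕ) : ℕ := packN L n (fun _ => 1)

/-- positive part of all lanes: every lane `z` is replaced by `z - 2 ^ (L - 1)` (truncated) -/
def posf (L : ℕ) (o Z : ℕ) : ℕ :=
  Nat.land Z (Nat.mul (Nat.land (Nat.shiftRight Z (Nat.sub L 1)) o) (Nat.sub (Nat.pow 2 (Nat.sub L 1)) 1))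

theorem posf_eq {L n : ℕ} (hL : 0 < L) {f : ℕ → ℕ} (hf : ∀ j < n, f j < 2 ^ L) :
    posf L (ones L n) (packN L n f) = packN L n (fun j => f j - 2 ^ (L - 1)) := by
  have hL1 : 2 ^ L = 2 * 2 ^ (L - 1) := by
    conv_lhs => rw [← Nat.sub_add_cancel hL]
    rw [pow_succ]
    ring
  have hone : ∀ j < n, (fun _ : ℕ => 1) j < 2 ^ L := fun j _ => Nat.one_lt_two_pow hL.ne'
  -- the top bits
  have htop : Nat.land (Nat.shiftRight (packN L n f) (L - 1)) (ones L n) =
      packN L n (fun j => f j / 2 ^ (L - 1)) := by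
    have hlt : ∀ j < n, (fun j => f j / 2 ^ (L - 1)) j < 2 ^ L := fun j hj =>
      lt_of_le_of_lt (Nat.div_le_self _ _) (hf j hj)
    apply Nat.eq_of_testBit_eq
    intro i
    have e0 : Nat.land (Nat.shiftRight (packN L n f) (L - 1)) (ones L n) =
      (packN L n f >>> (L - 1)) &&& ones L n := rfl
    rw [e0, Nat.testBit_and, Nat.testBit_shiftRight, testBit_packN hL hf, ones,
      testBit_packN hL hone, testBit_packN hL hlt]
    by_cases hi : i % L = 0
    · obtain ⟨k, hk⟩ : ∃ k, i = L * k := ⟨i / L, by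
        have := Nat.div_add_mod i L
        omega⟩
      subst hk
      have e1 : (L - 1 + L * k) / L = k := by
        rw [Nat.add_mul_div_left _ _ hL, Nat.div_eq_of_lt (by omega)]
        omega
      have e2 : (L - 1 + L * k) % L = L - 1 := by
        rw [Nat.add_mul_mod_self_left, Nat.mod_eq_of_lt (by omega)]
      have e3 : L * k / L = k := Nat.mul_div_cancel_left _ hL
      have e4 : L * k % L = 0 := Nat.mul_mod_right _ _
      rw [e1, e2, e3, e4]
      by_cases hk : k < n
      · have h2 := hf k hk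
        simp only [hk, decide_true, Bool.true_and, Nat.testBit_zero]
        rw [Nat.testBit_eq_decide_div_mod_eq]
        have : f k / 2 ^ (L - 1) < 2 := by
          rw [Nat.div_lt_iff_lt_mul (by positivity)]
          omega
        simp
      · simp [hk]
    · have e5 : (1:ℕ).testBit (i % L) = false := by
        apply Nat.testBit_lt_two_pow
        exact Nat.one_lt_two_pow hi
      rw [e5]
      simp only [Bool.and_false]
      by_cases hk : i / L < n
      · have h2 := hf _ hk
        have : f (i / L) / 2 ^ (L - 1) < 2 := by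
          rw [Nat.div_lt_iff_lt_mul (by positivity)]
          omega
        have h3 : (f (i / L) / 2 ^ (L - 1)).testBit (i % L) = false := by
          apply Nat.testBit_lt_two_pow
          exact lt_of_lt_of_le this (by
            calc (2:ℕ) = 2 ^ 1 := rfl
              _ ≤ 2 ^ (i % L) := Nat.pow_le_pow_right (by norm_num) (by omega))
        rw [h3]
        simp
      · simp [hk]
  unfold posf
  have e1 : Nat.sub L 1 = L - 1 := rfl
  rw [e1, htop]
  have e2 : Nat.mul (packN L n fun j => f j / 2 ^ (L - 1)) (Nat.sub (Nat.pow 2 (L - 1)) 1) =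
      packN L n (fun j => f j / 2 ^ (L - 1) * (2 ^ (L - 1) - 1)) := by
    rw [packN_mul]
    rfl
  rw [e2]
  have hlt2 : ∀ j < n, (fun j => f j / 2 ^ (L - 1) * (2 ^ (L - 1) - 1)) j < 2 ^ L := by
    intro j hj
    have h2 := hf j hj
    have h3 : f j / 2 ^ (L - 1) < 2 := by
      rw [Nat.div_lt_iff_lt_mul (by positivity)]
      omega
    have h4 : f j / 2 ^ (L - 1) * (2 ^ (L - 1) - 1) ≤ 1 * (2 ^ (L - 1) - 1) :=
      Nat.mul_le_mul_right _ (by omega)
    have h5 : 0 < 2 ^ (L - 1) := by positivity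
    simp only
    omega
  have hlt3 : ∀ j < n, (fun j => f j - 2 ^ (L - 1)) j < 2 ^ L := fun j hj =>
    lt_of_le_of_lt (Nat.sub_le _ _) (hf j hj)
  apply Nat.eq_of_testBit_eq
  intro i
  have e3 : Nat.land (packN L n f) (packN L n fun j => f j / 2 ^ (L - 1) * (2 ^ (L - 1) - 1)) =
    (packN L n f) &&& (packN L n fun j => f j / 2 ^ (L - 1) * (2 ^ (L - 1) - 1)) := rfl
  rw [e3, Nat.testBit_and, testBit_packN hL hf, testBit_packN hL hlt2, testBit_packN hL hlt3]
  by_cases hk : i / L < n
  · simp only [hk, decide_true, Bool.true_and]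
    have h2 := hf _ hk
    rw [← Nat.testBit_and]
    congr 1
    rcases lt_or_ge (f (i / L)) (2 ^ (L - 1)) with h | h
    · rw [Nat.div_eq_of_lt h]
      simp
      omega
    · have h3 : f (i / L) / 2 ^ (L - 1) = 1 := by
        apply Nat.div_eq_of_lt_le
        · simpa using h
        · omega
      rw [h3, one_mul, Nat.and_two_pow_sub_one_eq_mod]
      have : f (i / L) = f (i / L) - 2 ^ (L - 1) + 2 ^ (L - 1) := by omega
      rw [this, Nat.add_mod_right, Nat.mod_eq_of_lt (by omega)]
      omega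
  · simp [hk]

/-- sum of lanes by reduction modulo `2 ^ L - 1` -/
theorem packN_mod (L n : ℕ) (f : ℕ → ℕ) :
    packN L n f % (2 ^ L - 1) = (∑ j ∈ Finset.range n, f j) % (2 ^ L - 1) := by
  have h1 : 2 ^ L ≡ 1 [MOD (2 ^ L - 1)] := by
    have h2 : 1 ≤ 2 ^ L := Nat.one_le_two_pow
    have h4 : (2 ^ L - 1) + 1 ≡ 1 [MOD (2 ^ L - 1)] := by
      unfold Nat.ModEq
      rw [Nat.add_mod_left]
    rwa [Nat.sub_add_cancel h2] at h4
  rw [packN_eq_sum]
  have : (∑ j ∈ Finset.range n, f j * (2 ^ L) ^ j) ≡ ∑ j ∈ Finset.range n, f j * 1 ^ j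
      [MOD (2 ^ L - 1)] := by
    apply Nat.ModEq.sum
    intro j _
    exact Nat.ModEq.mul_left _ (h1.pow j)
  simpa [Nat.ModEq] using this

/-- dropping the first `a` lanes -/
theorem packN_shift {L n : ℕ} {f : ℕ → ℕ} (hf : ∀ j < n, f j < 2 ^ L) (a : ℕ) (ha : a ≤ n) :
    packN L n f / (2 ^ L) ^ a = packN L (n - a) (fun j => f (j + a)) := by
  induction a generalizing n f with
  | zero => simp
  | succ a ih =>
    obtain ⟨m, rfl⟩ : ∃ m, n = m + 1 := ⟨n - 1, by omega⟩
    rw [packN, pow_succ', ← Nat.div_div_eq_div_mul]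
    have h0 := hf 0 (by omega)
    have e : (f 0 + 2 ^ L * packN L m fun j => f (j + 1)) / 2 ^ L =
        packN L m (fun j => f (j + 1)) := by
      rw [Nat.add_mul_div_left _ _ (by positivity), Nat.div_eq_of_lt h0]
      omega
    rw [e, ih (fun j hj => hf (j + 1) (by omega)) (by omega)]
    rw [Nat.add_sub_add_right]
    apply packN_congr
    intro j _
    congr 1

/-- keeping the first `m` lanes -/
theorem packN_take {L n : ℕ} {f : ℕ → ℕ} (hf : ∀ j < n, f j < 2 ^ L) (m : ℕ) (hm : m ≤ n) :
    packN L n f % (2 ^ L) ^ m = packN L m f := by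
  induction m generalizing n f with
  | zero => simp [packN, Nat.mod_one]
  | succ m ih =>
    obtain ⟨k, rfl⟩ : ∃ k, n = k + 1 := ⟨n - 1, by omega⟩
    rw [packN, packN, pow_succ', Nat.mod_mul]
    have h0 := hf 0 (by omega)
    have e1 : (f 0 + 2 ^ L * packN L k fun j => f (j + 1)) % 2 ^ L = f 0 := by
      rw [Nat.add_mul_mod_self_left, Nat.mod_eq_of_lt h0]
    have e : (f 0 + 2 ^ L * packN L k fun j => f (j + 1)) / 2 ^ L =
        packN L k (fun j => f (j + 1)) := by
      rw [Nat.add_mul_div_left _ _ (by positivity), Nat.div_eq_of_lt h0]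
      omega
    rw [e1, e, ih (fun j hj => hf (j + 1) (by omega)) (by omega)]

/-- sum of the lanes `a ≤ j < a + m` -/
def lsum (L X a m : ℕ) : ℕ :=
  Nat.mod (Nat.mod (Nat.shiftRight X (Nat.mul L a)) (Nat.pow 2 (Nat.mul L m))) (Nat.sub (Nat.pow 2 L) 1)

theorem lsum_eq {L n : ℕ} {f : ℕ → ℕ} (hf : ∀ j < n, f j < 2 ^ L) {a m : ℕ} (ham : a + m ≤ n)
    (hs : ∑ j ∈ Finset.range m, f (j + a) < 2 ^ L - 1) :
    lsum L (packN L n f) a m = ∑ j ∈ Finset.range m, f (j + a) := by
  have e : lsum L (packN L n f) a m =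
      (packN L n f / (2 ^ L) ^ a) % (2 ^ L) ^ m % (2 ^ L - 1) := by
    unfold lsum
    rw [← pow_mul, ← pow_mul]
    show ((packN L n f) >>> (L * a)) % 2 ^ (L * m) % (2 ^ L - 1) = _
    rw [Nat.shiftRight_eq_div_pow]
  rw [e, packN_shift hf a (by omega), packN_take (fun j hj => hf (j + a) (by omega)) m (by omega),
    packN_mod, Nat.mod_eq_of_lt hs]

/-- the lane `a` -/
def lget (L X a : ℕ) : ℕ :=
  Nat.mod (Nat.shiftRight X (Nat.mul L a)) (Nat.pow 2 L)

theorem lget_eq {L n : ℕ} {f : ℕ → ℕ} (hf : ∀ j < n, f j < 2 ^ L) {a : ℕ} (ha : a < n) :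
    lget L (packN L n f) a = f a := by
  have e : lget L (packN L n f) a = (packN L n f / (2 ^ L) ^ a) % (2 ^ L) ^ 1 := by
    unfold lget
    rw [← pow_mul, pow_one]
    show ((packN L n f) >>> (L * a)) % 2 ^ L = _
    rw [Nat.shiftRight_eq_div_pow]
  rw [e, packN_shift hf a (by omega), packN_take (fun j hj => hf (j + a) (by omega)) 1 (by omega)]
  simp [packN]

end Pool.Agent.H65.Shore
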