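import Mathlib

/-!
Fixed point rotation: integer approximations of `cos θ`, `sin θ` with error tracking in the
Euclidean norm.
-/

namespace Pool.Agent.H65.Shore

open Complex

/-- the scale for sines and cosines -/
def SC : ℕ := 1152921504606846976

theorem SC_pos : (0:ℝ) < (SC:ℝ) := by norm_num [SC]

/-- the complex number `c + s i` -/
noncomputable def cz (c s : ℝ) : ℂ := (c : ℂ) + (s : ℂ) * I

/-- `c`, `s` approximate `S cos θ`, `S sin θ` up to `e` -/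
def TS (θ : ℝ) (c s : ℤ) (e : ℕ) : Prop :=
  ‖cz c s - (SC : ℂ) * cexp ((θ : ℂ) * I)‖ ≤ e

theorem cz_re (c s : ℝ) : (cz c s).re = c := by simp [cz]
theorem cz_im (c s : ℝ) : (cz c s).im = s := by simp [cz]

theorem sub_re' (c s θ : ℝ) : (cz c s - (SC : ℂ) * cexp ((θ : ℂ) * I)).re = c - SC * Real.cos θ := by
  rw [sub_re, cz_re, exp_mul_I]
  have : ((SC : ℂ) * (Complex.cos θ + Complex.sin θ * I)).re = SC * Real.cos θ := by
    rw [← ofReal_cos, ← ofReal_sin]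
    simp [-ofReal_cos, -ofReal_sin]
  rw [this]

theorem sub_im' (c s θ : ℝ) : (cz c s - (SC : ℂ) * cexp ((θ : ℂ) * I)).im = s - SC * Real.sin θ := by
  rw [sub_im, cz_im, exp_mul_I]
  have : ((SC : ℂ) * (Complex.cos θ + Complex.sin θ * I)).im = SC * Real.sin θ := by
    rw [← ofReal_cos, ← ofReal_sin]
    simp [-ofReal_cos, -ofReal_sin]
  rw [this]

theorem TS.hc {θ : ℝ} {c s : ℤ} {e : ℕ} (h : TS θ c s e) : |(c:ℝ) - SC * Real.cos θ| ≤ e := by
  rw [← sub_re' (c:ℝ) (s:ℝ) θ]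
  exact (abs_re_le_norm _).trans h

theorem TS.hs {θ : ℝ} {c s : ℤ} {e : ℕ} (h : TS θ c s e) : |(s:ℝ) - SC * Real.sin θ| ≤ e := by
  rw [← sub_im' (c:ℝ) (s:ℝ) θ]
  exact (abs_im_le_norm _).trans h

/-- from componentwise errors -/
theorem TS.of_abs {θ : ℝ} {c s : ℤ} {a b : ℕ} (h1 : |(c:ℝ) - SC * Real.cos θ| ≤ a)
    (h2 : |(s:ℝ) - SC * Real.sin θ| ≤ b) : TS θ c s (a + b) := by
  unfold TS
  refine (norm_le_abs_re_add_abs_im _).trans ?_
  rw [sub_re', sub_im']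
  push_cast
  linarith

theorem TS.mono {θ : ℝ} {c s : ℤ} {e e' : ℕ} (h : TS θ c s e) (he : e ≤ e') : TS θ c s e' := by
  unfold TS at h ⊢
  refine h.trans ?_
  exact_mod_cast he

theorem ediv_err (a : ℤ) {b : ℕ} (hb : 0 < b) :
    |((a / (b:ℤ) : ℤ) : ℝ) - (a:ℝ) / b| ≤ 1 := by
  have hb' : (0:ℝ) < (b:ℝ) := by exact_mod_cast hb
  have hbz : (0:ℤ) < (b:ℤ) := by exact_mod_cast hb
  have h1 : (b:ℤ) * (a / (b:ℤ)) + a % (b:ℤ) = a := Int.mul_ediv_add_emod a b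
  have h2 : 0 ≤ a % (b:ℤ) := Int.emod_nonneg _ hbz.ne'
  have h3 : a % (b:ℤ) < b := Int.emod_lt_of_pos _ hbz
  have h1' : (b:ℝ) * ((a / (b:ℤ) : ℤ) : ℝ) + ((a % (b:ℤ) : ℤ) : ℝ) = a := by exact_mod_cast h1
  have h2' : (0:ℝ) ≤ ((a % (b:ℤ) : ℤ) : ℝ) := by exact_mod_cast h2
  have h3' : ((a % (b:ℤ) : ℤ) : ℝ) < b := by exact_mod_cast h3
  have e : ((a / (b:ℤ) : ℤ) : ℝ) - (a:ℝ) / b = -(((a % (b:ℤ) : ℤ) : ℝ) / b) := by
    field_simp
    linarith
  rw [e, abs_neg, abs_of_nonneg (by positivity), div_le_one hb']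
  exact h3'.le

theorem norm_exp_I (θ : ℝ) : ‖cexp ((θ : ℂ) * I)‖ = 1 := norm_exp_ofReal_mul_I θ

theorem TS.norm_le {θ : ℝ} {c s : ℤ} {e : ℕ} (h : TS θ c s e) : ‖cz c s‖ ≤ SC + e := by
  have h1 : ‖(SC : ℂ) * cexp ((θ : ℂ) * I)‖ = SC := by
    rw [norm_mul, norm_exp_I, mul_one]
    simp
  have h2 := norm_le_norm_add_norm_sub ((SC : ℂ) * cexp ((θ : ℂ) * I)) (cz c s)
  rw [h1, norm_sub_rev] at h2
  unfold TS at h
  linarith

/-- one rotation step -/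
theorem TS.step {θ δ : ℝ} {c s cd sd : ℤ} {e e0 e' : ℕ} (h : TS θ c s e) (hd : TS δ cd sd e0)
    (he' : e + e0 + e * e0 / SC + 3 ≤ e') :
    TS (θ + δ) ((c * cd - s * sd) / (SC:ℤ)) ((s * cd + c * sd) / (SC:ℤ)) e' := by
  have hS := SC_pos
  have hSN : 0 < SC := by norm_num [SC]
  have hSc : (SC : ℂ) ≠ 0 := by exact_mod_cast hSN.ne'
  have he0 : (0:ℝ) ≤ e := Nat.cast_nonneg _
  have hmul : cz c s * cz cd sd = cz ((c:ℝ) * cd - s * sd) ((s:ℝ) * cd + c * sd) := by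
    unfold cz
    push_cast
    have := I_mul_I
    linear_combination ((s:ℂ) * sd) * this
  have hexp : cexp (((θ + δ : ℝ) : ℂ) * I) = cexp ((θ : ℂ) * I) * cexp ((δ : ℂ) * I) := by
    rw [← Complex.exp_add]
    congr 1
    push_cast
    ring
  -- the exact product
  have key : ‖cz c s * cz cd sd / SC - (SC : ℂ) * cexp (((θ + δ : ℝ) : ℂ) * I)‖ ≤
      e + e0 + e * e0 / SC := by
    have e1 : cz c s * cz cd sd / SC - (SC : ℂ) * cexp (((θ + δ : ℝ) : ℂ) * I) =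
        (cz c s - (SC : ℂ) * cexp ((θ : ℂ) * I)) * cz cd sd / SC +
          cexp ((θ : ℂ) * I) * (cz cd sd - (SC : ℂ) * cexp ((δ : ℂ) * I)) := by
      rw [hexp]
      field_simp
      ring
    rw [e1]
    refine (norm_add_le _ _).trans ?_
    rw [norm_div, norm_mul, norm_mul, norm_exp_I, one_mul]
    have e2 : ‖(SC : ℂ)‖ = SC := by simp
    rw [e2]
    have h1 := hd.norm_le
    have h2 : ‖cz c s - (SC : ℂ) * cexp ((θ : ℂ) * I)‖ * ‖cz cd sd‖ / SC ≤ e * (SC + e0) / SC := by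
      unfold TS at h
      gcongr
    have h3 : (e:ℝ) * (SC + e0) / SC = e + e * e0 / SC := by
      field_simp
    unfold TS at hd
    linarith
  -- the floor
  have hfl : (e:ℝ) * e0 / SC ≤ ((e * e0 / SC : ℕ) : ℝ) + 1 := by
    have h1 := Nat.lt_div_mul_add (a := e * e0) (b := SC) hSN
    have h2 : ((e * e0 : ℕ) : ℝ) < ((e * e0 / SC * SC + SC : ℕ) : ℝ) := by
      exact_mod_cast h1
    push_cast at h2
    rw [div_le_iff₀ hS]
    nlinarith
  have he'' : (e:ℝ) + e0 + ((e * e0 / SC : ℕ) : ℝ) + 3 ≤ e' := by exact_mod_cast he'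
  have h1 := ediv_err (c * cd - s * sd) hSN
  have h2 := ediv_err (s * cd + c * sd) hSN
  push_cast at h1 h2
  have hdiv : cz c s * cz cd sd / SC =
      cz (((c:ℝ) * cd - s * sd) / SC) (((s:ℝ) * cd + c * sd) / SC) := by
    rw [hmul]
    unfold cz
    push_cast
    ring
  set A : ℝ := (((c * cd - s * sd) / (SC:ℤ) : ℤ) : ℝ) with hA
  set B : ℝ := (((s * cd + c * sd) / (SC:ℤ) : ℤ) : ℝ) with hB
  have h4 : ‖cz A B - cz c s * cz cd sd / SC‖ ^ 2 ≤ 2 := by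
    rw [hdiv, ← Complex.normSq_eq_norm_sq, normSq_apply, sub_re, sub_im, cz_re, cz_im, cz_re, cz_im]
    have a1 := abs_le.mp h1
    have a2 := abs_le.mp h2
    nlinarith
  have h5 : ‖cz A B - cz c s * cz cd sd / SC‖ ≤ 3 / 2 := by
    apply le_of_sq_le_sq _ (by norm_num)
    refine h4.trans (by norm_num)
  unfold TS
  have h6 := norm_sub_le_norm_sub_add_norm_sub (cz A B) (cz c s * cz cd sd / SC)
    ((SC : ℂ) * cexp (((θ + δ : ℝ) : ℂ) * I))
  linarith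

theorem TS.abs_le {θ : ℝ} {c s : ℤ} {e : ℕ} (h : TS θ c s e) : |c| ≤ SC + e ∧ |s| ≤ SC + e := by
  have hn := h.norm_le
  constructor
  · have h1 := (abs_re_le_norm (cz c s)).trans hn
    rw [cz_re] at h1
    exact_mod_cast h1
  · have h1 := (abs_im_le_norm (cz c s)).trans hn
    rw [cz_im] at h1
    exact_mod_cast h1

end Pool.Agent.H65.Shore
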