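import Mathlib
import Pool.Agent.H65.Shore.Pack
import Pool.Agent.H65.Shore.Trig

/-!
Signed lanes, lane-wise division by a power of two, packed rotation by doubling.
-/

namespace Pool.Agent.H65.Shore

/-- signed lanes -/
def packZ (L n : ℕ) (f : ℕ → ℤ) : ℤ := ∑ j ∈ Finset.range n, f j * (2 ^ L) ^ j

theorem packZ_cast (L n : ℕ) (f : ℕ → ℕ) : packZ L n (fun j => (f j : ℤ)) = (packN L n f : ℤ) := by
  rw [packN_eq_sum, packZ]
  push_cast
  rfl

theorem packZ_add (L n : ℕ) (f g : ℕ → ℤ) :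
    packZ L n (fun j => f j + g j) = packZ L n f + packZ L n g := by
  simp [packZ, add_mul, Finset.sum_add_distrib]

theorem packZ_sub (L n : ℕ) (f g : ℕ → ℤ) :
    packZ L n (fun j => f j - g j) = packZ L n f - packZ L n g := by
  simp [packZ, sub_mul, Finset.sum_sub_distrib]

theorem packZ_mul (L n : ℕ) (f : ℕ → ℤ) (k : ℤ) :
    packZ L n (fun j => f j * k) = packZ L n f * k := by
  simp only [packZ, Finset.sum_mul]
  apply Finset.sum_congr rfl
  intro j _
  ring

theorem packZ_congr {L n : ℕ} {f g : ℕ → ℤ} (h : ∀ j < n, f j = g j) :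
    packZ L n f = packZ L n g := by
  apply Finset.sum_congr rfl
  intro j hj
  rw [h j (Finset.mem_range.mp hj)]

theorem packZ_const (L n : ℕ) (k : ℤ) : packZ L n (fun _ => k) = k * (ones L n : ℤ) := by
  rw [ones, ← packZ_cast]
  have := packZ_mul L n (fun _ => 1) k
  simp only [one_mul] at this
  rw [this]
  push_cast
  ring

theorem packZ_append (L n m : ℕ) (f : ℕ → ℤ) :
    packZ L (n + m) f = packZ L n f + (2 ^ L) ^ n * packZ L m (fun j => f (n + j)) := by
  rw [packZ, packZ, packZ, Finset.sum_range_add, Finset.mul_sum]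
  congr 1
  apply Finset.sum_congr rfl
  intro j _
  rw [pow_add]
  ring

/-- conversion of signed lanes in range to natural lanes -/
theorem packZ_toNat {L n : ℕ} {f : ℕ → ℤ} (h : ∀ j < n, 0 ≤ f j) :
    (packZ L n f).toNat = packN L n (fun j => (f j).toNat) := by
  have : packZ L n f = (packN L n (fun j => (f j).toNat) : ℤ) := by
    rw [← packZ_cast]
    apply packZ_congr
    intro j hj
    rw [Int.toNat_of_nonneg (h j hj)]
  rw [this, Int.toNat_natCast]

/-- lane-wise right shift -/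
theorem packN_shr {L n t : ℕ} (hL : 0 < L) (ht : t ≤ L) {f : ℕ → ℕ} (hf : ∀ j < n, f j < 2 ^ L) :
    Nat.land (Nat.shiftRight (packN L n f) t) (Nat.mul (ones L n) (Nat.sub (Nat.pow 2 (Nat.sub L t)) 1))
      = packN L n (fun j => f j / 2 ^ t) := by
  have e0 : Nat.mul (ones L n) (Nat.sub (Nat.pow 2 (Nat.sub L t)) 1) =
      packN L n (fun _ => 1 * (2 ^ (L - t) - 1)) := by
    rw [packN_mul]
    rfl
  rw [e0]
  have hm : ∀ j < n, (fun _ : ℕ => 1 * (2 ^ (L - t) - 1)) j < 2 ^ L := by
    intro j _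
    have h1 : 2 ^ (L - t) ≤ 2 ^ L := Nat.pow_le_pow_right (by norm_num) (by omega)
    have h2 : 0 < 2 ^ (L - t) := by positivity
    simp only
    omega
  have hr : ∀ j < n, (fun j => f j / 2 ^ t) j < 2 ^ L := fun j hj =>
    lt_of_le_of_lt (Nat.div_le_self _ _) (hf j hj)
  apply Nat.eq_of_testBit_eq
  intro i
  have e1 : Nat.land (Nat.shiftRight (packN L n f) t) (packN L n (fun _ => 1 * (2 ^ (L - t) - 1))) =
    (packN L n f >>> t) &&& packN L n (fun _ => 1 * (2 ^ (L - t) - 1)) := rfl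
  rw [e1, Nat.testBit_and, Nat.testBit_shiftRight, testBit_packN hL hf, testBit_packN hL hm,
    testBit_packN hL hr]
  have hdm := Nat.div_add_mod i L
  have hml := Nat.mod_lt i hL
  rw [one_mul, Nat.testBit_two_pow_sub_one, Nat.testBit_div_two_pow]
  by_cases hi : i % L < L - t
  · have e2 : (t + i) / L = i / L := by
      have : t + i = (t + i % L) + L * (i / L) := by omega
      rw [this, Nat.add_mul_div_left _ _ hL, Nat.div_eq_of_lt (by omega)]
      simp
    have e3 : (t + i) % L = t + i % L := by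
      have : t + i = (t + i % L) + L * (i / L) := by omega
      rw [this, Nat.add_mul_mod_self_left, Nat.mod_eq_of_lt (by omega)]
    rw [e2, e3]
    simp only [hi, decide_true, Bool.and_true]
    rw [add_comm t]
    by_cases hk : i / L < n <;> simp [hk]
  · simp only [hi, decide_false, Bool.and_false]
    by_cases hk : i / L < n
    · have h4 : (f (i / L)).testBit (i % L + t) = false := by
        apply Nat.testBit_lt_two_pow
        exact lt_of_lt_of_le (hf _ hk) (Nat.pow_le_pow_right (by norm_num) (by omega))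
      simp [h4]
    · simp [hk]

/-- lane-wise floor division by `2 ^ t` of signed lanes; `o` is the packed constant `1` -/
def laneDiv (L t : ℕ) (o : ℕ) (X : ℤ) : ℤ :=
  Int.sub (Int.ofNat (Nat.land (Nat.shiftRight
    (Int.toNat (Int.add X (Int.ofNat (Nat.mul (Nat.pow 2 (Nat.sub L 1)) o)))) t)
    (Nat.mul o (Nat.sub (Nat.pow 2 (Nat.sub L t)) 1))))
    (Int.ofNat (Nat.mul (Nat.pow 2 (Nat.sub (Nat.sub L 1) t)) o))

theorem laneDiv_eq {L n t : ℕ} (hL : 0 < L) (ht : t + 1 ≤ L) {f : ℕ → ℤ}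
    (hf : ∀ j < n, |f j| < 2 ^ (L - 1)) :
    laneDiv L t (ones L n) (packZ L n f) = packZ L n (fun j => f j / 2 ^ t) := by
  have hpow : (2:ℤ) ^ L = 2 * 2 ^ (L - 1) := by
    conv_lhs => rw [← Nat.sub_add_cancel hL]
    rw [pow_succ]
    ring
  have h1 : Int.add (packZ L n f) (Int.ofNat (Nat.mul (Nat.pow 2 (Nat.sub L 1)) (ones L n))) =
      packZ L n (fun j => f j + 2 ^ (L - 1)) := by
    rw [packZ_add, packZ_const]
    show packZ L n f + ((2 ^ (L - 1) * ones L n : ℕ) : ℤ) = _
    push_cast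
    ring
  have hnn : ∀ j < n, 0 ≤ (fun j => f j + 2 ^ (L - 1)) j := by
    intro j hj
    have := (abs_lt.mp (hf j hj)).1
    simp only
    linarith
  unfold laneDiv
  rw [h1, packZ_toNat hnn]
  have hlt : ∀ j < n, (fun j => ((fun j => f j + 2 ^ (L - 1)) j).toNat) j < 2 ^ L := by
    intro j hj
    have h2 := (abs_lt.mp (hf j hj)).2
    have h3 := hnn j hj
    simp only at h3 ⊢
    zify
    rw [Int.toNat_of_nonneg h3, hpow]
    linarith
  rw [packN_shr hL (by omega) hlt]
  show ((packN L n _ : ℕ) : ℤ) - ((2 ^ (L - 1 - t) * ones L n : ℕ) : ℤ) = _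
  rw [← packZ_cast]
  have e2 : ((2 ^ (L - 1 - t) * ones L n : ℕ) : ℤ) = packZ L n (fun _ => 2 ^ (L - 1 - t)) := by
    rw [packZ_const]
    push_cast
    ring
  rw [e2, ← packZ_sub]
  apply packZ_congr
  intro j hj
  have h3 := hnn j hj
  simp only at h3 ⊢
  push_cast
  rw [Int.toNat_of_nonneg h3]
  have e3 : (2:ℤ) ^ (L - 1) = 2 ^ (L - 1 - t) * 2 ^ t := by
    rw [← pow_add]
    congr 1
    omega
  rw [e3, Int.add_mul_ediv_right _ _ (by positivity)]
  ring

/-- packed rotation data -/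
def RotP (L n : ℕ) (θ0 φ : ℝ) (F G : ℤ) (e : ℕ) : Prop :=
  ∃ f g : ℕ → ℤ, F = packZ L n f ∧ G = packZ L n g ∧ ∀ j < n, TS (θ0 + j * φ) (f j) (g j) e

theorem ones_double (L n : ℕ) : ones L (n + n) = ones L n + (2 ^ L) ^ n * ones L n := by
  have h := packZ_append L n n (fun _ => 1)
  rw [packZ_const, packZ_const] at h
  have h' : ((ones L (n + n) : ℕ) : ℤ) = ((ones L n + (2 ^ L) ^ n * ones L n : ℕ) : ℤ) := by
    push_cast
    simpa using h
  exact_mod_cast h'

/-- the doubling step -/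
theorem RotP.double {L n : ℕ} {θ0 φ : ℝ} {F G : ℤ} {e : ℕ} (h : RotP L n θ0 φ F G e)
    (hL : 125 ≤ L) {C S : ℤ} {e0 e' : ℕ} (hC : TS (n * φ) C S e0)
    (he1 : e ≤ SC) (he2 : e0 ≤ SC) (he' : e + e0 + e * e0 / SC + 3 ≤ e') :
    RotP L (n + n) θ0 φ
      (F + (2 ^ L) ^ n * laneDiv L 60 (ones L n) (F * C - G * S))
      (G + (2 ^ L) ^ n * laneDiv L 60 (ones L n) (G * C + F * S)) e' := by
  obtain ⟨f, g, hF, hG, hfg⟩ := h
  have hSC : (SC:ℤ) = 2 ^ 60 := by norm_num [SC]
  have hCb := hC.abs_le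
  have he1' : (e:ℤ) ≤ SC := by exact_mod_cast he1
  have he2' : (e0:ℤ) ≤ SC := by exact_mod_cast he2
  have hpow : (2:ℤ) ^ 124 ≤ 2 ^ (L - 1) := pow_le_pow_right₀ (by norm_num) (by omega)
  have hfb : ∀ j < n, |f j| ≤ 2 * SC := fun j hj => (hfg j hj).abs_le.1.trans (by linarith)
  have hgb : ∀ j < n, |g j| ≤ 2 * SC := fun j hj => (hfg j hj).abs_le.2.trans (by linarith)
  have hb : ∀ x y : ℤ, |x| ≤ 2 * SC → |y| ≤ 2 * SC → |x * C| + |y * S| < 2 ^ (L - 1) := by
    intro x y hx hy
    have a1 : |x * C| ≤ 2 * SC * (2 * SC) := by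
      rw [abs_mul]
      exact mul_le_mul hx (hCb.1.trans (by linarith)) (abs_nonneg _) (by positivity)
    have a2 : |y * S| ≤ 2 * SC * (2 * SC) := by
      rw [abs_mul]
      exact mul_le_mul hy (hCb.2.trans (by linarith)) (abs_nonneg _) (by positivity)
    have a4 : (2:ℤ) * SC * (2 * SC) + 2 * SC * (2 * SC) < 2 ^ 124 := by rw [hSC]; norm_num
    linarith
  have hstep : ∀ j < n, TS (θ0 + ((n + j : ℕ) : ℝ) * φ) ((f j * C - g j * S) / (SC:ℤ))
      ((g j * C + f j * S) / (SC:ℤ)) e' := by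
    intro j hj
    have h1 := (hfg j hj).step hC he'
    have e1 : θ0 + (j:ℝ) * φ + (n:ℝ) * φ = θ0 + ((n + j : ℕ) : ℝ) * φ := by
      push_cast
      ring
    rwa [e1] at h1
  have e2 : laneDiv L 60 (ones L n) (F * C - G * S) =
      packZ L n (fun j => (f j * C - g j * S) / 2 ^ 60) := by
    rw [hF, hG, ← packZ_mul, ← packZ_mul, ← packZ_sub]
    apply laneDiv_eq (by omega) (by omega)
    intro j hj
    have h1 := hb (f j) (g j) (hfb j hj) (hgb j hj)
    have h2 := abs_sub (f j * C) (g j * S)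
    linarith
  have e3 : laneDiv L 60 (ones L n) (G * C + F * S) =
      packZ L n (fun j => (g j * C + f j * S) / 2 ^ 60) := by
    rw [hF, hG, ← packZ_mul, ← packZ_mul, ← packZ_add]
    apply laneDiv_eq (by omega) (by omega)
    intro j hj
    have h1 := hb (g j) (f j) (hgb j hj) (hfb j hj)
    have h2 := abs_add_le (g j * C) (f j * S)
    linarith
  have hee : e ≤ e' := by
    generalize e * e0 / SC = z at he'
    omega
  refine ⟨fun j => if j < n then f j else (f (j - n) * C - g (j - n) * S) / 2 ^ 60,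
    fun j => if j < n then g j else (g (j - n) * C + f (j - n) * S) / 2 ^ 60, ?_, ?_, ?_⟩
  · rw [packZ_append, e2, hF]
    congr 1
    · apply packZ_congr
      intro j hj
      rw [if_pos hj]
    · congr 1
      apply packZ_congr
      intro j _
      simp
  · rw [packZ_append, e3, hG]
    congr 1
    · apply packZ_congr
      intro j hj
      rw [if_pos hj]
    · congr 1
      apply packZ_congr
      intro j _
      simp
  · intro j hj
    by_cases hjn : j < n
    · simp only [hjn, if_true]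
      exact (hfg j hjn).mono hee
    · simp only [hjn, if_false]
      have h1 := hstep (j - n) (by omega)
      have h2 : n + (j - n) = j := by omega
      rw [h2, hSC] at h1
      exact h1

end Pool.Agent.H65.Shore
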