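import Mathlib
import Pool.Agent.H65.Shore.Lane

/-!
Kernel evaluation of packed tables of `cos (k (j0 + j) δ)`, `sin (k (j0 + j) δ)`.
-/

namespace Pool.Agent.H65.Shore

/-- force a natural number -/
def seqN {α : Type} (n : ℕ) (k : ℕ → α) : α :=
  match n with
  | 0 => k 0
  | Nat.succ m => k (Nat.succ m)

/-- force an integer -/
def seqI {α : Type} (n : ℤ) (k : ℤ → α) : α :=
  match n with
  | Int.ofNat m => seqN m fun m => k (Int.ofNat m)
  | Int.negSucc m => seqN m fun m => k (Int.negSucc m)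

theorem seqN_eq {α : Type} (n : ℕ) (k : ℕ → α) : seqN n k = k n := by cases n <;> rfl

theorem seqI_eq {α : Type} (n : ℤ) (k : ℤ → α) : seqI n k = k n := by
  cases n with
  | ofNat m => simp only [seqI, seqN_eq]
  | negSucc m => simp only [seqI, seqN_eq]

/-- lazy conjunction -/
def andB (a : Bool) (b : Bool) : Bool :=
  match a with
  | true => b
  | false => false

theorem andB_eq {a b : Bool} (h : andB a b = true) : a = true ∧ b = true := by
  cases a
  · exact absurd h (by simp [andB])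
  · exact ⟨rfl, h⟩

/-- real and imaginary part of the rotation -/
def rotC (c s C S : ℤ) : ℤ := Int.ediv (Int.sub (Int.mul c C) (Int.mul s S)) 1152921504606846976
def rotS (c s C S : ℤ) : ℤ := Int.ediv (Int.add (Int.mul s C) (Int.mul c S)) 1152921504606846976
def rotE (e e0 : ℕ) : ℕ :=
  Nat.add (Nat.add (Nat.add e e0) (Nat.div (Nat.mul e e0) 1152921504606846976)) 3

theorem TS.rot {θ δ : ℝ} {c s C S : ℤ} {e e0 : ℕ} (h : TS θ c s e) (hd : TS δ C S e0) :
    TS (θ + δ) (rotC c s C S) (rotS c s C S) (rotE e e0) :=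
  h.step hd le_rfl

/-- doubling loop -/
def rotTab (L : ℕ) : ℕ → ℕ → ℕ → ℤ → ℤ → ℤ → ℤ → ℕ → ℕ → (ℤ → ℤ → ℕ → ℕ → Bool) → Bool
  | 0, _, o, F, G, _, _, e, _, k => k F G e o
  | Nat.succ m, n, o, F, G, C, S, e, e0, k =>
    andB (Nat.ble e 1152921504606846976) (andB (Nat.ble e0 1152921504606846976) (
    seqN (Nat.pow 2 (Nat.mul L n)) fun p =>
    seqI (Int.add F (Int.mul (Int.ofNat p)
      (laneDiv L 60 o (Int.sub (Int.mul F C) (Int.mul G S))))) fun F' =>
    seqI (Int.add G (Int.mul (Int.ofNat p)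
      (laneDiv L 60 o (Int.add (Int.mul G C) (Int.mul F S))))) fun G' =>
    seqI (rotC C S C S) fun C' =>
    seqI (rotS C S C S) fun S' =>
    seqN (rotE e e0) fun e' =>
    seqN (rotE e0 e0) fun e0' =>
    seqN (Nat.add o (Nat.mul p o)) fun o' =>
    rotTab L m (Nat.add n n) o' F' G' C' S' e' e0' k))

theorem rotTab_sound {L : ℕ} (hL : 125 ≤ L) {θ0 φ : ℝ} {k : ℤ → ℤ → ℕ → ℕ → Bool} (m : ℕ) :
    ∀ {n o : ℕ} {F G C S : ℤ} {e e0 : ℕ}, RotP L n θ0 φ F G e → TS (n * φ) C S e0 →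
      o = ones L n → rotTab L m n o F G C S e e0 k = true →
      ∃ F' G' e' o', RotP L (2 ^ m * n) θ0 φ F' G' e' ∧ o' = ones L (2 ^ m * n) ∧
        k F' G' e' o' = true := by
  induction m with
  | zero =>
    intro n o F G C S e e0 h1 h2 h3 h4
    exact ⟨F, G, e, o, by simpa using h1, by simpa using h3, h4⟩
  | succ m ih =>
    intro n o F G C S e e0 h1 h2 h3 h4
    unfold rotTab at h4
    obtain ⟨a1, h4⟩ := andB_eq h4
    obtain ⟨a2, h4⟩ := andB_eq h4
    simp only [seqN_eq, seqI_eq] at h4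
    have a1' : e ≤ SC := Nat.le_of_ble_eq_true a1
    have a2' : e0 ≤ SC := Nat.le_of_ble_eq_true a2
    have hp : ((Nat.pow 2 (Nat.mul L n) : ℕ) : ℤ) = (2 ^ L) ^ n := by
      show ((2 ^ (L * n) : ℕ) : ℤ) = _
      push_cast
      rw [pow_mul]
    have hd := h1.double hL h2 a1' a2' (e' := rotE e e0) le_rfl
    rw [← h3] at hd
    have hd' : RotP L (Nat.add n n) θ0 φ
        (Int.add F (Int.mul (Int.ofNat (Nat.pow 2 (Nat.mul L n)))
          (laneDiv L 60 o (Int.sub (Int.mul F C) (Int.mul G S)))))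
        (Int.add G (Int.mul (Int.ofNat (Nat.pow 2 (Nat.mul L n)))
          (laneDiv L 60 o (Int.add (Int.mul G C) (Int.mul F S))))) (rotE e e0) := by
      have e1 : (Int.ofNat (Nat.pow 2 (Nat.mul L n))) = (2 ^ L) ^ n := hp
      rw [e1]
      exact hd
    have ht : TS ((Nat.add n n : ℕ) * φ) (rotC C S C S) (rotS C S C S) (rotE e0 e0) := by
      have := h2.rot h2
      have e1 : (n:ℝ) * φ + n * φ = ((Nat.add n n : ℕ) : ℝ) * φ := by
        show _ = ((n + n : ℕ) : ℝ) * φ
        push_cast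
        ring
      rwa [e1] at this
    have ho : Nat.add o (Nat.mul (Nat.pow 2 (Nat.mul L n)) o) = ones L (Nat.add n n) := by
      show o + 2 ^ (L * n) * o = ones L (n + n)
      rw [ones_double, ← h3, pow_mul]
    obtain ⟨F', G', e', o', b1, b2, b3⟩ := ih hd' ht ho h4
    have e2 : 2 ^ m * Nat.add n n = 2 ^ (m + 1) * n := by
      show 2 ^ m * (n + n) = _
      rw [pow_succ]
      ring
    rw [e2] at b1 b2
    exact ⟨F', G', e', o', b1, b2, b3⟩

end Pool.Agent.H65.Shore
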