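import Mathlib
import Pool.Agent.H65.Shore.Table
import Pool.Agent.H4.Shore.Taylor

/-!
The basic rotation by a small dyadic angle.
-/

namespace Pool.Agent.H65.Shore

/-- `2 ^ 60 cos (dn / 2 ^ 30)` -/
def cosN (dn : ℕ) : ℕ :=
  Nat.sub (Nat.add (Nat.sub 1152921504606846976 (Nat.div (Nat.mul dn dn) 2))
    (Nat.div (Nat.pow dn 4) 27670116110564327424))
    (Nat.div (Nat.pow dn 6) 957044156965139428490741083401848094720)

/-- `2 ^ 60 sin (dn / 2 ^ 30)` -/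
def sinN (dn : ℕ) : ℕ :=
  Nat.add (Nat.sub (Nat.mul dn 1073741824) (Nat.div (Nat.pow dn 3) 6442450944))
    (Nat.div (Nat.pow dn 5) 148552804714245632987894906880)

theorem div_bounds (a b : ℕ) (hb : 0 < b) :
    ((a / b : ℕ) : ℝ) ≤ (a:ℝ) / b ∧ (a:ℝ) / b ≤ ((a / b : ℕ) : ℝ) + 1 := by
  have hb' : (0:ℝ) < b := by exact_mod_cast hb
  refine ⟨Nat.cast_div_le, ?_⟩
  rw [div_le_iff₀ hb']
  have := Nat.lt_div_mul_add (a := a) hb
  have h4 : (a : ℝ) ≤ ((a / b * b + b : ℕ) : ℝ) := by exact_mod_cast this.le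
  push_cast at h4
  linarith

theorem cosN_err {dn : ℕ} (h : dn ≤ 2 ^ 23) :
    |((cosN dn : ℤ) : ℝ) - SC * Real.cos ((dn:ℝ) / 2 ^ 30)| ≤ 3 := by
  have e1 : cosN dn = 1152921504606846976 - dn * dn / 2 + dn ^ 4 / 27670116110564327424 -
      dn ^ 6 / 957044156965139428490741083401848094720 := rfl
  have k1 : dn * dn / 2 ≤ 1152921504606846976 := by
    calc dn * dn / 2 ≤ dn * dn := Nat.div_le_self _ _
      _ ≤ 2 ^ 23 * 2 ^ 23 := Nat.mul_le_mul h h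
      _ ≤ _ := by norm_num
  have k2 : dn ^ 6 / 957044156965139428490741083401848094720 ≤
      1152921504606846976 - dn * dn / 2 + dn ^ 4 / 27670116110564327424 := by
    have a1 : dn ^ 6 / 957044156965139428490741083401848094720 ≤ 2 ^ 20 := by
      apply Nat.div_le_of_le_mul
      calc dn ^ 6 ≤ (2 ^ 23) ^ 6 := Nat.pow_le_pow_left h 6
        _ ≤ _ := by norm_num
    have a2 : dn * dn / 2 ≤ 2 ^ 46 := by
      calc dn * dn / 2 ≤ dn * dn := Nat.div_le_self _ _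
        _ ≤ 2 ^ 23 * 2 ^ 23 := Nat.mul_le_mul h h
        _ = _ := by norm_num
    omega
  have hx0 : (0:ℝ) ≤ (dn:ℝ) / 2 ^ 30 := by positivity
  have hx1 : (dn:ℝ) / 2 ^ 30 ≤ 1 / 2 ^ 7 := by
    rw [div_le_div_iff₀ (by positivity) (by positivity)]
    have : (dn:ℝ) ≤ 2 ^ 23 := by exact_mod_cast h
    linarith
  obtain ⟨b1, b2⟩ := div_bounds (dn * dn) 2 (by norm_num)
  obtain ⟨b3, b4⟩ := div_bounds (dn ^ 4) 27670116110564327424 (by norm_num)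
  obtain ⟨b5, b6⟩ := div_bounds (dn ^ 6) 957044156965139428490741083401848094720 (by norm_num)
  obtain ⟨t1, -⟩ := Pool.Agent.H4.Shore.trig_bound ((dn:ℝ) / 2 ^ 30) (by
    rw [abs_of_nonneg hx0]
    exact hx1.trans (by norm_num))
  rw [abs_of_nonneg hx0] at t1
  have e2 : ((cosN dn : ℤ) : ℝ) = 1152921504606846976 - ((dn * dn / 2 : ℕ) : ℝ) +
      ((dn ^ 4 / 27670116110564327424 : ℕ) : ℝ) -
      ((dn ^ 6 / 957044156965139428490741083401848094720 : ℕ) : ℝ) := by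
    rw [Int.cast_natCast, e1, Nat.cast_sub k2, Nat.cast_add, Nat.cast_sub k1]
    push_cast
    rfl
  rw [e2]
  have hSC : (SC:ℝ) = 2 ^ 60 := by norm_num [SC]
  rw [hSC]
  set x : ℝ := (dn:ℝ) / 2 ^ 30 with hx
  have hdn : (dn:ℝ) = 2 ^ 30 * x := by
    rw [hx]
    field_simp
  push_cast at b1 b2 b3 b4 b5 b6 ⊢
  rw [hdn] at b1 b2 b3 b4 b5 b6
  unfold Pool.Agent.H4.Shore.cosT at t1
  have p8 : x ^ 8 ≤ (1 / 2 ^ 7) ^ 8 := by gcongr
  have p10 : x ^ 10 ≤ (1 / 2 ^ 7) ^ 10 := by gcongr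
  have p12 : x ^ 12 ≤ (1 / 2 ^ 7) ^ 12 := by gcongr
  have p14 : x ^ 14 ≤ (1 / 2 ^ 7) ^ 14 := by gcongr
  have p8' : 0 ≤ x ^ 8 := by positivity
  have p10' : 0 ≤ x ^ 10 := by positivity
  have p12' : 0 ≤ x ^ 12 := by positivity
  norm_num at p8 p10 p12 p14
  have t1' := abs_le.mp t1
  rw [abs_le]
  constructor
  · norm_num at *
    nlinarith
  · norm_num at *
    nlinarith

theorem sinN_err {dn : ℕ} (h : dn ≤ 2 ^ 23) :
    |((sinN dn : ℤ) : ℝ) - SC * Real.sin ((dn:ℝ) / 2 ^ 30)| ≤ 2 := by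
  have e1 : sinN dn = dn * 1073741824 - dn ^ 3 / 6442450944 + dn ^ 5 / 148552804714245632987894906880 := rfl
  have k1 : dn ^ 3 / 6442450944 ≤ dn * 1073741824 := by
    apply Nat.div_le_of_le_mul
    have : dn ^ 2 ≤ (2 ^ 23) ^ 2 := Nat.pow_le_pow_left h 2
    calc dn ^ 3 = dn ^ 2 * dn := by ring
      _ ≤ (2 ^ 23) ^ 2 * dn := Nat.mul_le_mul_right _ this
      _ ≤ (6442450944 * 1073741824) * dn := Nat.mul_le_mul_right _ (by norm_num)
      _ = _ := by ring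
  have hx0 : (0:ℝ) ≤ (dn:ℝ) / 2 ^ 30 := by positivity
  have hx1 : (dn:ℝ) / 2 ^ 30 ≤ 1 / 2 ^ 7 := by
    rw [div_le_div_iff₀ (by positivity) (by positivity)]
    have : (dn:ℝ) ≤ 2 ^ 23 := by exact_mod_cast h
    linarith
  obtain ⟨b3, b4⟩ := div_bounds (dn ^ 3) 6442450944 (by norm_num)
  obtain ⟨b5, b6⟩ := div_bounds (dn ^ 5) 148552804714245632987894906880 (by norm_num)
  obtain ⟨-, t1⟩ := Pool.Agent.H4.Shore.trig_bound ((dn:ℝ) / 2 ^ 30) (by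
    rw [abs_of_nonneg hx0]
    exact hx1.trans (by norm_num))
  rw [abs_of_nonneg hx0] at t1
  have e2 : ((sinN dn : ℤ) : ℝ) = dn * 1073741824 - ((dn ^ 3 / 6442450944 : ℕ) : ℝ) +
      ((dn ^ 5 / 148552804714245632987894906880 : ℕ) : ℝ) := by
    rw [Int.cast_natCast, e1, Nat.cast_add, Nat.cast_sub k1]
    push_cast
    rfl
  rw [e2]
  have hSC : (SC:ℝ) = 2 ^ 60 := by norm_num [SC]
  rw [hSC]
  set x : ℝ := (dn:ℝ) / 2 ^ 30 with hx
  have hdn : (dn:ℝ) = 2 ^ 30 * x := by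
    rw [hx]
    field_simp
  push_cast at b3 b4 b5 b6 ⊢
  rw [hdn] at b3 b4 b5 b6 ⊢
  unfold Pool.Agent.H4.Shore.sinT at t1
  have p7 : x ^ 7 ≤ (1 / 2 ^ 7) ^ 7 := by gcongr
  have p9 : x ^ 9 ≤ (1 / 2 ^ 7) ^ 9 := by gcongr
  have p11 : x ^ 11 ≤ (1 / 2 ^ 7) ^ 11 := by gcongr
  have p13 : x ^ 13 ≤ (1 / 2 ^ 7) ^ 13 := by gcongr
  have p14 : x ^ 14 ≤ (1 / 2 ^ 7) ^ 14 := by gcongr
  have p7' : 0 ≤ x ^ 7 := by positivity
  have p9' : 0 ≤ x ^ 9 := by positivity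
  have p11' : 0 ≤ x ^ 11 := by positivity
  have p13' : 0 ≤ x ^ 13 := by positivity
  norm_num at p7 p9 p11 p13 p14
  have t1' := abs_le.mp t1
  rw [abs_le]
  constructor
  · norm_num at *
    nlinarith
  · norm_num at *
    nlinarith

theorem TS_base {dn : ℕ} (h : dn ≤ 2 ^ 23) :
    TS ((dn:ℝ) / 2 ^ 30) (cosN dn : ℤ) (sinN dn : ℤ) 5 :=
  TS.of_abs (a := 3) (b := 2) (by exact_mod_cast cosN_err h) (by exact_mod_cast sinN_err h)

end Pool.Agent.H65.Shore
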