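import Mathlib
import Pool.Agent.H44.Shore.Lip

/-!
The chord theorems of `Grid.lean` (by helper44) with an additional slack.
-/

open MeasureTheory Set Filter Topology Polynomial
open scoped Interval ENNReal

namespace Pool.Agent.H65.Shore

open Pool.Agent.H44.Shore

/-- chord form with slack -/
theorem grid_chord_s {D : Dat} {r0 r1 vr vt δ Ps0 Ps1 Krr Ktt Lam : ℝ} {a b : ℕ}
    (h : Grid D r0 r1 vr vt δ a b Ps0 Ps1 Krr Ktt Lam) (hρ : 0 < D.ρ) (hxL : 0 < D.xL)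
    (hr0 : 0 < r0) {sl wd : ℝ} (hsl : 0 ≤ sl) (hwd : 0 ≤ wd)
    (hw : wd < a * δ → D.xL < r0 * Real.cos (a * δ - wd))
    (hf : ∀ r ∈ Icc r0 r1, ∀ w, (w = vt ∨ w = -vt) → ∀ θ ∈ Icc 0 ((a:ℝ) * δ),
      r * Real.cos θ ≤ D.xL →
      max 0 (D.gs r vr w (Real.cos θ) (Real.sin θ)) ≤
        max 0 ((-vr + w * Real.tan θ) / r) + sl)
    {H m0 m1 E s : ℝ} (hH : HL vr vt (a * δ) ≤ H)
    (hE : 2 * sl * wd + 2 * (Ps0 - a * δ) * (Krr * (r1 - r0) ^ 2 / 8 + Ktt * δ ^ 2 / 8) +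
      (Ps0 - Ps1) * Lam / 4 + Real.pi * max 0 (m0 - m1) * (r1 - r0) / 4 ≤ E)
    (h0 : TT (POS D r0 vr vt δ) δ a b (Ps0 - b * δ) + H / r0 -
      Real.pi * (1 + m0 * (vr - r0)) + E ≤ -s)
    (h1 : TT (POS D r1 vr vt δ) δ a b (Ps1 - b * δ) + H / r1 -
      Real.pi * (1 + m1 * (vr - r1)) + E ≤ -s)
    {lam : ℝ} (hl : lam ∈ Icc (0:ℝ) 1) :
    FF D (lin r0 r1 lam) (lin m0 m1 lam) (vr, vt) ≤ -s := by
  have hmain := grid_pair h hρ hxL hr0 hsl hwd hw hf hl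
  have hrr := lin_mem h.hr hl
  have hr := h.hr
  have hlam0 := hl.1
  have hlam1 : 0 ≤ 1 - lam := by linarith [hl.2]
  have l0 : 0 < lin r0 r1 lam := lt_of_lt_of_le hr0 hrr.1
  have hr1 : 0 < r1 := lt_of_lt_of_le hr0 hr
  have hδ := h.hδ
  have ha0 : (0:ℝ) ≤ a * δ := by positivity
  have hHL0 : 0 ≤ HL vr vt (a * δ) := by
    unfold HL
    exact intervalIntegral.integral_nonneg ha0 (fun θ _ => hL_nonneg _ _ _)
  have hH0 : 0 ≤ H := hHL0.trans hH
  have e1 : HL vr vt (a * δ) / lin r0 r1 lam ≤ (1 - lam) * (H / r0) + lam * (H / r1) := by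
    have f1 : HL vr vt (a * δ) / lin r0 r1 lam ≤ H / lin r0 r1 lam := by gcongr
    have f2 : 1 / lin r0 r1 lam ≤ (1 - lam) / r0 + lam / r1 := by
      rw [div_add_div _ _ hr0.ne' hr1.ne', div_le_div_iff₀ l0 (by positivity)]
      have e : ((1 - lam) * r1 + r0 * lam) * lin r0 r1 lam - 1 * (r0 * r1) =
          lam * (1 - lam) * (r1 - r0) ^ 2 := by
        unfold lin
        ring
      have : 0 ≤ lam * (1 - lam) * (r1 - r0) ^ 2 := by positivity
      linarith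
    have f3 : H / lin r0 r1 lam = H * (1 / lin r0 r1 lam) := by ring
    have f4 := mul_le_mul_of_nonneg_left f2 hH0
    have f5 : H * ((1 - lam) / r0 + lam / r1) = (1 - lam) * (H / r0) + lam * (H / r1) := by ring
    linarith
  have e2 : -(Real.pi * (1 + lin m0 m1 lam * (vr - lin r0 r1 lam))) ≤
      (1 - lam) * (-(Real.pi * (1 + m0 * (vr - r0)))) +
      lam * (-(Real.pi * (1 + m1 * (vr - r1)))) +
      Real.pi * max 0 (m0 - m1) * (r1 - r0) / 4 := by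
    have f1 : -(Real.pi * (1 + lin m0 m1 lam * (vr - lin r0 r1 lam))) =
      (1 - lam) * (-(Real.pi * (1 + m0 * (vr - r0)))) +
      lam * (-(Real.pi * (1 + m1 * (vr - r1)))) +
      Real.pi * ((m0 - m1) * (r1 - r0)) * (lam * (1 - lam)) := by
      unfold lin
      ring
    rw [f1]
    have f2 : (m0 - m1) * (r1 - r0) ≤ max 0 (m0 - m1) * (r1 - r0) := by
      apply mul_le_mul_of_nonneg_right (le_max_right _ _)
      linarith
    have f3 : 0 ≤ max 0 (m0 - m1) * (r1 - r0) :=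
      mul_nonneg (le_max_left _ _) (by linarith)
    have f4 : lam * (1 - lam) ≤ 1 / 4 := by nlinarith [sq_nonneg (lam - 1 / 2)]
    have f5 : 0 ≤ lam * (1 - lam) := mul_nonneg hlam0 hlam1
    have f6 : Real.pi * ((m0 - m1) * (r1 - r0)) * (lam * (1 - lam)) ≤
        Real.pi * (max 0 (m0 - m1) * (r1 - r0)) * (1 / 4) := by
      have g1 : Real.pi * ((m0 - m1) * (r1 - r0)) ≤ Real.pi * (max 0 (m0 - m1) * (r1 - r0)) :=
        mul_le_mul_of_nonneg_left f2 Real.pi_pos.le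
      have g2 : 0 ≤ Real.pi * (max 0 (m0 - m1) * (r1 - r0)) := mul_nonneg Real.pi_pos.le f3
      calc Real.pi * ((m0 - m1) * (r1 - r0)) * (lam * (1 - lam))
          ≤ Real.pi * (max 0 (m0 - m1) * (r1 - r0)) * (lam * (1 - lam)) :=
            mul_le_mul_of_nonneg_right g1 f5
        _ ≤ _ := mul_le_mul_of_nonneg_left f4 g2
    linarith
  have k0 := mul_le_mul_of_nonneg_left h0 hlam1
  have k1 := mul_le_mul_of_nonneg_left h1 hlam0
  unfold FF
  simp only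
  linarith

/-- chord form without left region, with slack -/
theorem grid_chord_zero_s {D : Dat} {r0 r1 vr vt δ Ps0 Ps1 Krr Ktt Lam : ℝ} {b : ℕ}
    (h : Grid D r0 r1 vr vt δ 0 b Ps0 Ps1 Krr Ktt Lam) (hρ : 0 < D.ρ) (hxL : 0 < D.xL)
    {m0 m1 E s : ℝ}
    (hE : 2 * Ps0 * (Krr * (r1 - r0) ^ 2 / 8 + Ktt * δ ^ 2 / 8) +
      (Ps0 - Ps1) * Lam / 4 + Real.pi * max 0 (m0 - m1) * (r1 - r0) / 4 ≤ E)
    (h0 : TT (POS D r0 vr vt δ) δ 0 b (Ps0 - b * δ) - Real.pi * (1 + m0 * (vr - r0)) + E ≤ -s)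
    (h1 : TT (POS D r1 vr vt δ) δ 0 b (Ps1 - b * δ) - Real.pi * (1 + m1 * (vr - r1)) + E ≤ -s)
    {lam : ℝ} (hl : lam ∈ Icc (0:ℝ) 1) (hpos : 0 < lin r0 r1 lam) :
    FF D (lin r0 r1 lam) (lin m0 m1 lam) (vr, vt) ≤ -s := by
  have hstrip := grid_strip h hρ hxL hl
  have hrr := lin_mem h.hr hl
  have hr := h.hr
  have hlam0 := hl.1
  have hlam1 : 0 ≤ 1 - lam := by linarith [hl.2]
  simp only [Nat.cast_zero, zero_mul, sub_zero] at hstrip
  have i1 := fun w a b => Dat.g_pos_integrable D hxL hpos vr w a b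
  have hsum := intervalIntegral.integral_add (i1 vt 0 Real.pi) (i1 (-vt) 0 Real.pi)
  have e2 : -(Real.pi * (1 + lin m0 m1 lam * (vr - lin r0 r1 lam))) ≤
      (1 - lam) * (-(Real.pi * (1 + m0 * (vr - r0)))) +
      lam * (-(Real.pi * (1 + m1 * (vr - r1)))) +
      Real.pi * max 0 (m0 - m1) * (r1 - r0) / 4 := by
    have f1 : -(Real.pi * (1 + lin m0 m1 lam * (vr - lin r0 r1 lam))) =
      (1 - lam) * (-(Real.pi * (1 + m0 * (vr - r0)))) +
      lam * (-(Real.pi * (1 + m1 * (vr - r1)))) +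
      Real.pi * ((m0 - m1) * (r1 - r0)) * (lam * (1 - lam)) := by
      unfold lin
      ring
    rw [f1]
    have f2 : (m0 - m1) * (r1 - r0) ≤ max 0 (m0 - m1) * (r1 - r0) := by
      apply mul_le_mul_of_nonneg_right (le_max_right _ _)
      linarith
    have f3 : 0 ≤ max 0 (m0 - m1) * (r1 - r0) :=
      mul_nonneg (le_max_left _ _) (by linarith)
    have f4 : lam * (1 - lam) ≤ 1 / 4 := by nlinarith [sq_nonneg (lam - 1 / 2)]
    have f5 : 0 ≤ lam * (1 - lam) := mul_nonneg hlam0 hlam1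
    have f6 : Real.pi * ((m0 - m1) * (r1 - r0)) * (lam * (1 - lam)) ≤
        Real.pi * (max 0 (m0 - m1) * (r1 - r0)) * (1 / 4) := by
      have g1 : Real.pi * ((m0 - m1) * (r1 - r0)) ≤ Real.pi * (max 0 (m0 - m1) * (r1 - r0)) :=
        mul_le_mul_of_nonneg_left f2 Real.pi_pos.le
      have g2 : 0 ≤ Real.pi * (max 0 (m0 - m1) * (r1 - r0)) := mul_nonneg Real.pi_pos.le f3
      calc Real.pi * ((m0 - m1) * (r1 - r0)) * (lam * (1 - lam))
          ≤ Real.pi * (max 0 (m0 - m1) * (r1 - r0)) * (lam * (1 - lam)) :=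
            mul_le_mul_of_nonneg_right g1 f5
        _ ≤ _ := mul_le_mul_of_nonneg_left f4 g2
    linarith
  have k0 := mul_le_mul_of_nonneg_left h0 hlam1
  have k1 := mul_le_mul_of_nonneg_left h1 hlam0
  unfold FF
  simp only
  rw [hsum]
  linarith

end Pool.Agent.H65.Shore
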