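import Mathlib
import Pool.Agent.H65.Shore.Table

/-!
Lane-wise approximation of real functions by packed integers, with closure properties, and the
tables of powers of the cosine.
-/

namespace Pool.Agent.H65.Shore

/-- the packed integer `P` has lanes within `e` of `h j`, and bounded by `M` -/
def LA (L n : ℕ) (P : ℤ) (h : ℕ → ℝ) (e : ℝ) (M : ℤ) : Prop :=
  ∃ p : ℕ → ℤ, P = packZ L n p ∧ ∀ j < n, |(p j : ℝ) - h j| ≤ e ∧ |p j| ≤ M

theorem LA.congr {L n : ℕ} {P : ℤ} {h h' : ℕ → ℝ} {e : ℝ} {M : ℤ} (H : LA L n P h e M)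
    (hh : ∀ j < n, h j = h' j) : LA L n P h' e M := by
  obtain ⟨p, hp, hb⟩ := H
  refine ⟨p, hp, fun j hj => ?_⟩
  rw [← hh j hj]
  exact hb j hj

theorem LA.mono {L n : ℕ} {P : ℤ} {h : ℕ → ℝ} {e e' : ℝ} {M M' : ℤ} (H : LA L n P h e M)
    (he : e ≤ e') (hM : M ≤ M') : LA L n P h e' M' := by
  obtain ⟨p, hp, hb⟩ := H
  exact ⟨p, hp, fun j hj => ⟨(hb j hj).1.trans he, (hb j hj).2.trans hM⟩⟩

theorem LA.add {L n : ℕ} {P P' : ℤ} {h h' : ℕ → ℝ} {e e' : ℝ} {M M' : ℤ} (H : LA L n P h e M)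
    (H' : LA L n P' h' e' M') :
    LA L n (P + P') (fun j => h j + h' j) (e + e') (M + M') := by
  obtain ⟨p, hp, hb⟩ := H
  obtain ⟨p', hp', hb'⟩ := H'
  refine ⟨fun j => p j + p' j, by rw [packZ_add, hp, hp'], fun j hj => ⟨?_, ?_⟩⟩
  · have e1 : ((p j + p' j : ℤ) : ℝ) - (h j + h' j) = ((p j : ℝ) - h j) + ((p' j : ℝ) - h' j) := by
      push_cast
      ring
    rw [e1]
    exact (abs_add_le _ _).trans (add_le_add (hb j hj).1 (hb' j hj).1)
  · exact (abs_add_le _ _).trans (add_le_add (hb j hj).2 (hb' j hj).2)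

theorem LA.mul_const {L n : ℕ} {P : ℤ} {h : ℕ → ℝ} {e : ℝ} {M : ℤ} (H : LA L n P h e M) (k : ℤ) :
    LA L n (P * k) (fun j => k * h j) (|(k:ℝ)| * e) (|k| * M) := by
  obtain ⟨p, hp, hb⟩ := H
  refine ⟨fun j => p j * k, by rw [packZ_mul, hp], fun j hj => ⟨?_, ?_⟩⟩
  · have e1 : ((p j * k : ℤ) : ℝ) - k * h j = k * ((p j : ℝ) - h j) := by
      push_cast
      ring
    rw [e1, abs_mul]
    exact mul_le_mul_of_nonneg_left (hb j hj).1 (abs_nonneg _)
  · rw [abs_mul, mul_comm]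
    exact mul_le_mul_of_nonneg_left (hb j hj).2 (abs_nonneg _)

theorem LA.ones (L n : ℕ) : LA L n (ones L n : ℤ) (fun _ => 1) 0 1 := by
  refine ⟨fun _ => 1, ?_, fun j _ => ⟨by simp, by simp⟩⟩
  rw [packZ_const]
  ring

theorem LA.div {L n t : ℕ} {P : ℤ} {h : ℕ → ℝ} {e : ℝ} {M : ℤ} (H : LA L n P h e M)
    (ht : t + 1 ≤ L) (hM : M < 2 ^ (L - 1)) {M' : ℤ} (hM' : M + 2 ^ t ≤ M' * 2 ^ t) :
    LA L n (laneDiv L t (Shore.ones L n) P) (fun j => h j / 2 ^ t) (e / 2 ^ t + 1) M' := by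
  obtain ⟨p, hp, hb⟩ := H
  refine ⟨fun j => p j / 2 ^ t, ?_, fun j hj => ⟨?_, ?_⟩⟩
  · rw [hp]
    exact laneDiv_eq (by omega) ht (fun j hj => lt_of_le_of_lt (hb j hj).2 hM)
  · have h1 := ediv_err (p j) (b := 2 ^ t) (by positivity)
    push_cast at h1
    have h2 : |(p j : ℝ) / 2 ^ t - h j / 2 ^ t| ≤ e / 2 ^ t := by
      rw [← sub_div, abs_div, abs_of_pos (by positivity : (0:ℝ) < 2 ^ t)]
      exact div_le_div_of_nonneg_right (hb j hj).1 (by positivity)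
    have h3 := abs_sub_le (((p j / 2 ^ t : ℤ)) : ℝ) ((p j : ℝ) / 2 ^ t) (h j / 2 ^ t)
    push_cast at h3 ⊢
    linarith
  · have h4 := (hb j hj).2
    have h5 : (0:ℤ) < 2 ^ t := by positivity
    have h6 := abs_le.mp h4
    rw [abs_le]
    constructor
    · have : -M' ≤ p j / 2 ^ t := by
        apply Int.le_ediv_of_mul_le h5
        nlinarith
      exact this
    · have : p j / 2 ^ t ≤ M' := by
        apply Int.ediv_le_of_le_mul h5
        nlinarith
      exact this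

theorem RotP.cosLA {L n : ℕ} {θ0 φ : ℝ} {F G : ℤ} {e : ℕ} (h : RotP L n θ0 φ F G e) :
    LA L n F (fun j => SC * Real.cos (θ0 + j * φ)) e (SC + e) := by
  obtain ⟨f, g, hF, -, hfg⟩ := h
  exact ⟨f, hF, fun j hj => ⟨(hfg j hj).hc, (hfg j hj).abs_le.1⟩⟩

theorem RotP.sinLA {L n : ℕ} {θ0 φ : ℝ} {F G : ℤ} {e : ℕ} (h : RotP L n θ0 φ F G e) :
    LA L n G (fun j => SC * Real.sin (θ0 + j * φ)) e (SC + e) := by
  obtain ⟨f, g, -, hG, hfg⟩ := h
  exact ⟨g, hG, fun j hj => ⟨(hfg j hj).hs, (hfg j hj).abs_le.2⟩⟩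

/-! lists of packed functions -/

/-- all members of the list approximate the functions `h i` -/
def LAs (L n : ℕ) (e : ℝ) (M : ℤ) : List ℤ → (ℕ → ℕ → ℝ) → Prop
  | [], _ => True
  | P :: Ps, h => LA L n P (h 0) e M ∧ LAs L n e M Ps (fun i => h (i + 1))

def dotZ : List ℤ → List ℤ → ℤ
  | b :: bs, p :: ps => Int.add (Int.mul p b) (dotZ bs ps)
  | _, _ => 0

/-- the real counterpart of `dotZ`; the second list only fixes the length -/
noncomputable def dotR : List ℤ → List ℤ → (ℕ → ℕ → ℝ) → ℕ → ℝ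
  | b :: bs, _ :: ps, h, j => (b:ℝ) * h 0 j + dotR bs ps (fun i => h (i + 1)) j
  | _, _, _, _ => 0

def absSum : List ℤ → ℕ
  | [] => 0
  | b :: bs => Nat.add (Int.natAbs b) (absSum bs)

theorem dot_LA {L n : ℕ} {e : ℝ} {M : ℤ} (he : 0 ≤ e) (hM : 0 ≤ M) :
    ∀ {Ps : List ℤ} {h : ℕ → ℕ → ℝ} (bs : List ℤ), LAs L n e M Ps h →
      LA L n (dotZ bs Ps) (dotR bs Ps h) (absSum bs * e) (absSum bs * M) := by
  intro Ps
  induction Ps with
  | nil =>
    intro h bs _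
    refine ⟨fun _ => 0, ?_, fun j _ => ⟨?_, ?_⟩⟩
    · cases bs <;> simp [dotZ, packZ]
    · cases bs <;> simp [dotR] <;> positivity
    · simp only [abs_zero]
      positivity
  | cons P Ps ih =>
    intro h bs hP
    cases bs with
    | nil =>
      refine ⟨fun _ => 0, ?_, fun j _ => ⟨?_, ?_⟩⟩
      · simp [dotZ, packZ]
      · simp [dotR, absSum]
      · simp [absSum]
    | cons b bs =>
      have h1 := (hP.1.mul_const b).add (ih bs hP.2)
      have e1 : |(b:ℝ)| * e + (absSum bs : ℝ) * e = (absSum (b :: bs) : ℝ) * e := by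
        show _ = ((b.natAbs + absSum bs : ℕ) : ℝ) * e
        push_cast
        rw [Nat.cast_natAbs, Int.cast_abs]
        ring
      have e2 : |b| * M + (absSum bs : ℤ) * M = (absSum (b :: bs) : ℤ) * M := by
        show _ = ((b.natAbs + absSum bs : ℕ) : ℤ) * M
        push_cast
        ring
      rw [e1, e2] at h1
      exact h1

end Pool.Agent.H65.Shore
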