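import Mathlib
import Pool.Agent.H65.Shore.LA

/-!
The tables of `cos ^ i` and `sin * cos ^ i` on the grid, evaluated by the kernel.
-/

namespace Pool.Agent.H65.Shore

/-- powers of a rotation, binary expansion of the exponent (most significant bit first) -/
def rotPow (C S : ℤ) (e0 : ℕ) : List Bool → ℕ → ℤ → ℤ → ℕ → (ℕ → ℤ → ℤ → ℕ → Bool) → Bool
  | [], n, c, s, e, k => k n c s e
  | b :: bs, n, c, s, e, k =>
    seqI (rotC c s c s) fun c1 =>
    seqI (rotS c s c s) fun s1 =>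
    seqN (rotE e e) fun e1 =>
    match b with
    | false => rotPow C S e0 bs (Nat.add n n) c1 s1 e1 k
    | true =>
      seqI (rotC c1 s1 C S) fun c2 =>
      seqI (rotS c1 s1 C S) fun s2 =>
      seqN (rotE e1 e0) fun e2 => rotPow C S e0 bs (Nat.succ (Nat.add n n)) c2 s2 e2 k

theorem rotPow_sound {δ : ℝ} {C S : ℤ} {e0 : ℕ} (hd : TS δ C S e0)
    {k : ℕ → ℤ → ℤ → ℕ → Bool} (bs : List Bool) :
    ∀ {n : ℕ} {c s : ℤ} {e : ℕ}, TS (n * δ) c s e → rotPow C S e0 bs n c s e k = true →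
      ∃ n' c' s' e', TS ((n':ℕ) * δ) c' s' e' ∧ k n' c' s' e' = true := by
  induction bs with
  | nil =>
    intro n c s e h1 h2
    exact ⟨n, c, s, e, h1, h2⟩
  | cons b bs ih =>
    intro n c s e h1 h2
    unfold rotPow at h2
    simp only [seqN_eq, seqI_eq] at h2
    have h3 := h1.rot h1
    have e1 : (n:ℝ) * δ + n * δ = ((Nat.add n n : ℕ) : ℝ) * δ := by
      show _ = ((n + n : ℕ) : ℝ) * δ
      push_cast
      ring
    rw [e1] at h3
    cases b with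
    | false => exact ih h3 h2
    | true =>
      have h4 := h3.rot hd
      have e2 : ((Nat.add n n : ℕ) : ℝ) * δ + δ = ((Nat.succ (Nat.add n n) : ℕ) : ℝ) * δ := by
        push_cast
        ring
      rw [e2] at h4
      exact ih h4 h2

/-- The Fourier tables for `k = 1, ..., K` are passed in lists to the continuation
(highest frequency first). -/
def fourTab (L m : ℕ) (C S : ℤ) (e0 : ℕ) (c s : ℤ) (e : ℕ) :
    ℕ → ℤ → ℤ → ℕ → ℤ → ℤ → ℕ → List ℤ → List ℤ → (List ℤ → List ℤ → ℕ → Bool) → Bool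
  | 0, _, _, _, _, _, _, Fs, Gs, k => seqN (Nat.div (Nat.sub (Nat.pow 2 (Nat.mul L (Nat.pow 2 m))) 1)
      (Nat.sub (Nat.pow 2 L) 1)) fun o => k Fs Gs o
  | Nat.succ K, Ck, Sk, e0k, ck, sk, ek, Fs, Gs, k =>
    rotTab L m 1 1 ck sk Ck Sk ek e0k fun F G e1 _ =>
    andB (Nat.ble e1 262144) (
    seqI (rotC Ck Sk C S) fun C' =>
    seqI (rotS Ck Sk C S) fun S' =>
    seqN (rotE e0k e0) fun e0' =>
    seqI (rotC ck sk c s) fun c' =>
    seqI (rotS ck sk c s) fun s' =>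
    seqN (rotE ek e) fun e' =>
    fourTab L m C S e0 c s e K C' S' e0' c' s' e' (F :: Fs) (G :: Gs) k)

theorem ones_div {L n : ℕ} (hL : 0 < L) :
    Nat.div (Nat.sub (Nat.pow 2 (Nat.mul L n)) 1) (Nat.sub (Nat.pow 2 L) 1) = ones L n := by
  show (2 ^ (L * n) - 1) / (2 ^ L - 1) = ones L n
  rw [ones, packN_eq_sum, pow_mul]
  have h1 : 2 ≤ 2 ^ L := by
    calc 2 = 2 ^ 1 := rfl
      _ ≤ 2 ^ L := Nat.pow_le_pow_right (by norm_num) hL
  have h2 := Nat.geomSum_eq h1 n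
  simp only [one_mul]
  rw [h2]

/-- description of the Fourier lists -/
def FL (L n : ℕ) (θ0 δ : ℝ) : ℕ → List ℤ → List ℤ → Prop
  | _, [], [] => True
  | k, F :: Fs, G :: Gs => RotP L n (k * θ0) (k * δ) F G 262144 ∧ FL L n θ0 δ (k - 1) Fs Gs
  | _, _, _ => False

theorem RotP.mono {L n : ℕ} {θ0 φ : ℝ} {F G : ℤ} {e e' : ℕ} (h : RotP L n θ0 φ F G e)
    (he : e ≤ e') : RotP L n θ0 φ F G e' := by
  obtain ⟨f, g, h1, h2, h3⟩ := h
  exact ⟨f, g, h1, h2, fun j hj => (h3 j hj).mono he⟩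

theorem fourTab_sound {L m : ℕ} (hL : 125 ≤ L) {θ0 δ : ℝ} {C S c s : ℤ} {e0 e : ℕ}
    (hd : TS δ C S e0) (h0 : TS θ0 c s e) {k : List ℤ → List ℤ → ℕ → Bool} (K : ℕ) :
    ∀ {q : ℕ} {Ck Sk ck sk : ℤ} {e0k ek : ℕ} {Fs Gs : List ℤ},
      TS ((q + 1 : ℕ) * δ) Ck Sk e0k → TS ((q + 1 : ℕ) * θ0) ck sk ek →
      FL L (2 ^ m) θ0 δ q Fs Gs →
      fourTab L m C S e0 c s e K Ck Sk e0k ck sk ek Fs Gs k = true →
      ∃ Fs' Gs', FL L (2 ^ m) θ0 δ (q + K) Fs' Gs' ∧ Fs'.length = Fs.length + K ∧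
        Gs'.length = Gs.length + K ∧ k Fs' Gs' (ones L (2 ^ m)) = true := by
  induction K with
  | zero =>
    intro q Ck Sk ck sk e0k ek Fs Gs h1 h2 h3 h4
    unfold fourTab at h4
    rw [seqN_eq] at h4
    have : Nat.div (Nat.sub (Nat.pow 2 (Nat.mul L (Nat.pow 2 m))) 1) (Nat.sub (Nat.pow 2 L) 1) =
        ones L (2 ^ m) := ones_div (by omega)
    rw [this] at h4
    exact ⟨Fs, Gs, h3, rfl, rfl, h4⟩
  | succ K ih =>
    intro q Ck Sk ck sk e0k ek Fs Gs h1 h2 h3 h4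
    unfold fourTab at h4
    have hr : RotP L 1 ((q + 1 : ℕ) * θ0) ((q + 1 : ℕ) * δ) ck sk ek := by
      refine ⟨fun _ => ck, fun _ => sk, ?_, ?_, ?_⟩
      · simp [packZ]
      · simp [packZ]
      · intro j hj
        have : j = 0 := by omega
        subst this
        simpa using h2
    have h1' : TS ((1:ℕ) * (((q + 1 : ℕ) : ℝ) * δ)) Ck Sk e0k := by simpa using h1
    have ho : (1:ℕ) = ones L 1 := by simp [ones, packN]
    obtain ⟨F, G, e1, o', b1, b2, b3⟩ := rotTab_sound hL m hr h1' ho h4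
    obtain ⟨c1, b4⟩ := andB_eq b3
    simp only [seqN_eq, seqI_eq] at b4
    have c1' : e1 ≤ 262144 := Nat.le_of_ble_eq_true c1
    rw [mul_one] at b1
    have t1 := h1.rot hd
    have t2 := h2.rot h0
    have e2 : ((q + 1 : ℕ) : ℝ) * δ + δ = ((q + 1 + 1 : ℕ) : ℝ) * δ := by
      push_cast
      ring
    have e3 : ((q + 1 : ℕ) : ℝ) * θ0 + θ0 = ((q + 1 + 1 : ℕ) : ℝ) * θ0 := by
      push_cast
      ring
    rw [e2] at t1
    rw [e3] at t2
    have hFL : FL L (2 ^ m) θ0 δ (q + 1) (F :: Fs) (G :: Gs) := ⟨b1.mono c1', h3⟩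
    obtain ⟨Fs', Gs', d1, d2, d3, d4⟩ := ih t1 t2 hFL b4
    refine ⟨Fs', Gs', ?_, ?_, ?_, d4⟩
    · have : q + (K + 1) = q + 1 + K := by ring
      rwa [this]
    · rw [d2]
      simp
      ring
    · rw [d3]
      simp
      ring

end Pool.Agent.H65.Shore
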