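import Mathlib
import Pool.Agent.H65.Shore.MkTab

/-!
From the Fourier tables to the tables of powers.
-/

set_option linter.unusedSimpArgs false

namespace Pool.Agent.H65.Shore

theorem multi_angle (φ : ℝ) :
    (Real.cos (2 * φ) = 2 * Real.cos φ ^ 2 - 1 ∧ Real.sin (2 * φ) = Real.sin φ * (2 * Real.cos φ)) ∧
    (Real.cos (3 * φ) = 4 * Real.cos φ ^ 3 - 3 * Real.cos φ ∧
      Real.sin (3 * φ) = Real.sin φ * (4 * Real.cos φ ^ 2 - 1)) ∧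
    (Real.cos (4 * φ) = 8 * Real.cos φ ^ 4 - 8 * Real.cos φ ^ 2 + 1 ∧
      Real.sin (4 * φ) = Real.sin φ * (8 * Real.cos φ ^ 3 - 4 * Real.cos φ)) ∧
    (Real.cos (5 * φ) = 16 * Real.cos φ ^ 5 - 20 * Real.cos φ ^ 3 + 5 * Real.cos φ ∧
      Real.sin (5 * φ) = Real.sin φ * (16 * Real.cos φ ^ 4 - 12 * Real.cos φ ^ 2 + 1)) ∧
    (Real.cos (6 * φ) = 32 * Real.cos φ ^ 6 - 48 * Real.cos φ ^ 4 + 18 * Real.cos φ ^ 2 - 1 ∧
      Real.sin (6 * φ) = Real.sin φ * (32 * Real.cos φ ^ 5 - 32 * Real.cos φ ^ 3 +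
        6 * Real.cos φ)) ∧
    (Real.cos (7 * φ) = 64 * Real.cos φ ^ 7 - 112 * Real.cos φ ^ 5 + 56 * Real.cos φ ^ 3 -
        7 * Real.cos φ ∧
      Real.sin (7 * φ) = Real.sin φ * (64 * Real.cos φ ^ 6 - 80 * Real.cos φ ^ 4 +
        24 * Real.cos φ ^ 2 - 1)) := by
  have hs : Real.sin φ ^ 2 = 1 - Real.cos φ ^ 2 := by
    have := Real.sin_sq_add_cos_sq φ
    linarith
  set c := Real.cos φ with hc
  set s := Real.sin φ with hsd
  have h2c : Real.cos (2 * φ) = 2 * c ^ 2 - 1 := by rw [Real.cos_two_mul]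
  have h2s : Real.sin (2 * φ) = s * (2 * c) := by rw [Real.sin_two_mul]; ring
  have step : ∀ (k : ℝ) (A B : ℝ), Real.cos (k * φ) = A → Real.sin (k * φ) = s * B →
      Real.cos ((k + 1) * φ) = A * c - (1 - c ^ 2) * B ∧
      Real.sin ((k + 1) * φ) = s * (B * c + A) := by
    intro k A B h1 h2
    have e : (k + 1) * φ = k * φ + φ := by ring
    rw [e, Real.cos_add, Real.sin_add, h1, h2]
    constructor
    · linear_combination (-B) * hs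
    · ring
  have h3 := step 2 _ _ h2c h2s
  have h3c : Real.cos (3 * φ) = 4 * c ^ 3 - 3 * c := by
    have := h3.1
    norm_num at this
    rw [this]
    ring
  have h3s : Real.sin (3 * φ) = s * (4 * c ^ 2 - 1) := by
    have := h3.2
    norm_num at this
    rw [this]
    ring
  have h4 := step 3 _ _ h3c h3s
  have h4c : Real.cos (4 * φ) = 8 * c ^ 4 - 8 * c ^ 2 + 1 := by
    have := h4.1
    norm_num at this
    rw [this]
    ring
  have h4s : Real.sin (4 * φ) = s * (8 * c ^ 3 - 4 * c) := by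
    have := h4.2
    norm_num at this
    rw [this]
    ring
  have h5 := step 4 _ _ h4c h4s
  have h5c : Real.cos (5 * φ) = 16 * c ^ 5 - 20 * c ^ 3 + 5 * c := by
    have := h5.1
    norm_num at this
    rw [this]
    ring
  have h5s : Real.sin (5 * φ) = s * (16 * c ^ 4 - 12 * c ^ 2 + 1) := by
    have := h5.2
    norm_num at this
    rw [this]
    ring
  have h6 := step 5 _ _ h5c h5s
  have h6c : Real.cos (6 * φ) = 32 * c ^ 6 - 48 * c ^ 4 + 18 * c ^ 2 - 1 := by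
    have := h6.1
    norm_num at this
    rw [this]
    ring
  have h6s : Real.sin (6 * φ) = s * (32 * c ^ 5 - 32 * c ^ 3 + 6 * c) := by
    have := h6.2
    norm_num at this
    rw [this]
    ring
  have h7 := step 6 _ _ h6c h6s
  have h7c : Real.cos (7 * φ) = 64 * c ^ 7 - 112 * c ^ 5 + 56 * c ^ 3 - 7 * c := by
    have := h7.1
    norm_num at this
    rw [this]
    ring
  have h7s : Real.sin (7 * φ) = s * (64 * c ^ 6 - 80 * c ^ 4 + 24 * c ^ 2 - 1) := by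
    have := h7.2
    norm_num at this
    rw [this]
    ring
  exact ⟨⟨h2c, h2s⟩, ⟨h3c, h3s⟩, ⟨h4c, h4s⟩, ⟨h5c, h5s⟩, ⟨h6c, h6s⟩, ⟨h7c, h7s⟩⟩

/-- combination of four lanes vectors with small coefficients, divided by `2 ^ 22` -/
def comb (L o : ℕ) (a0 a1 a2 a3 a4 : ℤ) (A B C D : ℤ) : ℤ :=
  laneDiv L 22 o (Int.add (Int.add (Int.add (Int.add (Int.mul (Int.ofNat o) a0) (Int.mul A a1))
    (Int.mul B a2)) (Int.mul C a3)) (Int.mul D a4))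

/-- power tables: lists of `cos ^ i` (`i ≤ 7`) and `sin * cos ^ i` (`i ≤ 6`), scale `2 ^ 44` -/
def powTab (L o : ℕ) (Fs Gs : List ℤ) (k : List ℤ → List ℤ → Bool) : Bool :=
  match Fs, Gs with
  | [F7, F6, F5, F4, F3, F2, F1], [G7, G6, G5, G4, G3, G2, G1] =>
    seqI (comb L o 73786976294838206464 0 0 0 0 F1 F1 F1 F1) fun P0 =>
    seqI (comb L o 0 64 0 0 0 F1 F1 F1 F1) fun P1 =>
    seqI (comb L o 36893488147419103232 32 0 0 0 F2 F1 F1 F1) fun P2 =>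
    seqI (comb L o 0 48 16 0 0 F1 F3 F1 F1) fun P3 =>
    seqI (comb L o 27670116110564327424 32 8 0 0 F2 F4 F1 F1) fun P4 =>
    seqI (comb L o 0 40 20 4 0 F1 F3 F5 F1) fun P5 =>
    seqI (comb L o 23058430092136939520 30 12 2 0 F2 F4 F6 F1) fun P6 =>
    seqI (comb L o 0 35 21 7 1 F1 F3 F5 F7) fun P7 =>
    seqI (comb L o 0 64 0 0 0 G1 G1 G1 G1) fun Q0 =>
    seqI (comb L o 0 32 0 0 0 G2 G1 G1 G1) fun Q1 =>
    seqI (comb L o 0 16 16 0 0 G1 G3 G1 G1) fun Q2 =>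
    seqI (comb L o 0 16 8 0 0 G2 G4 G1 G1) fun Q3 =>
    seqI (comb L o 0 8 12 4 0 G1 G3 G5 G1) fun Q4 =>
    seqI (comb L o 0 10 8 2 0 G2 G4 G6 G1) fun Q5 =>
    seqI (comb L o 0 5 9 5 1 G1 G3 G5 G7) fun Q6 =>
    k [P0, P1, P2, P3, P4, P5, P6, P7] [Q0, Q1, Q2, Q3, Q4, Q5, Q6]
  | _, _ => false

theorem comb_LA {L n : ℕ} (hL : 125 ≤ L) {a0 a1 a2 a3 a4 A B C D : ℤ} {hA hB hC hD h : ℕ → ℝ}
    (HA : LA L n A hA 262144 (SC + 262144)) (HB : LA L n B hB 262144 (SC + 262144))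
    (HC : LA L n C hC 262144 (SC + 262144)) (HD : LA L n D hD 262144 (SC + 262144))
    (h1 : |a1| + |a2| + |a3| + |a4| ≤ 64) (h0 : |a0| ≤ 2 ^ 66)
    (hh : ∀ j < n, (a0:ℝ) + a1 * hA j + a2 * hB j + a3 * hC j + a4 * hD j = h j * 2 ^ 22) :
    LA L n (comb L (ones L n) a0 a1 a2 a3 a4 A B C D) h 5 (2 ^ 46) := by
  have H0 := (LA.ones L n).mul_const a0
  have H := (((H0.add (HA.mul_const a1)).add (HB.mul_const a2)).add (HC.mul_const a3)).add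
    (HD.mul_const a4)
  have hSC : (SC:ℤ) = 2 ^ 60 := by norm_num [SC]
  have h1' : |(a1:ℝ)| + |(a2:ℝ)| + |(a3:ℝ)| + |(a4:ℝ)| ≤ 64 := by exact_mod_cast h1
  have hM : |a0| * 1 + |a1| * (SC + 262144) + |a2| * (SC + 262144) + |a3| * (SC + 262144) +
      |a4| * (SC + 262144) ≤ 2 ^ 67 + 2 ^ 24 := by
    have e1 : |a1| * (SC + 262144) + |a2| * (SC + 262144) + |a3| * (SC + 262144) +
      |a4| * (SC + 262144) = (|a1| + |a2| + |a3| + |a4|) * (SC + 262144) := by ring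
    have e2 : (|a1| + |a2| + |a3| + |a4|) * ((SC:ℤ) + 262144) ≤ 64 * (SC + 262144) := by
      apply mul_le_mul_of_nonneg_right h1
      positivity
    rw [hSC] at e1 e2 ⊢
    have e3 : (64:ℤ) * (2 ^ 60 + 262144) = 2 ^ 66 + 2 ^ 24 := by norm_num
    have e4 : (2:ℤ) ^ 66 + 2 ^ 66 = 2 ^ 67 := by norm_num
    linarith
  have hpow : (2:ℤ) ^ 124 ≤ 2 ^ (L - 1) := pow_le_pow_right₀ (by norm_num) (by omega)
  have hlt : |a0| * 1 + |a1| * (SC + 262144) + |a2| * (SC + 262144) + |a3| * (SC + 262144) +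
      |a4| * (SC + 262144) < 2 ^ (L - 1) := by
    have : (2:ℤ) ^ 67 + 2 ^ 24 < 2 ^ 124 := by norm_num
    linarith
  have HD' := H.div (t := 22) (by omega) hlt (M' := 2 ^ 46) (by
    have e5 : (2:ℤ) ^ 67 + 2 ^ 24 + 2 ^ 22 ≤ 2 ^ 46 * 2 ^ 22 := by norm_num
    linarith)
  have HE : LA L n (comb L (ones L n) a0 a1 a2 a3 a4 A B C D) _ _ _ := HD'
  refine (HE.congr ?_).mono ?_ le_rfl
  · intro j hj
    have := hh j hj
    have e6 : (h j : ℝ) = h j * 2 ^ 22 / 2 ^ 22 := by field_simp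
    rw [e6, ← this]
    ring
  · have e7 : |(a0:ℝ)| * 0 + |(a1:ℝ)| * 262144 + |(a2:ℝ)| * 262144 + |(a3:ℝ)| * 262144 +
        |(a4:ℝ)| * 262144 ≤ 64 * 262144 := by nlinarith
    have e8 : (|(a0:ℝ)| * 0 + |(a1:ℝ)| * 262144 + |(a2:ℝ)| * 262144 + |(a3:ℝ)| * 262144 +
        |(a4:ℝ)| * 262144) / 2 ^ 22 ≤ 64 * 262144 / 2 ^ 22 :=
      div_le_div_of_nonneg_right e7 (by positivity)
    have e9 : (64:ℝ) * 262144 / 2 ^ 22 + 1 = 5 := by norm_num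
    linarith

/-- the real functions approximated by the tables -/
noncomputable def hcos (θ0 δ : ℝ) (i j : ℕ) : ℝ := 2 ^ 44 * Real.cos (θ0 + j * δ) ^ i
noncomputable def hsin (θ0 δ : ℝ) (i j : ℕ) : ℝ :=
  2 ^ 44 * (Real.sin (θ0 + j * δ) * Real.cos (θ0 + j * δ) ^ i)

theorem powTab_sound {L n : ℕ} (hL : 125 ≤ L) {θ0 δ : ℝ} {Fs Gs : List ℤ}
    (h : FL L n θ0 δ 7 Fs Gs) {k : List ℤ → List ℤ → Bool}
    (hk : powTab L (ones L n) Fs Gs k = true) :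
    ∃ Ps Qs, LAs L n 5 (2 ^ 46) Ps (hcos θ0 δ) ∧ LAs L n 5 (2 ^ 46) Qs (hsin θ0 δ) ∧
      Ps.length = 8 ∧ Qs.length = 7 ∧ k Ps Qs = true := by
  unfold powTab at hk
  split at hk
  · rename_i F7 F6 F5 F4 F3 F2 F1 G7 G6 G5 G4 G3 G2 G1
    simp only [seqI_eq] at hk
    obtain ⟨r7, r6, r5, r4, r3, r2, r1, -⟩ := h
    norm_num at r7 r6 r5 r4 r3 r2 r1
    have hS : (SC:ℝ) = 2 ^ 60 := by norm_num [SC]
    have c7 := r7.cosLA
    have c6 := r6.cosLA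
    have c5 := r5.cosLA
    have c4 := r4.cosLA
    have c3 := r3.cosLA
    have c2 := r2.cosLA
    have c1 := r1.cosLA
    have s7 := r7.sinLA
    have s6 := r6.sinLA
    have s5 := r5.sinLA
    have s4 := r4.sinLA
    have s3 := r3.sinLA
    have s2 := r2.sinLA
    have s1 := r1.sinLA
    have ang : ∀ (q : ℝ) (j : ℕ), q * θ0 + j * (q * δ) = q * (θ0 + j * δ) := by
      intro q j
      ring
    refine ⟨_, _, ?_, ?_, ?_, ?_, hk⟩
    · refine ⟨?_, ?_, ?_, ?_, ?_, ?_, ?_, ?_, trivial⟩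
      · exact comb_LA hL c1 c1 c1 c1 (by norm_num) (by norm_num) (fun j _ => by
        obtain ⟨⟨m2, n2⟩, ⟨m3, n3⟩, ⟨m4, n4⟩, ⟨m5, n5⟩, ⟨m6, n6⟩, ⟨m7, n7⟩⟩ :=
          multi_angle (θ0 + j * δ)
        simp only [hcos, ang, hS, m2, m3, m4, m5, m6, m7, n2, n3, n4, n5, n6, n7]
        push_cast
        ring)
      · exact comb_LA hL c1 c1 c1 c1 (by norm_num) (by norm_num) (fun j _ => by
        obtain ⟨⟨m2, n2⟩, ⟨m3, n3⟩, ⟨m4, n4⟩, ⟨m5, n5⟩, ⟨m6, n6⟩, ⟨m7, n7⟩⟩ :=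
          multi_angle (θ0 + j * δ)
        simp only [hcos, ang, hS, m2, m3, m4, m5, m6, m7, n2, n3, n4, n5, n6, n7]
        push_cast
        ring)
      · exact comb_LA hL c2 c1 c1 c1 (by norm_num) (by norm_num) (fun j _ => by
        obtain ⟨⟨m2, n2⟩, ⟨m3, n3⟩, ⟨m4, n4⟩, ⟨m5, n5⟩, ⟨m6, n6⟩, ⟨m7, n7⟩⟩ :=
          multi_angle (θ0 + j * δ)
        simp only [hcos, ang, hS, m2, m3, m4, m5, m6, m7, n2, n3, n4, n5, n6, n7]
        push_cast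
        ring)
      · exact comb_LA hL c1 c3 c1 c1 (by norm_num) (by norm_num) (fun j _ => by
        obtain ⟨⟨m2, n2⟩, ⟨m3, n3⟩, ⟨m4, n4⟩, ⟨m5, n5⟩, ⟨m6, n6⟩, ⟨m7, n7⟩⟩ :=
          multi_angle (θ0 + j * δ)
        simp only [hcos, ang, hS, m2, m3, m4, m5, m6, m7, n2, n3, n4, n5, n6, n7]
        push_cast
        ring)
      · exact comb_LA hL c2 c4 c1 c1 (by norm_num) (by norm_num) (fun j _ => by
        obtain ⟨⟨m2, n2⟩, ⟨m3, n3⟩, ⟨m4, n4⟩, ⟨m5, n5⟩, ⟨m6, n6⟩, ⟨m7, n7⟩⟩ :=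
          multi_angle (θ0 + j * δ)
        simp only [hcos, ang, hS, m2, m3, m4, m5, m6, m7, n2, n3, n4, n5, n6, n7]
        push_cast
        ring)
      · exact comb_LA hL c1 c3 c5 c1 (by norm_num) (by norm_num) (fun j _ => by
        obtain ⟨⟨m2, n2⟩, ⟨m3, n3⟩, ⟨m4, n4⟩, ⟨m5, n5⟩, ⟨m6, n6⟩, ⟨m7, n7⟩⟩ :=
          multi_angle (θ0 + j * δ)
        simp only [hcos, ang, hS, m2, m3, m4, m5, m6, m7, n2, n3, n4, n5, n6, n7]
        push_cast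
        ring)
      · exact comb_LA hL c2 c4 c6 c1 (by norm_num) (by norm_num) (fun j _ => by
        obtain ⟨⟨m2, n2⟩, ⟨m3, n3⟩, ⟨m4, n4⟩, ⟨m5, n5⟩, ⟨m6, n6⟩, ⟨m7, n7⟩⟩ :=
          multi_angle (θ0 + j * δ)
        simp only [hcos, ang, hS, m2, m3, m4, m5, m6, m7, n2, n3, n4, n5, n6, n7]
        push_cast
        ring)
      · exact comb_LA hL c1 c3 c5 c7 (by norm_num) (by norm_num) (fun j _ => by
        obtain ⟨⟨m2, n2⟩, ⟨m3, n3⟩, ⟨m4, n4⟩, ⟨m5, n5⟩, ⟨m6, n6⟩, ⟨m7, n7⟩⟩ :=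
          multi_angle (θ0 + j * δ)
        simp only [hcos, ang, hS, m2, m3, m4, m5, m6, m7, n2, n3, n4, n5, n6, n7]
        push_cast
        ring)
    · refine ⟨?_, ?_, ?_, ?_, ?_, ?_, ?_, trivial⟩
      · exact comb_LA hL s1 s1 s1 s1 (by norm_num) (by norm_num) (fun j _ => by
        obtain ⟨⟨m2, n2⟩, ⟨m3, n3⟩, ⟨m4, n4⟩, ⟨m5, n5⟩, ⟨m6, n6⟩, ⟨m7, n7⟩⟩ :=
          multi_angle (θ0 + j * δ)
        simp only [hsin, ang, hS, m2, m3, m4, m5, m6, m7, n2, n3, n4, n5, n6, n7]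
        push_cast
        ring)
      · exact comb_LA hL s2 s1 s1 s1 (by norm_num) (by norm_num) (fun j _ => by
        obtain ⟨⟨m2, n2⟩, ⟨m3, n3⟩, ⟨m4, n4⟩, ⟨m5, n5⟩, ⟨m6, n6⟩, ⟨m7, n7⟩⟩ :=
          multi_angle (θ0 + j * δ)
        simp only [hsin, ang, hS, m2, m3, m4, m5, m6, m7, n2, n3, n4, n5, n6, n7]
        push_cast
        ring)
      · exact comb_LA hL s1 s3 s1 s1 (by norm_num) (by norm_num) (fun j _ => by
        obtain ⟨⟨m2, n2⟩, ⟨m3, n3⟩, ⟨m4, n4⟩, ⟨m5, n5⟩, ⟨m6, n6⟩, ⟨m7, n7⟩⟩ :=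
          multi_angle (θ0 + j * δ)
        simp only [hsin, ang, hS, m2, m3, m4, m5, m6, m7, n2, n3, n4, n5, n6, n7]
        push_cast
        ring)
      · exact comb_LA hL s2 s4 s1 s1 (by norm_num) (by norm_num) (fun j _ => by
        obtain ⟨⟨m2, n2⟩, ⟨m3, n3⟩, ⟨m4, n4⟩, ⟨m5, n5⟩, ⟨m6, n6⟩, ⟨m7, n7⟩⟩ :=
          multi_angle (θ0 + j * δ)
        simp only [hsin, ang, hS, m2, m3, m4, m5, m6, m7, n2, n3, n4, n5, n6, n7]
        push_cast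
        ring)
      · exact comb_LA hL s1 s3 s5 s1 (by norm_num) (by norm_num) (fun j _ => by
        obtain ⟨⟨m2, n2⟩, ⟨m3, n3⟩, ⟨m4, n4⟩, ⟨m5, n5⟩, ⟨m6, n6⟩, ⟨m7, n7⟩⟩ :=
          multi_angle (θ0 + j * δ)
        simp only [hsin, ang, hS, m2, m3, m4, m5, m6, m7, n2, n3, n4, n5, n6, n7]
        push_cast
        ring)
      · exact comb_LA hL s2 s4 s6 s1 (by norm_num) (by norm_num) (fun j _ => by
        obtain ⟨⟨m2, n2⟩, ⟨m3, n3⟩, ⟨m4, n4⟩, ⟨m5, n5⟩, ⟨m6, n6⟩, ⟨m7, n7⟩⟩ :=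
          multi_angle (θ0 + j * δ)
        simp only [hsin, ang, hS, m2, m3, m4, m5, m6, m7, n2, n3, n4, n5, n6, n7]
        push_cast
        ring)
      · exact comb_LA hL s1 s3 s5 s7 (by norm_num) (by norm_num) (fun j _ => by
        obtain ⟨⟨m2, n2⟩, ⟨m3, n3⟩, ⟨m4, n4⟩, ⟨m5, n5⟩, ⟨m6, n6⟩, ⟨m7, n7⟩⟩ :=
          multi_angle (θ0 + j * δ)
        simp only [hsin, ang, hS, m2, m3, m4, m5, m6, m7, n2, n3, n4, n5, n6, n7]
        push_cast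
        ring)
    · rfl
    · rfl
  · exact absurd hk (by simp)

end Pool.Agent.H65.Shore
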