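import Mathlib
import Pool.Agent.H65.Shore.PowTab

/-!
Packed table of the tangent.
-/

set_option linter.unusedSimpArgs false

namespace Pool.Agent.H65.Shore

theorem tan_err {θ : ℝ} {c s e : ℕ} (h : TS θ c s e) (he : e ≤ 65536) (hc : SC ≤ 6 * c + 5) :
    |((s * 2 ^ 72 / c : ℕ) : ℝ) - 2 ^ 72 * Real.tan θ| ≤ 2 ^ 36 := by
  have hS : (SC:ℝ) = 2 ^ 60 := by norm_num [SC]
  have he' : (e:ℝ) ≤ 65536 := by exact_mod_cast he
  have hc' : (SC:ℝ) ≤ 6 * c + 5 := by exact_mod_cast hc
  have h1 := abs_le.mp h.hc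
  have h2 := abs_le.mp h.hs
  push_cast at h1 h2
  have hcpos : (2:ℝ) ^ 57 ≤ c := by
    have h0 : 1152921504606846976 ≤ 6 * c + 5 := hc
    have h1 : 144115188075855872 ≤ c := by omega
    have h2 : ((144115188075855872 : ℕ) : ℝ) ≤ c := by exact_mod_cast h1
    norm_num at h2 ⊢
    exact h2
  have hc0 : 0 < c := by
    rcases Nat.eq_zero_or_pos c with h | h
    · rw [h] at hcpos
      norm_num at hcpos
    · exact h
  have hcos : 1 / 8 ≤ Real.cos θ := by
    have : (SC:ℝ) * Real.cos θ ≥ c - 65536 := by linarith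
    rw [hS] at this hc'
    norm_num at this hc' ⊢
    linarith
  have hcos0 : 0 < Real.cos θ := by linarith
  have hcr : (0:ℝ) < c := by positivity
  have e1 : (s:ℝ) / c - Real.tan θ =
      (((s:ℝ) - SC * Real.sin θ) * Real.cos θ - ((c:ℝ) - SC * Real.cos θ) * Real.sin θ) /
        (c * Real.cos θ) := by
    rw [Real.tan_eq_sin_div_cos]
    field_simp
    ring
  have e2 : |(s:ℝ) / c - Real.tan θ| ≤ 2 * 65536 / (2 ^ 57 * (1 / 8)) := by
    rw [e1, abs_div, abs_of_pos (by positivity : 0 < (c:ℝ) * Real.cos θ)]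
    have a1 : |((s:ℝ) - SC * Real.sin θ) * Real.cos θ - ((c:ℝ) - SC * Real.cos θ) * Real.sin θ| ≤
        2 * 65536 := by
      have b1 := h.hc
      have b2 := h.hs
      push_cast at b1 b2
      have b3 := Real.abs_cos_le_one θ
      have b4 := Real.abs_sin_le_one θ
      have b5 : |((s:ℝ) - SC * Real.sin θ) * Real.cos θ| ≤ 65536 * 1 := by
        rw [abs_mul]
        exact mul_le_mul (b2.trans he') b3 (abs_nonneg _) (by norm_num)
      have b6 : |((c:ℝ) - SC * Real.cos θ) * Real.sin θ| ≤ 65536 * 1 := by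
        rw [abs_mul]
        exact mul_le_mul (b1.trans he') b4 (abs_nonneg _) (by norm_num)
      have b7 := abs_sub (((s:ℝ) - SC * Real.sin θ) * Real.cos θ)
        (((c:ℝ) - SC * Real.cos θ) * Real.sin θ)
      linarith
    gcongr
  have h3 : |((s * 2 ^ 72 / c : ℕ) : ℝ) - (s:ℝ) * 2 ^ 72 / c| ≤ 1 := by
    have h4 := ediv_err ((s * 2 ^ 72 : ℕ) : ℤ) hc0
    rw [← Int.natCast_div, Int.cast_natCast, Int.cast_natCast, Nat.cast_mul, Nat.cast_pow,
      Nat.cast_ofNat] at h4
    exact h4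
  have h4 : |(s:ℝ) * 2 ^ 72 / c - 2 ^ 72 * Real.tan θ| ≤ 2 ^ 72 * (2 * 65536 / (2 ^ 57 * (1 / 8))) := by
    have e3 : (s:ℝ) * 2 ^ 72 / c - 2 ^ 72 * Real.tan θ = 2 ^ 72 * ((s:ℝ) / c - Real.tan θ) := by
      ring
    rw [e3, abs_mul, abs_of_pos (by positivity : (0:ℝ) < 2 ^ 72)]
    gcongr
  have h5 := abs_sub_le ((s * 2 ^ 72 / c : ℕ) : ℝ) ((s:ℝ) * 2 ^ 72 / c) (2 ^ 72 * Real.tan θ)
  have h6 : (2:ℝ) ^ 72 * (2 * 65536 / (2 ^ 57 * (1 / 8))) + 1 ≤ 2 ^ 36 := by norm_num
  linarith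

def tanTab (L cd sd e0 : ℕ) : ℕ → ℕ → ℕ → ℕ → ℕ → ℕ → (ℕ → Bool) → Bool
  | 0, _, _, _, _, acc, k => k acc
  | Nat.succ n, c, s, e, p, acc, k =>
    andB (Nat.ble 1152921504606846976 (Nat.add (Nat.mul 6 c) 5)) (
    andB (Nat.ble e 65536) (
    andB (Nat.ble (Nat.mul s sd) (Nat.mul c cd)) (
    seqN (Nat.add acc (Nat.mul p (Nat.div (Nat.mul s 4722366482869645213696) c))) fun acc' =>
    seqN (Nat.mul p (Nat.pow 2 L)) fun p' =>
    seqN (Nat.div (Nat.sub (Nat.mul c cd) (Nat.mul s sd)) 1152921504606846976) fun c' =>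
    seqN (Nat.div (Nat.add (Nat.mul s cd) (Nat.mul c sd)) 1152921504606846976) fun s' =>
    seqN (rotE e e0) fun e' =>
    tanTab L cd sd e0 n c' s' e' p' acc' k)))

/-- approximation of the tangent table -/
def TanT (L n : ℕ) (δ : ℝ) (T : ℕ) : Prop :=
  ∃ t : ℕ → ℕ, T = packN L n t ∧ ∀ j < n, |(t j : ℝ) - 2 ^ 72 * Real.tan (j * δ)| ≤ 2 ^ 36 ∧
    t j < 2 ^ 76

theorem packN_snoc (L n : ℕ) (f : ℕ → ℕ) : packN L (n + 1) f = packN L n f + (2 ^ L) ^ n * f n := by
  rw [packN_eq_sum, packN_eq_sum, Finset.sum_range_succ]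
  ring

theorem tanTab_sound {L : ℕ} {δ : ℝ} {cd sd e0 : ℕ} (hd : TS δ cd sd e0) {k : ℕ → Bool} (n : ℕ) :
    ∀ {m c s e p acc : ℕ}, TS (m * δ) c s e → p = (2 ^ L) ^ m → TanT L m δ acc →
      tanTab L cd sd e0 n c s e p acc k = true →
      ∃ T, TanT L (m + n) δ T ∧ k T = true := by
  induction n with
  | zero =>
    intro m c s e p acc h1 h2 h3 h4
    exact ⟨acc, h3, h4⟩
  | succ n ih =>
    intro m c s e p acc h1 h2 h3 h4
    unfold tanTab at h4
    obtain ⟨a1, h4⟩ := andB_eq h4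
    obtain ⟨a2, h4⟩ := andB_eq h4
    obtain ⟨a3, h4⟩ := andB_eq h4
    simp only [seqN_eq] at h4
    have a1' : SC ≤ 6 * c + 5 := Nat.le_of_ble_eq_true a1
    have a2' : e ≤ 65536 := Nat.le_of_ble_eq_true a2
    have a3' : s * sd ≤ c * cd := Nat.le_of_ble_eq_true a3
    have hstep := h1.rot hd
    have e1 : (m:ℝ) * δ + δ = ((m + 1 : ℕ) : ℝ) * δ := by
      push_cast
      ring
    rw [e1] at hstep
    have e2 : rotC (c:ℤ) s cd sd =
        ((Nat.div (Nat.sub (Nat.mul c cd) (Nat.mul s sd)) 1152921504606846976 : ℕ) : ℤ) := by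
      show ((c:ℤ) * cd - s * sd) / 1152921504606846976 =
        (((c * cd - s * sd) / 1152921504606846976 : ℕ) : ℤ)
      push_cast [a3']
      rfl
    have e3 : rotS (c:ℤ) s cd sd =
        ((Nat.div (Nat.add (Nat.mul s cd) (Nat.mul c sd)) 1152921504606846976 : ℕ) : ℤ) := by
      show ((s:ℤ) * cd + c * sd) / 1152921504606846976 =
        (((s * cd + c * sd) / 1152921504606846976 : ℕ) : ℤ)
      push_cast
      rfl
    rw [e2, e3] at hstep
    obtain ⟨t, ht, htb⟩ := h3
    have herr := tan_err h1 a2' a1'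
    have hnew : TanT L (m + 1) δ (Nat.add acc (Nat.mul p (Nat.div (Nat.mul s 4722366482869645213696) c))) := by
      refine ⟨fun j => if j < m then t j else s * 2 ^ 72 / c, ?_, ?_⟩
      · rw [packN_snoc]
        show acc + p * (s * 4722366482869645213696 / c) = _
        have : packN L m (fun j => if j < m then t j else s * 2 ^ 72 / c) = packN L m t := by
          apply packN_congr
          intro j hj
          rw [if_pos hj]
        rw [this, ← ht, h2]
        simp
      · intro j hj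
        by_cases hjm : j < m
        · simp only [hjm, if_true]
          exact htb j hjm
        · have : j = m := by omega
          subst this
          simp only [lt_irrefl, if_false]
          refine ⟨herr, ?_⟩
          have hc0 : 0 < c := by
            have : SC = 1152921504606846976 := rfl
            omega
          rw [Nat.div_lt_iff_lt_mul hc0]
          have hs := h1.abs_le.2
          have hSC : (SC:ℤ) = 2 ^ 60 := by norm_num [SC]
          have hs' : (s:ℤ) ≤ 2 ^ 60 + 65536 := by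
            have b1 : ((s:ℤ)) ≤ |(s:ℤ)| := le_abs_self _
            have b2 : (e:ℤ) ≤ 65536 := by exact_mod_cast a2'
            rw [hSC] at hs
            linarith
          have hs2 : s ≤ 2 ^ 60 + 65536 := by exact_mod_cast hs'
          have hc2 : 2 ^ 60 ≤ 6 * c + 5 := by
            have : SC = 2 ^ 60 := by norm_num [SC]
            omega
          norm_num at hs2 hc2 ⊢
          omega
    have hp' : Nat.mul p (Nat.pow 2 L) = (2 ^ L) ^ (m + 1) := by
      show p * 2 ^ L = _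
      rw [h2, pow_succ]
    obtain ⟨T, hT, hk⟩ := ih hstep hp' hnew h4
    refine ⟨T, ?_, hk⟩
    have : m + (n + 1) = m + 1 + n := by ring
    rwa [this]

end Pool.Agent.H65.Shore
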