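import Mathlib
import Pool.Agent.H65.Shore.TanTab

/-!
Positive parts `max 0 (-w + d b_j + t c_j)` of all lanes.
-/

namespace Pool.Agent.H65.Shore

/-- offset lanes -/
def offs (M : ℕ) (o : ℕ) (P : ℤ) : ℕ := Int.toNat (Int.add P (Int.ofNat (Nat.mul M o)))

theorem offs_eq {L n : ℕ} {M : ℕ} {p : ℕ → ℤ} (h : ∀ j < n, |p j| ≤ M) :
    offs M (ones L n) (packZ L n p) = packN L n (fun j => (p j + M).toNat) := by
  unfold offs
  have e : Int.add (packZ L n p) (Int.ofNat (Nat.mul M (ones L n))) =
      packZ L n (fun j => p j + M) := by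
    rw [packZ_add, packZ_const]
    show packZ L n p + ((M * ones L n : ℕ) : ℤ) = _
    push_cast
    ring
  rw [e, packZ_toNat]
  intro j hj
  have := (abs_le.mp (h j hj)).1
  linarith

theorem packN_const (L n k : ℕ) : Nat.mul k (ones L n) = packN L n (fun _ => k) := by
  have h := packN_mul L n (fun _ => 1) k
  simp only [one_mul] at h
  rw [h, ones]
  show k * _ = _
  ring

theorem packN_sub {L n : ℕ} {f g : ℕ → ℕ} (h : ∀ j < n, g j ≤ f j) :
    Nat.sub (packN L n f) (packN L n g) = packN L n (fun j => f j - g j) := by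
  have h1 := packN_add L n (fun j => f j - g j) g
  have h2 : packN L n (fun j => f j - g j + g j) = packN L n f := by
    apply packN_congr
    intro j hj
    have := h j hj
    omega
  rw [h2] at h1
  show packN L n f - packN L n g = _
  omega

/-- both positive parts, `vr - r ≥ 0` -/
def posP (L o B C M w d t : ℕ) : ℕ :=
  Nat.add
    (posf L o (Nat.add (Nat.add (Nat.mul B d) (Nat.mul C t))
      (Nat.mul (Nat.sub (Nat.sub (Nat.pow 2 (Nat.sub L 1)) w) (Nat.mul (Nat.add d t) M)) o)))
    (posf L o (Nat.sub (Nat.add (Nat.mul B d)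
      (Nat.mul (Nat.sub (Nat.sub (Nat.add (Nat.pow 2 (Nat.sub L 1)) (Nat.mul t M)) w)
        (Nat.mul d M)) o)) (Nat.mul C t)))

/-- both positive parts, `vr - r ≤ 0`, `d = r - vr` -/
def posM (L o B C M w d t : ℕ) : ℕ :=
  Nat.add
    (posf L o (Nat.sub (Nat.add (Nat.mul C t)
      (Nat.mul (Nat.sub (Nat.sub (Nat.add (Nat.pow 2 (Nat.sub L 1)) (Nat.mul d M)) w)
        (Nat.mul t M)) o)) (Nat.mul B d)))
    (posf L o (Nat.sub (Nat.mul (Nat.sub (Nat.add (Nat.pow 2 (Nat.sub L 1))
      (Nat.mul (Nat.add d t) M)) w) o) (Nat.add (Nat.mul B d) (Nat.mul C t))))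

/-- the integer lane values -/
def gz (w : ℕ) (d : ℤ) (t : ℕ) (b c : ℤ) : ℕ :=
  (-(w:ℤ) + d * b + t * c).toNat + (-(w:ℤ) + d * b - t * c).toNat

theorem posP_eq {L n : ℕ} (hL : 0 < L) {M w d t : ℕ} {b c : ℕ → ℤ}
    (hb : ∀ j < n, |b j| ≤ M) (hc : ∀ j < n, |c j| ≤ M)
    (hM : 2 * ((d + t) * M) + w < 2 ^ (L - 1)) :
    posP L (ones L n) (packN L n (fun j => (b j + M).toNat)) (packN L n (fun j => (c j + M).toNat))
      M w d t = packN L n (fun j => gz w d t (b j) (c j)) := by
  have h2L : 2 ^ L = 2 * 2 ^ (L - 1) := by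
    conv_lhs => rw [← Nat.sub_add_cancel hL]
    rw [pow_succ]
    ring
  have hB : ∀ j < n, (((b j + M).toNat : ℕ) : ℤ) = b j + M ∧ (b j + M).toNat ≤ 2 * M := by
    intro j hj
    have := abs_le.mp (hb j hj)
    have h1 : 0 ≤ b j + M := by linarith
    refine ⟨Int.toNat_of_nonneg h1, ?_⟩
    zify
    rw [Int.toNat_of_nonneg h1]
    linarith
  have hC : ∀ j < n, (((c j + M).toNat : ℕ) : ℤ) = c j + M ∧ (c j + M).toNat ≤ 2 * M := by
    intro j hj
    have := abs_le.mp (hc j hj)
    have h1 : 0 ≤ c j + M := by linarith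
    refine ⟨Int.toNat_of_nonneg h1, ?_⟩
    zify
    rw [Int.toNat_of_nonneg h1]
    linarith
  have hdM : d * M + t * M = (d + t) * M := by ring
  unfold posP
  rw [packN_const, packN_const]
  set H := 2 ^ (L - 1) with hH
  have z1 : Nat.add (Nat.add (Nat.mul (packN L n fun j => (b j + M).toNat) d)
      (Nat.mul (packN L n fun j => (c j + M).toNat) t))
      (packN L n fun _ => Nat.sub (Nat.sub (Nat.pow 2 (Nat.sub L 1)) w) (Nat.mul (Nat.add d t) M)) =
      packN L n (fun j => (b j + M).toNat * d + (c j + M).toNat * t + (H - w - (d + t) * M)) := by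
    rw [packN_add, packN_add, packN_mul, packN_mul]
    rfl
  have z2 : Nat.sub (Nat.add (Nat.mul (packN L n fun j => (b j + M).toNat) d)
      (packN L n fun _ => Nat.sub (Nat.sub (Nat.add (Nat.pow 2 (Nat.sub L 1)) (Nat.mul t M)) w)
        (Nat.mul d M))) (Nat.mul (packN L n fun j => (c j + M).toNat) t) =
      packN L n (fun j => ((b j + M).toNat * d + (H + t * M - w - d * M)) -
        (c j + M).toNat * t) := by
    rw [← packN_sub]
    · rw [packN_add, packN_mul, packN_mul]
      rfl
    · intro j hj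
      have h1 := (hC j hj).2
      have h2 : (c j + M).toNat * t ≤ 2 * M * t := Nat.mul_le_mul_right _ h1
      have h3 : 2 * M * t = 2 * (t * M) := by ring
      omega
  rw [z1, z2, posf_eq hL, posf_eq hL]
  · show packN L n _ + packN L n _ = _
    rw [← packN_add]
    apply packN_congr
    intro j hj
    obtain ⟨b1, b2⟩ := hB j hj
    obtain ⟨c1, c2⟩ := hC j hj
    set x := (b j + M).toNat with hx
    set y := (c j + M).toNat with hy
    have hbx : b j = (x:ℤ) - M := by linarith
    have hcy : c j = (y:ℤ) - M := by linarith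
    unfold gz
    have e1 : -(w:ℤ) + d * b j + t * c j = ((x * d + y * t + (H - w - (d + t) * M) : ℕ) : ℤ) - H := by
      have h4 : w + (d + t) * M ≤ H := by omega
      have h5 : ((H - w - (d + t) * M : ℕ) : ℤ) = (H:ℤ) - w - (d + t) * M := by
        have : H - w - (d + t) * M = H - (w + (d + t) * M) := by omega
        rw [this, Nat.cast_sub h4]
        push_cast
        ring
      rw [Nat.cast_add, h5, hbx, hcy]
      push_cast
      ring
    have e2 : -(w:ℤ) + d * b j - t * c j =
        (((x * d + (H + t * M - w - d * M)) - y * t : ℕ) : ℤ) - H := by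
      have h4 : w + d * M ≤ H + t * M := by omega
      have h5 : ((H + t * M - w - d * M : ℕ) : ℤ) = (H:ℤ) + t * M - w - d * M := by
        have : H + t * M - w - d * M = H + t * M - (w + d * M) := by omega
        rw [this, Nat.cast_sub h4]
        push_cast
        ring
      have h6 : y * t ≤ x * d + (H + t * M - w - d * M) := by
        have h2 : y * t ≤ 2 * M * t := Nat.mul_le_mul_right _ c2
        have h3 : 2 * M * t = 2 * (t * M) := by ring
        omega
      rw [Nat.cast_sub h6, Nat.cast_add, h5, hbx, hcy]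
      push_cast
      ring
    rw [e1, e2]
    omega
  · intro j hj
    obtain ⟨b1, b2⟩ := hB j hj
    obtain ⟨c1, c2⟩ := hC j hj
    set x := (b j + M).toNat with hx
    set y := (c j + M).toNat with hy
    have h2 : x * d ≤ 2 * M * d := Nat.mul_le_mul_right _ b2
    have h3 : 2 * M * d = 2 * (d * M) := by ring
    rw [h2L]
    omega
  · intro j hj
    obtain ⟨b1, b2⟩ := hB j hj
    obtain ⟨c1, c2⟩ := hC j hj
    set x := (b j + M).toNat with hx
    set y := (c j + M).toNat with hy
    have h2 : x * d ≤ 2 * M * d := Nat.mul_le_mul_right _ b2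
    have h3 : 2 * M * d = 2 * (d * M) := by ring
    have h4 : y * t ≤ 2 * M * t := Nat.mul_le_mul_right _ c2
    have h5 : 2 * M * t = 2 * (t * M) := by ring
    rw [h2L]
    omega

theorem posM_eq {L n : ℕ} (hL : 0 < L) {M w d t : ℕ} {b c : ℕ → ℤ}
    (hb : ∀ j < n, |b j| ≤ M) (hc : ∀ j < n, |c j| ≤ M)
    (hM : 2 * ((d + t) * M) + w < 2 ^ (L - 1)) :
    posM L (ones L n) (packN L n (fun j => (b j + M).toNat)) (packN L n (fun j => (c j + M).toNat))
      M w d t = packN L n (fun j => gz w (-(d:ℤ)) t (b j) (c j)) := by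
  have h2L : 2 ^ L = 2 * 2 ^ (L - 1) := by
    conv_lhs => rw [← Nat.sub_add_cancel hL]
    rw [pow_succ]
    ring
  have hB : ∀ j < n, (((b j + M).toNat : ℕ) : ℤ) = b j + M ∧ (b j + M).toNat ≤ 2 * M := by
    intro j hj
    have := abs_le.mp (hb j hj)
    have h1 : 0 ≤ b j + M := by linarith
    refine ⟨Int.toNat_of_nonneg h1, ?_⟩
    zify
    rw [Int.toNat_of_nonneg h1]
    linarith
  have hC : ∀ j < n, (((c j + M).toNat : ℕ) : ℤ) = c j + M ∧ (c j + M).toNat ≤ 2 * M := by
    intro j hj
    have := abs_le.mp (hc j hj)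
    have h1 : 0 ≤ c j + M := by linarith
    refine ⟨Int.toNat_of_nonneg h1, ?_⟩
    zify
    rw [Int.toNat_of_nonneg h1]
    linarith
  have hdM : d * M + t * M = (d + t) * M := by ring
  unfold posM
  rw [packN_const, packN_const]
  set H := 2 ^ (L - 1) with hH
  have z1 : Nat.sub (Nat.add (Nat.mul (packN L n fun j => (c j + M).toNat) t)
      (packN L n fun _ => Nat.sub (Nat.sub (Nat.add (Nat.pow 2 (Nat.sub L 1)) (Nat.mul d M)) w)
        (Nat.mul t M))) (Nat.mul (packN L n fun j => (b j + M).toNat) d) =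
      packN L n (fun j => ((c j + M).toNat * t + (H + d * M - w - t * M)) -
        (b j + M).toNat * d) := by
    rw [← packN_sub]
    · rw [packN_add, packN_mul, packN_mul]
      rfl
    · intro j hj
      have h1 := (hB j hj).2
      have h2 : (b j + M).toNat * d ≤ 2 * M * d := Nat.mul_le_mul_right _ h1
      have h3 : 2 * M * d = 2 * (d * M) := by ring
      omega
  have z2 : Nat.sub (packN L n fun _ => Nat.sub (Nat.add (Nat.pow 2 (Nat.sub L 1))
      (Nat.mul (Nat.add d t) M)) w) (Nat.add (Nat.mul (packN L n fun j => (b j + M).toNat) d)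
      (Nat.mul (packN L n fun j => (c j + M).toNat) t)) =
      packN L n (fun j => (H + (d + t) * M - w) - ((b j + M).toNat * d +
        (c j + M).toNat * t)) := by
    rw [← packN_sub]
    · rw [packN_add, packN_mul, packN_mul]
      rfl
    · intro j hj
      have h1 := (hB j hj).2
      have h2 : (b j + M).toNat * d ≤ 2 * M * d := Nat.mul_le_mul_right _ h1
      have h3 : 2 * M * d = 2 * (d * M) := by ring
      have h1' := (hC j hj).2
      have h2' : (c j + M).toNat * t ≤ 2 * M * t := Nat.mul_le_mul_right _ h1'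
      have h3' : 2 * M * t = 2 * (t * M) := by ring
      omega
  rw [z1, z2, posf_eq hL, posf_eq hL]
  · show packN L n _ + packN L n _ = _
    rw [← packN_add]
    apply packN_congr
    intro j hj
    obtain ⟨b1, b2⟩ := hB j hj
    obtain ⟨c1, c2⟩ := hC j hj
    set x := (b j + M).toNat with hx
    set y := (c j + M).toNat with hy
    have hbx : b j = (x:ℤ) - M := by linarith
    have hcy : c j = (y:ℤ) - M := by linarith
    unfold gz
    have e1 : -(w:ℤ) + -(d:ℤ) * b j + t * c j =
        (((y * t + (H + d * M - w - t * M)) - x * d : ℕ) : ℤ) - H := by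
      have h4 : w + t * M ≤ H + d * M := by omega
      have h5 : ((H + d * M - w - t * M : ℕ) : ℤ) = (H:ℤ) + d * M - w - t * M := by
        have : H + d * M - w - t * M = H + d * M - (w + t * M) := by omega
        rw [this, Nat.cast_sub h4]
        push_cast
        ring
      have h6 : x * d ≤ y * t + (H + d * M - w - t * M) := by
        have h2 : x * d ≤ 2 * M * d := Nat.mul_le_mul_right _ b2
        have h3 : 2 * M * d = 2 * (d * M) := by ring
        omega
      rw [Nat.cast_sub h6, Nat.cast_add, h5, hbx, hcy]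
      push_cast
      ring
    have e2 : -(w:ℤ) + -(d:ℤ) * b j - t * c j =
        (((H + (d + t) * M - w) - (x * d + y * t) : ℕ) : ℤ) - H := by
      have h4 : w ≤ H + (d + t) * M := by omega
      have h6 : x * d + y * t ≤ H + (d + t) * M - w := by
        have h2 : y * t ≤ 2 * M * t := Nat.mul_le_mul_right _ c2
        have h3 : 2 * M * t = 2 * (t * M) := by ring
        have h2' : x * d ≤ 2 * M * d := Nat.mul_le_mul_right _ b2
        have h3' : 2 * M * d = 2 * (d * M) := by ring
        omega
      rw [Nat.cast_sub h6, Nat.cast_sub h4, hbx, hcy]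
      push_cast
      ring
    rw [e1, e2]
    omega
  · intro j hj
    rw [h2L]
    have h4 : 2 * M * d = 2 * (d * M) := by ring
    omega
  · intro j hj
    obtain ⟨c1, c2⟩ := hC j hj
    set y := (c j + M).toNat with hy
    have h4 : y * t ≤ 2 * M * t := Nat.mul_le_mul_right _ c2
    have h5 : 2 * M * t = 2 * (t * M) := by ring
    rw [h2L]
    omega

theorem gz_le {M w t D : ℕ} {d b c : ℤ} (hb : |b| ≤ M) (hc : |c| ≤ M) (hd : |d| ≤ D) :
    gz w d t b c ≤ 2 * ((D + t) * M) := by
  have h1 : |d * b| ≤ D * M := by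
    rw [abs_mul]
    exact mul_le_mul hd hb (abs_nonneg _) (by positivity)
  have h2 : |(t:ℤ) * c| ≤ t * M := by
    rw [abs_mul, abs_of_nonneg (by positivity : (0:ℤ) ≤ t)]
    exact mul_le_mul_of_nonneg_left hc (by positivity)
  have h1' := abs_le.mp h1
  have h2' := abs_le.mp h2
  unfold gz
  have h3 : ((D + t) * M : ℕ) = D * M + t * M := by ring
  have h4 : ((D * M : ℕ) : ℤ) = (D:ℤ) * M := by push_cast; ring
  have h5 : ((t * M : ℕ) : ℤ) = (t:ℤ) * M := by push_cast; ring
  rw [h3]
  omega

end Pool.Agent.H65.Shore
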