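import Mathlib
import Pool.Agent.H65.Shore.Vertex
import Pool.Agent.H44.Shore.Grid

/-!
Quadrature sums from packed lanes.
-/

namespace Pool.Agent.H65.Shore

open Pool.Agent.H44.Shore

theorem sum_Icc_split (A : ℕ → ℝ) {a b : ℕ} (hab : a < b) :
    ∑ j ∈ Finset.Icc a b, A j = A a + ∑ j ∈ Finset.range (b - a - 1), A (j + (a + 1)) + A b := by
  obtain ⟨k, rfl⟩ : ∃ k, b = a + 1 + k := ⟨b - a - 1, by omega⟩
  have h1 : Finset.Icc a (a + 1 + k) = Finset.Ico a (a + 1 + k + 1) := by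
    ext x
    simp only [Finset.mem_Icc, Finset.mem_Ico]
    omega
  rw [h1, Finset.sum_Ico_succ_top (by omega), Finset.sum_eq_sum_Ico_succ_bot (by omega)]
  congr 2
  rw [Finset.sum_Ico_eq_sum_range]
  have h2 : a + 1 + k - (a + 1) = k := by omega
  have h3 : a + 1 + k - a - 1 = k := by omega
  rw [h2, h3]
  apply Finset.sum_congr rfl
  intro j _
  congr 1
  omega

theorem TT_split (A : ℕ → ℝ) (δ : ℝ) {a b : ℕ} (hab : a < b) (w : ℝ) :
    TT A δ a b w = δ * ∑ j ∈ Finset.range (b - a - 1), A (j + (a + 1)) + δ / 2 * A a +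
      (δ / 2 + w - w ^ 2 / (2 * δ)) * A b + w ^ 2 / (2 * δ) * A (b + 1) := by
  unfold TT
  rw [sum_Icc_split A hab]
  ring

/-- the weights of the last two nodes are nonnegative -/
theorem TT_mono {A A' : ℕ → ℝ} {δ : ℝ} (hδ : 0 < δ) {a b : ℕ} (hab : a < b) {w : ℝ}
    (hw0 : 0 ≤ w) (hw1 : w ≤ δ) (h : ∀ j, a ≤ j → j ≤ b + 1 → A j ≤ A' j) :
    TT A δ a b w ≤ TT A' δ a b w := by
  rw [TT_split A δ hab, TT_split A' δ hab]
  have h1 : ∑ j ∈ Finset.range (b - a - 1), A (j + (a + 1)) ≤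
      ∑ j ∈ Finset.range (b - a - 1), A' (j + (a + 1)) := by
    apply Finset.sum_le_sum
    intro j hj
    have := Finset.mem_range.mp hj
    exact h _ (by omega) (by omega)
  have h2 := h a (by omega) (by omega)
  have h3 := h b (by omega) (by omega)
  have h4 := h (b + 1) (by omega) (by omega)
  have h5 : 0 ≤ δ / 2 + w - w ^ 2 / (2 * δ) := by
    have : w ^ 2 / (2 * δ) ≤ w := by
      rw [div_le_iff₀ (by positivity)]
      nlinarith
    linarith
  have h6 : 0 ≤ w ^ 2 / (2 * δ) := by positivity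
  gcongr

theorem TT_add_const (A : ℕ → ℝ) {δ : ℝ} (hδ : 0 < δ) {a b : ℕ} (hab : a < b) (w c : ℝ) :
    TT (fun j => A j + c) δ a b w = TT A δ a b w + c * ((b - a) * δ + w) := by
  rw [TT_split _ δ hab, TT_split A δ hab, Finset.sum_add_distrib]
  simp only [Finset.sum_const, Finset.card_range, nsmul_eq_mul]
  have h1 : ((b - a - 1 : ℕ) : ℝ) = b - a - 1 := by
    have : b - a - 1 = b - (a + 1) := by omega
    rw [this, Nat.cast_sub (by omega)]
    push_cast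
    ring
  rw [h1]
  ring

theorem TT_smul (A : ℕ → ℝ) (δ : ℝ) {a b : ℕ} (hab : a < b) (w k : ℝ) :
    TT (fun j => k * A j) δ a b w = k * TT A δ a b w := by
  rw [TT_split _ δ hab, TT_split A δ hab, ← Finset.mul_sum]
  ring

/-- the integer quadrature sum; `dn = 2 ^ 30 δ`, `wn = 2 ^ 30 w`, indices relative to the table -/
def tsum (L X dn wn a b : ℕ) : ℕ :=
  Nat.add (Nat.add (Nat.mul (Nat.mul 2 dn) (lsum L X (Nat.succ a) (Nat.sub (Nat.sub b a) 1)))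
    (Nat.mul dn (lget L X a)))
    (Nat.add (Nat.mul (Nat.sub (Nat.add dn (Nat.mul 2 wn)) (Nat.div (Nat.mul wn wn) dn)) (lget L X b))
      (Nat.mul (Nat.succ (Nat.div (Nat.mul wn wn) dn)) (lget L X (Nat.succ b))))

theorem tsum_bound {L n : ℕ} {f : ℕ → ℕ} (hf : ∀ j < n, f j < 2 ^ L) {dn wn a b j0 : ℕ}
    (hdn : 0 < dn) (hwn : wn ≤ dn) (hab : a < b) (hbn : b + 1 < n)
    (hs : ∑ j ∈ Finset.range (b - a - 1), f (j + (a + 1)) < 2 ^ L - 1)
    {A : ℕ → ℝ} (hA : ∀ j, a ≤ j → j ≤ b + 1 → A (j0 + j) ≤ f j) :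
    TT A ((dn:ℝ) / 2 ^ 30) (j0 + a) (j0 + b) ((wn:ℝ) / 2 ^ 30) ≤
      (tsum L (packN L n f) dn wn a b : ℝ) / 2 ^ 31 := by
  have hdn' : (0:ℝ) < dn := by exact_mod_cast hdn
  have hwn' : (wn:ℝ) ≤ dn := by exact_mod_cast hwn
  have h0 : (0:ℝ) ≤ wn := Nat.cast_nonneg _
  have e1 := lsum_eq hf (a := a + 1) (m := b - a - 1) (by omega) hs
  have e2 := lget_eq hf (a := a) (by omega)
  have e3 := lget_eq hf (a := b) (by omega)
  have e4 := lget_eq hf (a := b + 1) (by omega)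
  have hq1 : ((wn * wn / dn : ℕ) : ℝ) ≤ (wn:ℝ) ^ 2 / dn := by
    have := @Nat.cast_div_le ℝ _ _ _ (wn * wn) dn
    push_cast at this
    rw [sq]
    exact this
  have hq2 : (wn:ℝ) ^ 2 / dn ≤ ((wn * wn / dn : ℕ) : ℝ) + 1 := by
    have h1 := Nat.lt_div_mul_add (a := wn * wn) hdn
    have h2 : ((wn * wn : ℕ) : ℝ) < ((wn * wn / dn * dn + dn : ℕ) : ℝ) := by exact_mod_cast h1
    push_cast at h2
    rw [div_le_iff₀ hdn', sq]
    nlinarith
  have hq3 : wn * wn / dn ≤ dn + 2 * wn := by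
    have h1 : wn * wn / dn ≤ wn := by
      calc wn * wn / dn ≤ dn * wn / dn := Nat.div_le_div_right (Nat.mul_le_mul_right _ hwn)
        _ = wn := Nat.mul_div_cancel_left _ hdn
    omega
  have e5 : (tsum L (packN L n f) dn wn a b : ℝ) =
      2 * dn * ∑ j ∈ Finset.range (b - a - 1), (f (j + (a + 1)) : ℝ) + dn * f a +
      ((dn + 2 * wn - ((wn * wn / dn : ℕ) : ℝ)) * f b +
        (((wn * wn / dn : ℕ) : ℝ) + 1) * f (b + 1)) := by
    have : tsum L (packN L n f) dn wn a b =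
        2 * dn * (lsum L (packN L n f) (a + 1) (b - a - 1)) + dn * lget L (packN L n f) a +
        ((dn + 2 * wn - wn * wn / dn) * lget L (packN L n f) b +
          (wn * wn / dn + 1) * lget L (packN L n f) (b + 1)) := rfl
    rw [this, e1, e2, e3, e4]
    push_cast [hq3]
    ring
  rw [TT_split _ _ (by omega : j0 + a < j0 + b), e5]
  have hsum : ∑ j ∈ Finset.range (j0 + b - (j0 + a) - 1), A (j + (j0 + a + 1)) ≤
      ∑ j ∈ Finset.range (b - a - 1), (f (j + (a + 1)) : ℝ) := by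
    have h1 : j0 + b - (j0 + a) - 1 = b - a - 1 := by omega
    rw [h1]
    apply Finset.sum_le_sum
    intro j hj
    have := Finset.mem_range.mp hj
    have h2 := hA (j + (a + 1)) (by omega) (by omega)
    have h3 : j0 + (j + (a + 1)) = j + (j0 + a + 1) := by omega
    rwa [h3] at h2
  have ha := hA a le_rfl (by omega)
  have hb := hA b (by omega) (by omega)
  have hb1 := hA (b + 1) (by omega) le_rfl
  have hb1' : A (j0 + b + 1) ≤ f (b + 1) := hb1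
  have w1 : ((wn:ℝ) / 2 ^ 30) ^ 2 / (2 * ((dn:ℝ) / 2 ^ 30)) = (wn:ℝ) ^ 2 / dn / 2 ^ 31 := by
    field_simp
  rw [w1]
  have fb0 : (0:ℝ) ≤ f b := Nat.cast_nonneg _
  have fb1 : (0:ℝ) ≤ f (b + 1) := Nat.cast_nonneg _
  have t1 : (dn:ℝ) / 2 ^ 30 * ∑ j ∈ Finset.range (j0 + b - (j0 + a) - 1), A (j + (j0 + a + 1)) ≤
      (dn:ℝ) / 2 ^ 30 * ∑ j ∈ Finset.range (b - a - 1), (f (j + (a + 1)) : ℝ) := by gcongr
  have t2 : (dn:ℝ) / 2 ^ 30 / 2 * A (j0 + a) ≤ (dn:ℝ) / 2 ^ 30 / 2 * f a := by gcongr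
  have hwb : 0 ≤ (dn:ℝ) / 2 ^ 30 / 2 + wn / 2 ^ 30 - (wn:ℝ) ^ 2 / dn / 2 ^ 31 := by
    have h1 : (wn:ℝ) ^ 2 / dn ≤ wn := by
      rw [div_le_iff₀ hdn']
      nlinarith
    have h2 : (wn:ℝ) ^ 2 / dn / 2 ^ 31 ≤ wn / 2 ^ 31 := by gcongr
    have h3 : (wn:ℝ) / 2 ^ 31 ≤ wn / 2 ^ 30 := by
      gcongr
      all_goals norm_num
    have h4 : 0 ≤ (dn:ℝ) / 2 ^ 30 / 2 := by positivity
    linarith
  have t3 : ((dn:ℝ) / 2 ^ 30 / 2 + wn / 2 ^ 30 - (wn:ℝ) ^ 2 / dn / 2 ^ 31) * A (j0 + b) ≤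
      ((dn:ℝ) + 2 * wn - ((wn * wn / dn : ℕ) : ℝ)) / 2 ^ 31 * f b := by
    calc ((dn:ℝ) / 2 ^ 30 / 2 + wn / 2 ^ 30 - (wn:ℝ) ^ 2 / dn / 2 ^ 31) * A (j0 + b)
        ≤ ((dn:ℝ) / 2 ^ 30 / 2 + wn / 2 ^ 30 - (wn:ℝ) ^ 2 / dn / 2 ^ 31) * f b := by gcongr
      _ ≤ ((dn:ℝ) + 2 * wn - ((wn * wn / dn : ℕ) : ℝ)) / 2 ^ 31 * f b := by
        gcongr
        rw [le_div_iff₀ (by positivity)]
        have : ((dn:ℝ) / 2 ^ 30 / 2 + wn / 2 ^ 30 - (wn:ℝ) ^ 2 / dn / 2 ^ 31) * 2 ^ 31 =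
            dn + 2 * wn - (wn:ℝ) ^ 2 / dn := by
          ring
        rw [this]
        linarith
  have t4 : (wn:ℝ) ^ 2 / dn / 2 ^ 31 * A (j0 + b + 1) ≤
      (((wn * wn / dn : ℕ) : ℝ) + 1) / 2 ^ 31 * f (b + 1) := by
    calc (wn:ℝ) ^ 2 / dn / 2 ^ 31 * A (j0 + b + 1) ≤ (wn:ℝ) ^ 2 / dn / 2 ^ 31 * f (b + 1) := by
          gcongr
      _ ≤ (((wn * wn / dn : ℕ) : ℝ) + 1) / 2 ^ 31 * f (b + 1) := by gcongr
  have hfin : (2 * (dn:ℝ) * ∑ j ∈ Finset.range (b - a - 1), (f (j + (a + 1)) : ℝ) + dn * f a +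
      ((dn + 2 * wn - ((wn * wn / dn : ℕ) : ℝ)) * f b +
        (((wn * wn / dn : ℕ) : ℝ) + 1) * f (b + 1))) / 2 ^ 31 =
      (dn:ℝ) / 2 ^ 30 * ∑ j ∈ Finset.range (b - a - 1), (f (j + (a + 1)) : ℝ) +
      (dn:ℝ) / 2 ^ 30 / 2 * f a +
      ((dn:ℝ) + 2 * wn - ((wn * wn / dn : ℕ) : ℝ)) / 2 ^ 31 * f b +
      (((wn * wn / dn : ℕ) : ℝ) + 1) / 2 ^ 31 * f (b + 1) := by
    ring
  rw [hfin]
  linarith

/-! ### the left region -/

/-- lanes of the left region; `w = 2 ^ 72 |vr|` in table units, `t` the tangential velocity -/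
def hlane (neg : Bool) (w t T : ℕ) : ℕ :=
  match neg with
  | false => t * T - w
  | true => (w + t * T) + (w - t * T)

def hV (L o T : ℕ) (neg : Bool) (w t : ℕ) : ℕ :=
  match neg with
  | false => posf L o (Nat.add (Nat.mul T t)
      (Nat.mul (Nat.sub (Nat.pow 2 (Nat.sub L 1)) w) o))
  | true => Nat.add (Nat.add (Nat.mul T t) (Nat.mul w o))
      (posf L o (Nat.sub (Nat.mul (Nat.add (Nat.pow 2 (Nat.sub L 1)) w) o) (Nat.mul T t)))

theorem hV_eq {L n : ℕ} (hL : 0 < L) {f : ℕ → ℕ} {w t M : ℕ} (hf : ∀ j < n, f j ≤ M) (neg : Bool)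
    (hM : M * t + w < 2 ^ (L - 1)) :
    hV L (ones L n) (packN L n f) neg w t = packN L n (fun j => hlane neg w t (f j)) := by
  have h2L : 2 ^ L = 2 * 2 ^ (L - 1) := by
    conv_lhs => rw [← Nat.sub_add_cancel hL]
    rw [pow_succ]
    ring
  have hft : ∀ j < n, f j * t ≤ M * t := fun j hj => Nat.mul_le_mul_right _ (hf j hj)
  cases neg with
  | false =>
    unfold hV
    rw [packN_const]
    have z1 : Nat.add (Nat.mul (packN L n f) t) (packN L n fun _ =>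
        Nat.sub (Nat.pow 2 (Nat.sub L 1)) w) = packN L n (fun j => f j * t + (2 ^ (L - 1) - w)) := by
      rw [packN_add, packN_mul]
      rfl
    rw [z1, posf_eq hL]
    · apply packN_congr
      intro j hj
      have := hft j hj
      simp only [hlane]
      rw [mul_comm t]
      omega
    · intro j hj
      have := hft j hj
      omega
  | true =>
    unfold hV
    rw [packN_const L n w, packN_const L n (Nat.add (Nat.pow 2 (Nat.sub L 1)) w)]
    have z1 : Nat.add (Nat.mul (packN L n f) t) (packN L n fun _ => w) =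
        packN L n (fun j => f j * t + w) := by
      rw [packN_add, packN_mul]
      rfl
    have z2 : Nat.sub (packN L n fun _ => Nat.add (Nat.pow 2 (Nat.sub L 1)) w)
        (Nat.mul (packN L n f) t) = packN L n (fun j => (2 ^ (L - 1) + w) - f j * t) := by
      rw [← packN_sub]
      · rw [packN_mul]
        rfl
      · intro j hj
        have := hft j hj
        omega
    rw [z1, z2, posf_eq hL]
    · show packN L n _ + packN L n _ = _
      rw [← packN_add]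
      apply packN_congr
      intro j hj
      have := hft j hj
      simp only [hlane]
      rw [mul_comm t]
      omega
    · intro j hj
      have := hft j hj
      omega

def hsum (L X dn a : ℕ) : ℕ :=
  match a with
  | 0 => 0
  | Nat.succ a => Nat.add (Nat.mul (Nat.mul 2 dn) (lsum L X 1 a))
    (Nat.mul dn (Nat.add (lget L X 0) (lget L X (Nat.succ a))))

theorem hsum_bound {L n : ℕ} {f : ℕ → ℕ} (hf : ∀ j < n, f j < 2 ^ L) {dn a : ℕ} (ha : a < n)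
    (hs : ∑ j ∈ Finset.range (a - 1), f (j + 1) < 2 ^ L - 1) {A : ℕ → ℝ}
    (hA : ∀ j, j ≤ a → A j ≤ f j) :
    (dn:ℝ) / 2 ^ 30 * (∑ j ∈ Finset.range (a + 1), A j - (A 0 + A a) / 2) ≤
      (hsum L (packN L n f) dn a : ℝ) / 2 ^ 31 := by
  cases a with
  | zero =>
    simp [hsum]
  | succ a =>
    have e1 := lsum_eq hf (a := 1) (m := a) (by omega) hs
    have e2 := lget_eq hf (a := 0) (by omega)
    have e3 := lget_eq hf (a := a + 1) (by omega)
    have e4 : (hsum L (packN L n f) dn (a + 1) : ℝ) =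
        2 * dn * ∑ j ∈ Finset.range a, (f (j + 1) : ℝ) + dn * (f 0 + f (a + 1)) := by
      have : hsum L (packN L n f) dn (a + 1) = 2 * dn * lsum L (packN L n f) 1 a +
        dn * (lget L (packN L n f) 0 + lget L (packN L n f) (a + 1)) := rfl
      rw [this, e1, e2, e3]
      push_cast
      ring
    rw [e4, Finset.sum_range_succ, Finset.sum_range_succ']
    have h1 : ∑ j ∈ Finset.range a, A (j + 1) ≤ ∑ j ∈ Finset.range a, (f (j + 1) : ℝ) := by
      apply Finset.sum_le_sum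
      intro j hj
      have := Finset.mem_range.mp hj
      exact hA _ (by omega)
    have h2 := hA 0 (by omega)
    have h3 := hA (a + 1) le_rfl
    have e5 : (2 * (dn:ℝ) * ∑ j ∈ Finset.range a, (f (j + 1) : ℝ) + dn * (f 0 + f (a + 1))) / 2 ^ 31 =
        (dn:ℝ) / 2 ^ 30 * (∑ j ∈ Finset.range a, (f (j + 1) : ℝ) + (f 0 + f (a + 1)) / 2) := by
      ring
    rw [e5]
    gcongr
    linarith

/-- comparison of the lane with the real function -/
theorem hL_lane {vr vt θ : ℝ} {neg : Bool} {vn t T w : ℕ}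
    (hvr : vr = (if neg then -1 else 1) * (vn / 2 ^ 20))
    (hvt : vt = t / 2 ^ 20) (ht : t ≤ 2 ^ 21) (hw : (w:ℝ) = vn * 2 ^ 72) (hθ0 : 0 ≤ Real.tan θ)
    (hT : |(T:ℝ) - 2 ^ 72 * Real.tan θ| ≤ 2 ^ 36) :
    2 ^ 92 * hL vr vt θ ≤ (hlane neg w t T : ℝ) + 2 ^ 58 := by
  have ht' : (t:ℝ) ≤ 2 ^ 21 := by exact_mod_cast ht
  have ht0 : (0:ℝ) ≤ t := Nat.cast_nonneg _
  have hvn0 : (0:ℝ) ≤ vn := Nat.cast_nonneg _
  have hw0 : (0:ℝ) ≤ w := Nat.cast_nonneg _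
  have hT' := abs_le.mp hT
  have h1 : (t:ℝ) * (2 ^ 72 * Real.tan θ) ≤ t * T + 2 ^ 57 := by
    have : (t:ℝ) * (2 ^ 72 * Real.tan θ) ≤ t * (T + 2 ^ 36) := by
      gcongr
      linarith
    have h2 : (t:ℝ) * 2 ^ 36 ≤ 2 ^ 21 * 2 ^ 36 := by gcongr
    have h3 : (2:ℝ) ^ 21 * 2 ^ 36 = 2 ^ 57 := by norm_num
    linarith
  have h1' : (t:ℝ) * T ≤ t * (2 ^ 72 * Real.tan θ) + 2 ^ 57 := by
    have : (t:ℝ) * T ≤ t * (2 ^ 72 * Real.tan θ + 2 ^ 36) := by
      gcongr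
      linarith
    have h2 : (t:ℝ) * 2 ^ 36 ≤ 2 ^ 21 * 2 ^ 36 := by gcongr
    have h3 : (2:ℝ) ^ 21 * 2 ^ 36 = 2 ^ 57 := by norm_num
    linarith
  unfold hL
  rw [mul_add, mul_max_of_nonneg _ _ (by positivity), mul_max_of_nonneg _ _ (by positivity), mul_zero]
  have e1 : (2:ℝ) ^ 92 * (-vr + vt * Real.tan θ) = -(2 ^ 92 * vr) + t * (2 ^ 72 * Real.tan θ) := by
    rw [hvt]
    ring
  have e2 : (2:ℝ) ^ 92 * (-vr - vt * Real.tan θ) = -(2 ^ 92 * vr) - t * (2 ^ 72 * Real.tan θ) := by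
    rw [hvt]
    ring
  rw [e1, e2]
  have h8 : (2:ℝ) ^ 57 + 2 ^ 57 = 2 ^ 58 := by norm_num
  have h9 : (0:ℝ) ≤ 2 ^ 57 := by positivity
  have hq : 0 ≤ (t:ℝ) * (2 ^ 72 * Real.tan θ) := mul_nonneg ht0 (mul_nonneg (by norm_num) hθ0)
  cases neg with
  | false =>
    have e3 : (2:ℝ) ^ 92 * vr = w := by
      rw [hvr, hw]
      simp only [Bool.false_eq_true, if_false]
      ring
    rw [e3]
    simp only [hlane]
    have h4 : (t:ℝ) * T - w ≤ ((t * T - w : ℕ) : ℝ) := by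
      have h5 : t * T ≤ (t * T - w) + w := by omega
      have h6 : ((t * T : ℕ) : ℝ) ≤ (((t * T - w) + w : ℕ) : ℝ) := by
        exact_mod_cast h5
      push_cast at h6
      linarith
    have h5 : (0:ℝ) ≤ ((t * T - w : ℕ) : ℝ) := Nat.cast_nonneg _
    have h6 : max 0 (-(w:ℝ) + t * (2 ^ 72 * Real.tan θ)) ≤
        ((t * T - w : ℕ) : ℝ) + 2 ^ 57 := by
      apply max_le
      · positivity
      · linarith
    have h7 : max 0 (-(w:ℝ) - t * (2 ^ 72 * Real.tan θ)) ≤ 0 := by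
      apply max_le le_rfl
      linarith
    linarith
  | true =>
    have e3 : (2:ℝ) ^ 92 * vr = -w := by
      rw [hvr, hw]
      simp only [if_true]
      ring
    rw [e3, neg_neg]
    simp only [hlane]
    have h4 : (w:ℝ) - t * T ≤ ((w - t * T : ℕ) : ℝ) := by
      have h5 : w ≤ (w - t * T) + t * T := by omega
      have h6 : ((w : ℕ) : ℝ) ≤ (((w - t * T) + t * T : ℕ) : ℝ) := by
        exact_mod_cast h5
      push_cast at h6
      linarith
    have h5 : (0:ℝ) ≤ ((w - t * T : ℕ) : ℝ) := Nat.cast_nonneg _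
    have h5' : (0:ℝ) ≤ (t:ℝ) * T := by positivity
    have h6 : max 0 ((w:ℝ) + t * (2 ^ 72 * Real.tan θ)) ≤ (w:ℝ) + (t:ℝ) * (T:ℝ) + 2 ^ 57 := by
      apply max_le
      · linarith
      · linarith
    have h7 : max 0 ((w:ℝ) - t * (2 ^ 72 * Real.tan θ)) ≤
        ((w - t * T : ℕ) : ℝ) + 2 ^ 57 := by
      apply max_le
      · linarith
      · linarith
    rw [Nat.cast_add, Nat.cast_add, Nat.cast_mul]
    linarith

end Pool.Agent.H65.Shore
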