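import Mathlib
import Pool.Agent.H65.Shore.Quad
import Pool.Agent.H44.Shore.Mb

/-!
The strip integrand as a trigonometric polynomial, and integer approximations of its coefficients.
-/

set_option linter.unusedSimpArgs false

namespace Pool.Agent.H65.Shore

open Pool.Agent.H44.Shore Pool.Agent.H44.Shore.MBC

noncomputable def em (D : Dat) (w : ℝ) (m : ℕ) : ℝ :=
  cf D 0 m + w ^ 2 * cf D 2 m + w ^ 3 * cf D 3 m + w ^ 4 * cf D 4 m

noncomputable def fm (D : Dat) (w : ℝ) (m : ℕ) : ℝ :=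
  2 * w * cf D 2 m + 3 * w ^ 2 * cf D 3 m + 4 * w ^ 3 * cf D 4 m

theorem bx_sum {D : Dat} (hD : Deg D) (x w : ℝ) :
    D.bx x w = ∑ m ∈ Finset.range 8, (m:ℝ) * x ^ (m - 1) * em D w m := by
  rw [Dat.bx_eq, bd_sum hD 1 0 (by norm_num)]
  have h0 := cf_zero hD (k := 0) (m := 8) (Or.inr le_rfl)
  have h2 := cf_zero hD (k := 2) (m := 8) (Or.inr le_rfl)
  have h3 := cf_zero hD (k := 3) (m := 8) (Or.inr le_rfl)
  have h4 := cf_zero hD (k := 4) (m := 8) (Or.inr le_rfl)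
  have h1 : ∀ m, cf D 1 m = 0 := fun _ => rfl
  simp only [Finset.sum_range_succ, Finset.sum_range_zero, em, Nat.descFactorial, add_zero,
    zero_add, h0, h2, h3, h4, h1, Nat.reduceAdd, Nat.reduceSub]
  norm_num
  ring

theorem bw_sum {D : Dat} (hD : Deg D) (x w : ℝ) :
    D.bw x w = ∑ m ∈ Finset.range 8, x ^ m * fm D w m := by
  rw [Dat.bw_eq, bd_sum hD 0 1 (by norm_num)]
  have h5 : ∀ m, cf D 5 m = 0 := fun m => cf_zero hD (Or.inl le_rfl)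
  have h1 : ∀ m, cf D 1 m = 0 := fun _ => rfl
  simp only [Finset.sum_range_succ, Finset.sum_range_zero, fm, Nat.descFactorial, add_zero,
    zero_add, h5, h1, Nat.reduceAdd, Nat.reduceSub]
  norm_num
  ring

/-- coefficient of `vr - r` in the integrand -/
noncomputable def Bf (D : Dat) (r θ : ℝ) : ℝ :=
  Real.cos θ * D.bx (-(r * Real.cos θ)) (D.W r) +
    2 * r / D.rB ^ 2 * D.bw (-(r * Real.cos θ)) (D.W r)

/-- coefficient of the tangential velocity in the integrand -/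
noncomputable def Cf (D : Dat) (r θ : ℝ) : ℝ :=
  -(Real.sin θ * D.bx (-(r * Real.cos θ)) (D.W r))

theorem gs_eq (D : Dat) (r vr vt θ : ℝ) :
    D.gs r vr vt (Real.cos θ) (Real.sin θ) = -1 + (vr - r) * Bf D r θ + vt * Cf D r θ := by
  unfold Dat.gs Bf Cf
  ring

/-- the coefficients -/
noncomputable def um (D : Dat) (r w : ℝ) (m : ℕ) : ℝ := (m:ℝ) * (-r) ^ (m - 1) * em D w m
noncomputable def vm (D : Dat) (r w q : ℝ) (m : ℕ) : ℝ := q * (-r) ^ m * fm D w m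

theorem Bf_sum {D : Dat} (hD : Deg D) (r θ : ℝ) :
    Bf D r θ = ∑ m ∈ Finset.range 8, (um D r (D.W r) m + vm D r (D.W r) (2 * r / D.rB ^ 2) m) *
      Real.cos θ ^ m := by
  unfold Bf
  rw [bx_sum hD, bw_sum hD, Finset.mul_sum, Finset.mul_sum, ← Finset.sum_add_distrib]
  apply Finset.sum_congr rfl
  intro m _
  unfold um vm
  have e1 : (-(r * Real.cos θ)) ^ m = (-r) ^ m * Real.cos θ ^ m := by
    rw [← mul_pow]
    ring
  rw [e1]
  rcases Nat.eq_zero_or_pos m with h | h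
  · subst h
    simp
  · have e2 : (-(r * Real.cos θ)) ^ (m - 1) * Real.cos θ = (-r) ^ (m - 1) * Real.cos θ ^ m := by
      have h3 : m = (m - 1) + 1 := by omega
      conv_rhs => rw [h3, pow_succ, Nat.add_sub_cancel]
      rw [show -(r * Real.cos θ) = (-r) * Real.cos θ by ring, mul_pow]
      ring
    linear_combination ((m:ℝ) * em D (D.W r) m) * e2

theorem Cf_sum {D : Dat} (hD : Deg D) (r θ : ℝ) :
    Cf D r θ = ∑ m ∈ Finset.range 7, (-um D r (D.W r) (m + 1)) *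
      (Real.sin θ * Real.cos θ ^ m) := by
  unfold Cf
  rw [bx_sum hD, Finset.sum_range_succ']
  simp only [Nat.cast_zero, zero_mul, add_zero, Nat.add_sub_cancel]
  rw [Finset.mul_sum, ← Finset.sum_neg_distrib]
  apply Finset.sum_congr rfl
  intro m _
  unfold um
  have e1 : (-(r * Real.cos θ)) ^ m = (-r) ^ m * Real.cos θ ^ m := by
    rw [← mul_pow]
    ring
  rw [e1, Nat.add_sub_cancel]
  ring

/-! ### integer versions -/

def ipow (x : ℤ) : ℕ → ℤ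
  | 0 => 1
  | Nat.succ n => Int.mul (ipow x n) x

theorem ipow_eq (x : ℤ) (n : ℕ) : ipow x n = x ^ n := by
  induction n with
  | zero => simp [ipow]
  | succ n ih =>
    rw [pow_succ, ← ih]
    rfl

/-- numerator of `em` over `2 ^ C * Wd ^ 4` -/
def emz (L : List (List ℤ)) (Wn Wd : ℤ) (m : ℕ) : ℤ :=
  Int.add (Int.mul (gc L 0 m) (ipow Wd 4)) (Int.mul (Int.mul Wn Wn)
    (Int.add (Int.mul (gc L 2 m) (Int.mul Wd Wd)) (Int.mul Wn
      (Int.add (Int.mul (gc L 3 m) Wd) (Int.mul (gc L 4 m) Wn)))))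

/-- numerator of `fm` over `2 ^ C * Wd ^ 3` -/
def fmz (L : List (List ℤ)) (Wn Wd : ℤ) (m : ℕ) : ℤ :=
  Int.mul Wn (Int.add (Int.mul (Int.mul 2 (gc L 2 m)) (Int.mul Wd Wd)) (Int.mul Wn
    (Int.add (Int.mul (Int.mul 3 (gc L 3 m)) Wd) (Int.mul (Int.mul 4 (gc L 4 m)) Wn))))

def umz (L : List (List ℤ)) (C rn : ℕ) (Wn Wd : ℤ) : ℕ → ℤ
  | 0 => 0
  | Nat.succ m => Int.ediv (Int.mul (Int.mul (Int.mul 268435456 (Int.ofNat (Nat.succ m)))
      (ipow (Int.neg (Int.ofNat rn)) m)) (emz L Wn Wd (Nat.succ m)))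
      (Int.ofNat (Nat.mul (Nat.pow 2 (Nat.add (Nat.mul 20 m) C)) (Nat.pow (Int.toNat Wd) 4)))

/-- `on / od = 1 / rB ^ 2` -/
def vmz (L : List (List ℤ)) (C on od rn : ℕ) (Wn Wd : ℤ) (m : ℕ) : ℤ :=
  Int.ediv (Int.mul (Int.mul (Int.mul 536870912 (Int.ofNat (Nat.mul on rn)))
      (ipow (Int.neg (Int.ofNat rn)) m)) (fmz L Wn Wd m))
      (Int.ofNat (Nat.mul (Nat.mul od (Nat.pow 2 (Nat.add (Nat.mul 20 (Nat.succ m)) C)))
        (Nat.pow (Int.toNat Wd) 3)))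

theorem emz_eq (L : List (List ℤ)) {Wn Wd : ℤ} (C m : ℕ) (hWd : 0 < Wd) :
    (emz L Wn Wd m : ℝ) / (2 ^ C * (Wd:ℝ) ^ 4) =
      (gc L 0 m : ℝ) / 2 ^ C + ((Wn:ℝ) / Wd) ^ 2 * ((gc L 2 m : ℝ) / 2 ^ C) +
      ((Wn:ℝ) / Wd) ^ 3 * ((gc L 3 m : ℝ) / 2 ^ C) + ((Wn:ℝ) / Wd) ^ 4 * ((gc L 4 m : ℝ) / 2 ^ C) := by
  have h : (Wd:ℝ) ≠ 0 := by exact_mod_cast hWd.ne'
  have e : emz L Wn Wd m = gc L 0 m * Wd ^ 4 + Wn * Wn * (gc L 2 m * (Wd * Wd) + Wn *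
      (gc L 3 m * Wd + gc L 4 m * Wn)) := by
    show gc L 0 m * ipow Wd 4 + _ = _
    rw [ipow_eq]
    rfl
  rw [e]
  push_cast
  field_simp
  ring

theorem fmz_eq (L : List (List ℤ)) {Wn Wd : ℤ} (C m : ℕ) (hWd : 0 < Wd) :
    (fmz L Wn Wd m : ℝ) / (2 ^ C * (Wd:ℝ) ^ 3) =
      2 * ((Wn:ℝ) / Wd) * ((gc L 2 m : ℝ) / 2 ^ C) +
      3 * ((Wn:ℝ) / Wd) ^ 2 * ((gc L 3 m : ℝ) / 2 ^ C) +
      4 * ((Wn:ℝ) / Wd) ^ 3 * ((gc L 4 m : ℝ) / 2 ^ C) := by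
  have h : (Wd:ℝ) ≠ 0 := by exact_mod_cast hWd.ne'
  have e : fmz L Wn Wd m = Wn * (2 * gc L 2 m * (Wd * Wd) + Wn *
      (3 * gc L 3 m * Wd + 4 * gc L 4 m * Wn)) := rfl
  rw [e]
  push_cast
  field_simp
  ring

end Pool.Agent.H65.Shore
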