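import Mathlib
import Pool.Agent.H65.Shore.RowCoef

/-!
Error bounds for the integer coefficients of a row.
-/

namespace Pool.Agent.H65.Shore

open Pool.Agent.H44.Shore Pool.Agent.H44.Shore.MBC

/-- the coefficient sum of the approximation -/
noncomputable def emq (L : List (List ℤ)) (C : ℕ) (w : ℝ) (m : ℕ) : ℝ :=
  (gc L 0 m : ℝ) / 2 ^ C + w ^ 2 * ((gc L 2 m : ℝ) / 2 ^ C) +
      w ^ 3 * ((gc L 3 m : ℝ) / 2 ^ C) + w ^ 4 * ((gc L 4 m : ℝ) / 2 ^ C)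

noncomputable def fmq (L : List (List ℤ)) (C : ℕ) (w : ℝ) (m : ℕ) : ℝ :=
  2 * w * ((gc L 2 m : ℝ) / 2 ^ C) + 3 * w ^ 2 * ((gc L 3 m : ℝ) / 2 ^ C) +
      4 * w ^ 3 * ((gc L 4 m : ℝ) / 2 ^ C)

theorem emq_err {D : Dat} {L : List (List ℤ)} {C : ℕ} {eps w : ℝ} (hA : Apx D L C eps)
    (hw0 : 0 ≤ w) (hw1 : w ≤ 1) (m : ℕ) : |emq L C w m - em D w m| ≤ 4 * eps := by
  have h0 := hA.all 0 m
  have h2 := hA.all 2 m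
  have h3 := hA.all 3 m
  have h4 := hA.all 4 m
  have e0 := hA.eps0
  have w2 : w ^ 2 ≤ 1 := pow_le_one₀ hw0 hw1
  have w3 : w ^ 3 ≤ 1 := pow_le_one₀ hw0 hw1
  have w4 : w ^ 4 ≤ 1 := pow_le_one₀ hw0 hw1
  have k2 : |w ^ 2 * (cf D 2 m - (gc L 2 m : ℝ) / 2 ^ C)| ≤ eps := by
    rw [abs_mul, abs_of_nonneg (by positivity : (0:ℝ) ≤ w ^ 2)]
    nlinarith [abs_nonneg (cf D 2 m - (gc L 2 m : ℝ) / 2 ^ C)]
  have k3 : |w ^ 3 * (cf D 3 m - (gc L 3 m : ℝ) / 2 ^ C)| ≤ eps := by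
    rw [abs_mul, abs_of_nonneg (by positivity : (0:ℝ) ≤ w ^ 3)]
    nlinarith [abs_nonneg (cf D 3 m - (gc L 3 m : ℝ) / 2 ^ C)]
  have k4 : |w ^ 4 * (cf D 4 m - (gc L 4 m : ℝ) / 2 ^ C)| ≤ eps := by
    rw [abs_mul, abs_of_nonneg (by positivity : (0:ℝ) ≤ w ^ 4)]
    nlinarith [abs_nonneg (cf D 4 m - (gc L 4 m : ℝ) / 2 ^ C)]
  unfold emq em
  rw [abs_le] at *
  obtain ⟨a0, b0⟩ := h0
  obtain ⟨a2, b2⟩ := k2
  obtain ⟨a3, b3⟩ := k3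
  obtain ⟨a4, b4⟩ := k4
  constructor <;> linarith

theorem fmq_err {D : Dat} {L : List (List ℤ)} {C : ℕ} {eps w : ℝ} (hA : Apx D L C eps)
    (hw0 : 0 ≤ w) (hw1 : w ≤ 1) (m : ℕ) : |fmq L C w m - fm D w m| ≤ 9 * eps := by
  have h2 := hA.all 2 m
  have h3 := hA.all 3 m
  have h4 := hA.all 4 m
  have e0 := hA.eps0
  have w2 : w ^ 2 ≤ 1 := pow_le_one₀ hw0 hw1
  have w3 : w ^ 3 ≤ 1 := pow_le_one₀ hw0 hw1
  have k2 : |w * (cf D 2 m - (gc L 2 m : ℝ) / 2 ^ C)| ≤ eps := by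
    rw [abs_mul, abs_of_nonneg hw0]
    nlinarith [abs_nonneg (cf D 2 m - (gc L 2 m : ℝ) / 2 ^ C)]
  have k3 : |w ^ 2 * (cf D 3 m - (gc L 3 m : ℝ) / 2 ^ C)| ≤ eps := by
    rw [abs_mul, abs_of_nonneg (by positivity : (0:ℝ) ≤ w ^ 2)]
    nlinarith [abs_nonneg (cf D 3 m - (gc L 3 m : ℝ) / 2 ^ C)]
  have k4 : |w ^ 3 * (cf D 4 m - (gc L 4 m : ℝ) / 2 ^ C)| ≤ eps := by
    rw [abs_mul, abs_of_nonneg (by positivity : (0:ℝ) ≤ w ^ 3)]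
    nlinarith [abs_nonneg (cf D 4 m - (gc L 4 m : ℝ) / 2 ^ C)]
  unfold fmq fm
  rw [abs_le] at *
  obtain ⟨a2, b2⟩ := k2
  obtain ⟨a3, b3⟩ := k3
  obtain ⟨a4, b4⟩ := k4
  constructor <;> linarith

theorem umz_err {D : Dat} {L : List (List ℤ)} {C : ℕ} {eps : ℝ} (hA : Apx D L C eps)
    (heps : eps ≤ 1 / 2 ^ 36) {rn : ℕ} (hrn : rn ≤ 2 ^ 20) {Wn Wd : ℤ} (hWn : 0 ≤ Wn)
    (hWd : 0 < Wd) (hW : Wn ≤ Wd) {m : ℕ} (hm : m < 8) :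
    |(umz L C rn Wn Wd m : ℝ) - 2 ^ 28 * um D ((rn:ℝ) / 2 ^ 20) ((Wn:ℝ) / Wd) m| ≤ 9 / 8 := by
  cases m with
  | zero =>
    simp [umz, um]
    norm_num
  | succ m =>
    have hWdR : (0:ℝ) < Wd := by exact_mod_cast hWd
    have hWnR : (0:ℝ) ≤ Wn := by exact_mod_cast hWn
    have hw0 : 0 ≤ (Wn:ℝ) / Wd := div_nonneg hWnR hWdR.le
    have hw1 : (Wn:ℝ) / Wd ≤ 1 := by
      rw [div_le_one hWdR]
      exact_mod_cast hW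
    obtain ⟨wd, rfl⟩ : ∃ wd : ℕ, Wd = wd := ⟨Wd.toNat, by omega⟩
    have hwd : 0 < wd := by exact_mod_cast hWd
    have e1 : umz L C rn Wn (wd:ℤ) (m + 1) = (268435456 * ((m + 1 : ℕ) : ℤ) *
        (-(rn:ℤ)) ^ m * emz L Wn wd (m + 1)) / ((2 ^ (20 * m + C) * wd ^ 4 : ℕ) : ℤ) := by
      show Int.ediv (Int.mul (Int.mul (Int.mul 268435456 (Int.ofNat (Nat.succ m)))
        (ipow (Int.neg (Int.ofNat rn)) m)) (emz L Wn wd (Nat.succ m))) _ = _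
      rw [ipow_eq]
      rfl
    have h1 := ediv_err (268435456 * ((m + 1 : ℕ) : ℤ) *
        (-(rn:ℤ)) ^ m * emz L Wn wd (m + 1)) (b := 2 ^ (20 * m + C) * wd ^ 4) (by positivity)
    rw [← e1] at h1
    have e2 := emz_eq L (Wn := Wn) C (m + 1) hWd
    have e3 : ((268435456 * ((m + 1 : ℕ) : ℤ) * (-(rn:ℤ)) ^ m * emz L Wn wd (m + 1) : ℤ) : ℝ) /
        ((2 ^ (20 * m + C) * wd ^ 4 : ℕ) : ℝ) =
        2 ^ 28 * (((m + 1 : ℕ) : ℝ) * (-((rn:ℝ) / 2 ^ 20)) ^ m * emq L C ((Wn:ℝ) / wd) (m + 1)) := by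
      unfold emq
      have hq : ((wd:ℤ):ℝ) = (wd:ℝ) := by push_cast; rfl
      rw [hq] at e2
      rw [← e2]
      have hne : (wd:ℝ) ≠ 0 := by positivity
      have e4 : (-((rn:ℝ) / 2 ^ 20)) ^ m = (-(rn:ℝ)) ^ m / 2 ^ (20 * m) := by
        rw [← neg_div, div_pow, ← pow_mul]
      rw [e4]
      push_cast
      rw [pow_add]
      field_simp
      norm_num
      ring
    rw [e3] at h1
    have hq : ((wd:ℤ):ℝ) = (wd:ℝ) := by push_cast; rfl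
    rw [hq] at hw0 hw1
    have h2 := emq_err hA hw0 hw1 (m + 1)
    have hr0 : (0:ℝ) ≤ (rn:ℝ) / 2 ^ 20 := by positivity
    have hr1 : (rn:ℝ) / 2 ^ 20 ≤ 1 := by
      rw [div_le_one (by positivity)]
      exact_mod_cast hrn
    have h3 : |(((m + 1 : ℕ) : ℝ) * (-((rn:ℝ) / 2 ^ 20)) ^ m * emq L C ((Wn:ℝ) / wd) (m + 1)) -
        um D ((rn:ℝ) / 2 ^ 20) ((Wn:ℝ) / wd) (m + 1)| ≤ 28 * (1 / 2 ^ 36) := by
      unfold um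
      rw [Nat.add_sub_cancel, ← mul_sub, abs_mul, abs_mul, abs_pow, abs_neg, abs_of_nonneg hr0]
      have a1 : ((rn:ℝ) / 2 ^ 20) ^ m ≤ 1 := pow_le_one₀ hr0 hr1
      have a2 : |((m + 1 : ℕ) : ℝ)| ≤ 7 := by
        rw [abs_of_nonneg (by positivity)]
        have : m + 1 ≤ 7 := by omega
        exact_mod_cast this
      have a3 : |((m + 1 : ℕ) : ℝ)| * ((rn:ℝ) / 2 ^ 20) ^ m ≤ 7 * 1 :=
        mul_le_mul a2 a1 (by positivity) (by norm_num)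
      calc _ ≤ 7 * 1 * (4 * (1 / 2 ^ 36)) := mul_le_mul a3 (h2.trans (by linarith))
            (abs_nonneg _) (by norm_num)
        _ = 28 * (1 / 2 ^ 36) := by ring
    rw [hq]
    have h4 := abs_sub_le ((umz L C rn Wn (wd:ℤ) (m + 1) : ℤ) : ℝ) (2 ^ 28 *
      (((m + 1 : ℕ) : ℝ) * (-((rn:ℝ) / 2 ^ 20)) ^ m * emq L C ((Wn:ℝ) / wd) (m + 1)))
      (2 ^ 28 * um D ((rn:ℝ) / 2 ^ 20) ((Wn:ℝ) / wd) (m + 1))
    rw [← mul_sub, abs_mul, abs_of_pos (by positivity : (0:ℝ) < 2 ^ 28)] at h4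
    have h5 : (2:ℝ) ^ 28 * (28 * (1 / 2 ^ 36)) ≤ 1 / 8 := by norm_num
    have h6 := mul_le_mul_of_nonneg_left h3 (by positivity : (0:ℝ) ≤ 2 ^ 28)
    linarith

theorem vmz_err {D : Dat} {L : List (List ℤ)} {C : ℕ} {eps : ℝ} (hA : Apx D L C eps)
    (heps : eps ≤ 1 / 2 ^ 36) {on od rn : ℕ} (hod : 0 < od) (hon : on ≤ 12 * od)
    (hrn : rn ≤ 2 ^ 20) {Wn Wd : ℤ}
    (hWn : 0 ≤ Wn) (hWd : 0 < Wd) (hW : Wn ≤ Wd) (m : ℕ) :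
    |(vmz L C on od rn Wn Wd m : ℝ) - 2 ^ 28 * vm D ((rn:ℝ) / 2 ^ 20) ((Wn:ℝ) / Wd)
      (2 * ((rn:ℝ) / 2 ^ 20) * ((on:ℝ) / od)) m| ≤ 15 / 8 := by
  have hWdR : (0:ℝ) < Wd := by exact_mod_cast hWd
  have hWnR : (0:ℝ) ≤ Wn := by exact_mod_cast hWn
  have hw0 : 0 ≤ (Wn:ℝ) / Wd := div_nonneg hWnR hWdR.le
  have hw1 : (Wn:ℝ) / Wd ≤ 1 := by
    rw [div_le_one hWdR]
    exact_mod_cast hW
  obtain ⟨wd, rfl⟩ : ∃ wd : ℕ, Wd = wd := ⟨Wd.toNat, by omega⟩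
  have hwd : 0 < wd := by exact_mod_cast hWd
  have hodR : (0:ℝ) < od := by exact_mod_cast hod
  have e1 : vmz L C on od rn Wn (wd:ℤ) m = (536870912 * ((on * rn : ℕ) : ℤ) *
      (-(rn:ℤ)) ^ m * fmz L Wn wd m) / ((od * 2 ^ (20 * (m + 1) + C) * wd ^ 3 : ℕ) : ℤ) := by
    show Int.ediv (Int.mul (Int.mul (Int.mul 536870912 (Int.ofNat (Nat.mul on rn)))
      (ipow (Int.neg (Int.ofNat rn)) m)) (fmz L Wn wd m)) _ = _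
    rw [ipow_eq]
    rfl
  have h1 := ediv_err (536870912 * ((on * rn : ℕ) : ℤ) *
      (-(rn:ℤ)) ^ m * fmz L Wn wd m) (b := od * 2 ^ (20 * (m + 1) + C) * wd ^ 3) (by positivity)
  rw [← e1] at h1
  have e2 := fmz_eq L (Wn := Wn) C m hWd
  have e3 : ((536870912 * ((on * rn : ℕ) : ℤ) * (-(rn:ℤ)) ^ m * fmz L Wn wd m : ℤ) : ℝ) /
      ((od * 2 ^ (20 * (m + 1) + C) * wd ^ 3 : ℕ) : ℝ) =
      2 ^ 28 * (2 * ((rn:ℝ) / 2 ^ 20) * ((on:ℝ) / od) * (-((rn:ℝ) / 2 ^ 20)) ^ m *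
        fmq L C ((Wn:ℝ) / wd) m) := by
    unfold fmq
    have hq : ((wd:ℤ):ℝ) = (wd:ℝ) := by push_cast; rfl
    rw [hq] at e2
    rw [← e2]
    have hne : (wd:ℝ) ≠ 0 := by positivity
    have e4 : (-((rn:ℝ) / 2 ^ 20)) ^ m = (-(rn:ℝ)) ^ m / 2 ^ (20 * m) := by
      rw [← neg_div, div_pow, ← pow_mul]
    rw [e4]
    push_cast
    rw [pow_add, mul_add, pow_add]
    field_simp
    norm_num
    ring
  rw [e3] at h1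
  have hq : ((wd:ℤ):ℝ) = (wd:ℝ) := by push_cast; rfl
  rw [hq] at hw0 hw1
  have h2 := fmq_err hA hw0 hw1 m
  have hr0 : (0:ℝ) ≤ (rn:ℝ) / 2 ^ 20 := by positivity
  have hr1 : (rn:ℝ) / 2 ^ 20 ≤ 1 := by
    rw [div_le_one (by positivity)]
    exact_mod_cast hrn
  have ho1 : (on:ℝ) / od ≤ 12 := by
    rw [div_le_iff₀ hodR]
    exact_mod_cast hon
  have ho0 : (0:ℝ) ≤ (on:ℝ) / od := by positivity
  have h3 : |(2 * ((rn:ℝ) / 2 ^ 20) * ((on:ℝ) / od) * (-((rn:ℝ) / 2 ^ 20)) ^ m *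
        fmq L C ((Wn:ℝ) / wd) m) -
      vm D ((rn:ℝ) / 2 ^ 20) ((Wn:ℝ) / wd) (2 * ((rn:ℝ) / 2 ^ 20) * ((on:ℝ) / od)) m| ≤
      216 * (1 / 2 ^ 36) := by
    unfold vm
    rw [← mul_sub, abs_mul, abs_mul, abs_pow, abs_neg, abs_of_nonneg hr0,
      abs_of_nonneg (by positivity : (0:ℝ) ≤ 2 * ((rn:ℝ) / 2 ^ 20) * ((on:ℝ) / od))]
    have a1 : ((rn:ℝ) / 2 ^ 20) ^ m ≤ 1 := pow_le_one₀ hr0 hr1
    have a2 : 2 * ((rn:ℝ) / 2 ^ 20) * ((on:ℝ) / od) ≤ 2 * 1 * 12 :=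
      mul_le_mul (by linarith) ho1 ho0 (by norm_num)
    have a3 : 2 * ((rn:ℝ) / 2 ^ 20) * ((on:ℝ) / od) * ((rn:ℝ) / 2 ^ 20) ^ m ≤ 2 * 1 * 12 * 1 :=
      mul_le_mul a2 a1 (by positivity) (by norm_num)
    calc _ ≤ 2 * 1 * 12 * 1 * (9 * (1 / 2 ^ 36)) := mul_le_mul a3 (h2.trans (by linarith))
          (abs_nonneg _) (by norm_num)
      _ = 216 * (1 / 2 ^ 36) := by ring
  rw [hq]
  have h4 := abs_sub_le ((vmz L C on od rn Wn (wd:ℤ) m : ℤ) : ℝ) (2 ^ 28 *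
    (2 * ((rn:ℝ) / 2 ^ 20) * ((on:ℝ) / od) * (-((rn:ℝ) / 2 ^ 20)) ^ m *
        fmq L C ((Wn:ℝ) / wd) m))
    (2 ^ 28 * vm D ((rn:ℝ) / 2 ^ 20) ((Wn:ℝ) / wd) (2 * ((rn:ℝ) / 2 ^ 20) * ((on:ℝ) / od)) m)
  rw [← mul_sub, abs_mul, abs_of_pos (by positivity : (0:ℝ) < 2 ^ 28)] at h4
  have h5 : (2:ℝ) ^ 28 * (216 * (1 / 2 ^ 36)) ≤ 7 / 8 := by norm_num
  have h6 := mul_le_mul_of_nonneg_left h3 (by positivity : (0:ℝ) ≤ 2 ^ 28)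
  linarith

end Pool.Agent.H65.Shore
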