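import Mathlib
import Pool.Agent.H65.Shore.RowErr

/-!
The packed lanes of a row.
-/

namespace Pool.Agent.H65.Shore

open Pool.Agent.H44.Shore Pool.Agent.H44.Shore.MBC

theorem LA.approx {L n : ℕ} {P : ℤ} {h h' : ℕ → ℝ} {e e' : ℝ} {M : ℤ} (H : LA L n P h e M)
    (hh : ∀ j < n, |h j - h' j| ≤ e') : LA L n P h' (e + e') M := by
  obtain ⟨p, hp, hb⟩ := H
  refine ⟨p, hp, fun j hj => ⟨?_, (hb j hj).2⟩⟩
  have h1 := abs_sub_le ((p j : ℤ) : ℝ) (h j) (h' j)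
  have h2 := hh j hj
  have h3 := (hb j hj).1
  linarith

/-- generate a forced list `[f 0, ..., f (n - 1)] ++ acc` -/
def genZ (f : ℕ → ℤ) : ℕ → List ℤ → (List ℤ → Bool) → Bool
  | 0, acc, k => k acc
  | Nat.succ n, acc, k => seqI (f n) fun z => genZ f n (z :: acc) k

theorem genZ8 (f : ℕ → ℤ) (k : List ℤ → Bool) :
    genZ f 8 [] k = k [f 0, f 1, f 2, f 3, f 4, f 5, f 6, f 7] := by
  simp only [genZ, seqI_eq]

theorem genZ7 (f : ℕ → ℤ) (k : List ℤ → Bool) :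
    genZ f 7 [] k = k [f 0, f 1, f 2, f 3, f 4, f 5, f 6] := by
  simp only [genZ, seqI_eq]

theorem dotR8 (b : ℕ → ℤ) {Ps : List ℤ} (hP : Ps.length = 8) (h : ℕ → ℕ → ℝ) (j : ℕ) :
    dotR [b 0, b 1, b 2, b 3, b 4, b 5, b 6, b 7] Ps h j =
      ∑ m ∈ Finset.range 8, (b m : ℝ) * h m j := by
  match Ps, hP with
  | [p0, p1, p2, p3, p4, p5, p6, p7], _ =>
    simp only [dotR, Finset.sum_range_succ, Finset.sum_range_zero]
    norm_num
    ring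

theorem dotR7 (b : ℕ → ℤ) {Ps : List ℤ} (hP : Ps.length = 7) (h : ℕ → ℕ → ℝ) (j : ℕ) :
    dotR [b 0, b 1, b 2, b 3, b 4, b 5, b 6] Ps h j =
      ∑ m ∈ Finset.range 7, (b m : ℝ) * h m j := by
  match Ps, hP with
  | [p0, p1, p2, p3, p4, p5, p6], _ =>
    simp only [dotR, Finset.sum_range_succ, Finset.sum_range_zero]
    norm_num
    ring

/-- lanes of a row: `B`, `C` are packed with the offset `2 ^ 92` -/
def RowT (D : Dat) (n : ℕ) (θ0 δ r : ℝ) (B C : ℕ) : Prop :=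
  ∃ b c : ℕ → ℤ, B = packN 128 n (fun j => (b j + (2 ^ 92 : ℕ)).toNat) ∧
    C = packN 128 n (fun j => (c j + (2 ^ 92 : ℕ)).toNat) ∧
    ∀ j < n, |(b j : ℝ) - 2 ^ 72 * Bf D r (θ0 + j * δ)| ≤ 2 ^ 49 ∧ |b j| ≤ 2 ^ 92 ∧
      |(c j : ℝ) - 2 ^ 72 * Cf D r (θ0 + j * δ)| ≤ 2 ^ 49 ∧ |c j| ≤ 2 ^ 92

/-- the row computation -/
def rowTab (Lm : List (List ℤ)) (C on od o : ℕ) (Ps Qs : List ℤ) (rn : ℕ)
    (k : ℕ → ℕ → Bool) : Bool :=
  seqI (Int.ofNat (Nat.mul od 1099511627776)) fun Wd =>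
  seqI (Int.ofNat (Nat.sub (Nat.mul od 1099511627776) (Nat.mul on (Nat.mul rn rn)))) fun Wn =>
  genZ (fun m => Int.add (umz Lm C rn Wn Wd m) (vmz Lm C on od rn Wn Wd m)) 8 [] fun bs =>
  genZ (fun m => Int.neg (umz Lm C rn Wn Wd (Nat.succ m))) 7 [] fun cs =>
  andB (Nat.ble (absSum bs) 17592186044416) (
  andB (Nat.ble (absSum cs) 17592186044416) (
  seqN (offs 4951760157141521099596496896 o (dotZ bs Ps)) fun B =>
  seqN (offs 4951760157141521099596496896 o (dotZ cs Qs)) fun Cc => k B Cc))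

theorem LA.offs {n : ℕ} {P : ℤ} {h : ℕ → ℝ} {e : ℝ} {M : ℤ}
    (H : LA 128 n P h e M) (hM : M ≤ 2 ^ 92) :
    ∃ b : ℕ → ℤ, offs 4951760157141521099596496896 (Shore.ones 128 n) P =
      packN 128 n (fun j => (b j + (2 ^ 92 : ℕ)).toNat) ∧
      ∀ j < n, |(b j : ℝ) - h j| ≤ e ∧ |b j| ≤ 2 ^ 92 := by
  obtain ⟨p, hp, hb⟩ := H
  refine ⟨p, ?_, fun j hj => ⟨(hb j hj).1, (hb j hj).2.trans hM⟩⟩
  rw [hp]
  exact offs_eq (M := 4951760157141521099596496896)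
    (fun j hj => ((hb j hj).2.trans hM).trans (by norm_num))

theorem cos_pow_le (x : ℝ) (m : ℕ) : |Real.cos x ^ m| ≤ 1 := by
  rw [abs_pow]
  exact pow_le_one₀ (abs_nonneg _) (Real.abs_cos_le_one _)

theorem W_eq {D : Dat} {on od rn : ℕ} (hod : 0 < od) (hrB : D.rB ^ 2 = (od:ℝ) / on)
    (hon : 0 < on) :
    D.W ((rn:ℝ) / 2 ^ 20) = (((Int.ofNat (Nat.sub (Nat.mul od 1099511627776)
      (Nat.mul on (Nat.mul rn rn))) : ℤ) : ℝ)) / ((Int.ofNat (Nat.mul od 1099511627776) : ℤ) : ℝ) := by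
  have hodR : (0:ℝ) < od := by exact_mod_cast hod
  have honR : (0:ℝ) < on := by exact_mod_cast hon
  have e1 : ((Int.ofNat (Nat.mul od 1099511627776) : ℤ) : ℝ) = od * 2 ^ 40 := by
    show ((((od * 1099511627776 : ℕ) : ℤ)) : ℝ) = _
    push_cast
    norm_num
  have e2 : ((Int.ofNat (Nat.sub (Nat.mul od 1099511627776) (Nat.mul on (Nat.mul rn rn))) : ℤ) : ℝ)
      = max 0 ((od:ℝ) * 2 ^ 40 - (on:ℝ) * ((rn:ℝ) * rn)) := by
    show ((((od * 1099511627776 - on * (rn * rn) : ℕ) : ℤ)) : ℝ) = _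
    rw [Int.cast_natCast]
    rcases le_total (on * (rn * rn)) (od * 1099511627776) with h | h
    · rw [Nat.cast_sub h, max_eq_right]
      · push_cast
        norm_num
      · rw [sub_nonneg]
        have : ((on * (rn * rn) : ℕ) : ℝ) ≤ ((od * 1099511627776 : ℕ) : ℝ) := by exact_mod_cast h
        push_cast at this
        norm_num at this ⊢
        linarith
    · rw [Nat.sub_eq_zero_of_le h, max_eq_left]
      · simp
      · rw [sub_nonpos]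
        have : ((od * 1099511627776 : ℕ) : ℝ) ≤ ((on * (rn * rn) : ℕ) : ℝ) := by exact_mod_cast h
        push_cast at this
        norm_num at this ⊢
        linarith
  rw [e1, e2]
  unfold Dat.W
  rw [hrB]
  have e3 : 1 - ((rn:ℝ) / 2 ^ 20) ^ 2 / ((od:ℝ) / on) =
      (od * 2 ^ 40 - on * (rn * rn)) / (od * 2 ^ 40) := by
    field_simp
  rw [e3]
  have hp : (0:ℝ) < od * 2 ^ 40 := by positivity
  rcases le_total 0 ((od:ℝ) * 2 ^ 40 - on * (rn * rn)) with h | h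
  · rw [max_eq_right h, max_eq_right (div_nonneg h hp.le)]
  · rw [max_eq_left h, max_eq_left (div_nonpos_of_nonpos_of_nonneg h hp.le), zero_div]

theorem rowTab_sound {D : Dat} {Lm : List (List ℤ)} {C : ℕ} {eps : ℝ} (hA : Apx D Lm C eps)
    (heps : eps ≤ 1 / 2 ^ 36) {on od rn : ℕ} (hod : 0 < od) (hon0 : 0 < on) (hon : on ≤ 12 * od)
    (hrB : D.rB ^ 2 = (od:ℝ) / on) (hrn : rn ≤ 2 ^ 20) {n : ℕ} {θ0 δ : ℝ} {Ps Qs : List ℤ}
    (hP : LAs 128 n 5 (2 ^ 46) Ps (hcos θ0 δ)) (hQ : LAs 128 n 5 (2 ^ 46) Qs (hsin θ0 δ))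
    (hP8 : Ps.length = 8) (hQ7 : Qs.length = 7) {k : ℕ → ℕ → Bool}
    (hk : rowTab Lm C on od (ones 128 n) Ps Qs rn k = true) :
    ∃ B Cc, RowT D n θ0 δ ((rn:ℝ) / 2 ^ 20) B Cc ∧ k B Cc = true := by
  unfold rowTab at hk
  simp only [seqI_eq, seqN_eq, genZ8, genZ7] at hk
  have hW := W_eq (rn := rn) hod hrB hon0
  set Wd : ℤ := Int.ofNat (Nat.mul od 1099511627776) with hWd
  set Wn : ℤ := Int.ofNat (Nat.sub (Nat.mul od 1099511627776) (Nat.mul on (Nat.mul rn rn)))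
    with hWn
  have hWd' : Wd = ((od * 1099511627776 : ℕ) : ℤ) := rfl
  have hWn' : Wn = ((od * 1099511627776 - on * (rn * rn) : ℕ) : ℤ) := rfl
  have hWd0 : 0 < Wd := by rw [hWd']; exact_mod_cast (by positivity)
  have hWn0 : 0 ≤ Wn := by rw [hWn']; positivity
  have hWW : Wn ≤ Wd := by
    rw [hWd', hWn']
    exact_mod_cast Nat.sub_le _ _
  obtain ⟨c1, hk⟩ := andB_eq hk
  obtain ⟨c2, hk⟩ := andB_eq hk
  have c1' := Nat.le_of_ble_eq_true c1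
  have c2' := Nat.le_of_ble_eq_true c2
  set bf : ℕ → ℤ := fun m => Int.add (umz Lm C rn Wn Wd m) (vmz Lm C on od rn Wn Wd m) with hbf
  set cf' : ℕ → ℤ := fun m => Int.neg (umz Lm C rn Wn Wd (Nat.succ m)) with hcf
  have hb := dot_LA (e := 5) (M := 2 ^ 46) (by norm_num) (by norm_num)
    [bf 0, bf 1, bf 2, bf 3, bf 4, bf 5, bf 6, bf 7] hP
  have hc := dot_LA (e := 5) (M := 2 ^ 46) (by norm_num) (by norm_num)
    [cf' 0, cf' 1, cf' 2, cf' 3, cf' 4, cf' 5, cf' 6] hQ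
  have hb1 := hb.approx (h' := fun j => 2 ^ 72 * Bf D ((rn:ℝ) / 2 ^ 20) (θ0 + j * δ))
    (e' := 24 * 2 ^ 44) (by
      intro j _
      rw [dotR8 bf hP8, Bf_sum hA.deg, Finset.mul_sum, ← Finset.sum_sub_distrib, hW]
      have hrat : 2 * ((rn:ℝ) / 2 ^ 20) / D.rB ^ 2 = 2 * ((rn:ℝ) / 2 ^ 20) * ((on:ℝ) / od) := by
        rw [hrB]
        have : (od:ℝ) ≠ 0 := by positivity
        have : (on:ℝ) ≠ 0 := by positivity
        field_simp
      rw [hrat]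
      refine (Finset.abs_sum_le_sum_abs _ _).trans ?_
      have hterm : ∀ m ∈ Finset.range 8, |(bf m : ℝ) * hcos θ0 δ m j -
          2 ^ 72 * ((um D ((rn:ℝ) / 2 ^ 20) ((Wn:ℝ) / Wd) m +
            vm D ((rn:ℝ) / 2 ^ 20) ((Wn:ℝ) / Wd) (2 * ((rn:ℝ) / 2 ^ 20) * ((on:ℝ) / od)) m) *
          Real.cos (θ0 + j * δ) ^ m)| ≤ 3 * 2 ^ 44 := by
        intro m hm
        have hm' := Finset.mem_range.mp hm
        have k1 := umz_err hA heps hrn hWn0 hWd0 hWW hm'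
        have k2 := vmz_err hA heps hod hon hrn hWn0 hWd0 hWW m
        have e1 : ((bf m : ℤ) : ℝ) = (umz Lm C rn Wn Wd m : ℝ) + (vmz Lm C on od rn Wn Wd m : ℝ) := by
          rw [hbf]
          show (((umz Lm C rn Wn Wd m + vmz Lm C on od rn Wn Wd m : ℤ)) : ℝ) = _
          push_cast
          rfl
        rw [e1, hcos]
        have e2 : ((umz Lm C rn Wn Wd m : ℝ) + (vmz Lm C on od rn Wn Wd m : ℝ)) *
            (2 ^ 44 * Real.cos (θ0 + j * δ) ^ m) -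
          2 ^ 72 * ((um D ((rn:ℝ) / 2 ^ 20) ((Wn:ℝ) / Wd) m +
            vm D ((rn:ℝ) / 2 ^ 20) ((Wn:ℝ) / Wd) (2 * ((rn:ℝ) / 2 ^ 20) * ((on:ℝ) / od)) m) *
          Real.cos (θ0 + j * δ) ^ m) = 2 ^ 44 * (((umz Lm C rn Wn Wd m : ℝ) -
            2 ^ 28 * um D ((rn:ℝ) / 2 ^ 20) ((Wn:ℝ) / Wd) m) +
            ((vmz Lm C on od rn Wn Wd m : ℝ) - 2 ^ 28 *
            vm D ((rn:ℝ) / 2 ^ 20) ((Wn:ℝ) / Wd) (2 * ((rn:ℝ) / 2 ^ 20) * ((on:ℝ) / od)) m)) *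
            Real.cos (θ0 + j * δ) ^ m := by ring
        rw [e2, abs_mul, abs_mul, abs_of_pos (by positivity : (0:ℝ) < 2 ^ 44)]
        have k3 := cos_pow_le (θ0 + j * δ) m
        have k4 := (abs_add_le ((umz Lm C rn Wn Wd m : ℝ) -
            2 ^ 28 * um D ((rn:ℝ) / 2 ^ 20) ((Wn:ℝ) / Wd) m)
            ((vmz Lm C on od rn Wn Wd m : ℝ) - 2 ^ 28 *
            vm D ((rn:ℝ) / 2 ^ 20) ((Wn:ℝ) / Wd) (2 * ((rn:ℝ) / 2 ^ 20) * ((on:ℝ) / od)) m)).trans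
            (add_le_add k1 k2)
        have k5 : (9:ℝ) / 8 + 15 / 8 = 3 := by norm_num
        rw [k5] at k4
        calc _ ≤ (2:ℝ) ^ 44 * 3 * 1 := by gcongr
          _ = 3 * 2 ^ 44 := by ring
      refine (Finset.sum_le_sum hterm).trans (le_of_eq ?_)
      rw [Finset.sum_const, Finset.card_range]
      norm_num)
  have hc1 := hc.approx (h' := fun j => 2 ^ 72 * Cf D ((rn:ℝ) / 2 ^ 20) (θ0 + j * δ))
    (e' := 24 * 2 ^ 44) (by
      intro j _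
      rw [dotR7 cf' hQ7, Cf_sum hA.deg, Finset.mul_sum, ← Finset.sum_sub_distrib, hW]
      refine (Finset.abs_sum_le_sum_abs _ _).trans ?_
      have hterm : ∀ m ∈ Finset.range 7, |(cf' m : ℝ) * hsin θ0 δ m j -
          2 ^ 72 * (-um D ((rn:ℝ) / 2 ^ 20) ((Wn:ℝ) / Wd) (m + 1) *
          (Real.sin (θ0 + j * δ) * Real.cos (θ0 + j * δ) ^ m))| ≤ 9 / 8 * 2 ^ 44 := by
        intro m hm
        have hm' := Finset.mem_range.mp hm
        have k1 := umz_err hA heps hrn hWn0 hWd0 hWW (m := m + 1) (by omega)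
        have e1 : ((cf' m : ℤ) : ℝ) = -(umz Lm C rn Wn Wd (m + 1) : ℝ) := by
          rw [hcf]
          show (((-umz Lm C rn Wn Wd (m + 1) : ℤ)) : ℝ) = _
          push_cast
          rfl
        rw [e1, hsin]
        have e2 : -(umz Lm C rn Wn Wd (m + 1) : ℝ) *
            (2 ^ 44 * (Real.sin (θ0 + j * δ) * Real.cos (θ0 + j * δ) ^ m)) -
          2 ^ 72 * (-um D ((rn:ℝ) / 2 ^ 20) ((Wn:ℝ) / Wd) (m + 1) *
          (Real.sin (θ0 + j * δ) * Real.cos (θ0 + j * δ) ^ m)) =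
          -(2 ^ 44 * ((umz Lm C rn Wn Wd (m + 1) : ℝ) -
            2 ^ 28 * um D ((rn:ℝ) / 2 ^ 20) ((Wn:ℝ) / Wd) (m + 1)) *
            (Real.sin (θ0 + j * δ) * Real.cos (θ0 + j * δ) ^ m)) := by ring
        rw [e2, abs_neg, abs_mul, abs_mul, abs_of_pos (by positivity : (0:ℝ) < 2 ^ 44)]
        have k3 : |Real.sin (θ0 + j * δ) * Real.cos (θ0 + j * δ) ^ m| ≤ 1 := by
          rw [abs_mul]
          have := mul_le_mul (Real.abs_sin_le_one (θ0 + j * δ)) (cos_pow_le (θ0 + j * δ) m)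
            (abs_nonneg _) zero_le_one
          linarith
        calc _ ≤ (2:ℝ) ^ 44 * (9 / 8) * 1 := by gcongr
          _ = 9 / 8 * 2 ^ 44 := by ring
      refine (Finset.sum_le_sum hterm).trans ?_
      rw [Finset.sum_const, Finset.card_range]
      norm_num)
  have hMb : ((absSum [bf 0, bf 1, bf 2, bf 3, bf 4, bf 5, bf 6, bf 7] : ℕ) : ℤ) * 2 ^ 46 ≤
      2 ^ 92 := by
    have : ((absSum [bf 0, bf 1, bf 2, bf 3, bf 4, bf 5, bf 6, bf 7] : ℕ) : ℤ) ≤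
        17592186044416 := by exact_mod_cast c1'
    calc _ ≤ (17592186044416 : ℤ) * 2 ^ 46 := by gcongr
      _ ≤ 2 ^ 92 := by norm_num
  have hMc : ((absSum [cf' 0, cf' 1, cf' 2, cf' 3, cf' 4, cf' 5, cf' 6] : ℕ) : ℤ) * 2 ^ 46 ≤
      2 ^ 92 := by
    have : ((absSum [cf' 0, cf' 1, cf' 2, cf' 3, cf' 4, cf' 5, cf' 6] : ℕ) : ℤ) ≤
        17592186044416 := by exact_mod_cast c2'
    calc _ ≤ (17592186044416 : ℤ) * 2 ^ 46 := by gcongr
      _ ≤ 2 ^ 92 := by norm_num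
  obtain ⟨b, hb2, hb3⟩ := hb1.offs hMb
  obtain ⟨c, hc2, hc3⟩ := hc1.offs hMc
  have heb : ((absSum [bf 0, bf 1, bf 2, bf 3, bf 4, bf 5, bf 6, bf 7] : ℕ) : ℝ) * 5 +
      24 * 2 ^ 44 ≤ 2 ^ 49 := by
    have : ((absSum [bf 0, bf 1, bf 2, bf 3, bf 4, bf 5, bf 6, bf 7] : ℕ) : ℝ) ≤
        17592186044416 := by exact_mod_cast c1'
    calc _ ≤ (17592186044416 : ℝ) * 5 + 24 * 2 ^ 44 := by gcongr
      _ ≤ 2 ^ 49 := by norm_num
  have hec : ((absSum [cf' 0, cf' 1, cf' 2, cf' 3, cf' 4, cf' 5, cf' 6] : ℕ) : ℝ) * 5 +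
      24 * 2 ^ 44 ≤ 2 ^ 49 := by
    have : ((absSum [cf' 0, cf' 1, cf' 2, cf' 3, cf' 4, cf' 5, cf' 6] : ℕ) : ℝ) ≤
        17592186044416 := by exact_mod_cast c2'
    calc _ ≤ (17592186044416 : ℝ) * 5 + 24 * 2 ^ 44 := by gcongr
      _ ≤ 2 ^ 49 := by norm_num
  exact ⟨_, _, ⟨b, c, hb2, hc2, fun j hj => ⟨(hb3 j hj).1.trans heb, (hb3 j hj).2,
    (hc3 j hj).1.trans hec, (hc3 j hj).2⟩⟩, hk⟩

end Pool.Agent.H65.Shore
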