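import Mathlib
import Pool.Agent.H65.Shore.RowTab
import Pool.Agent.H65.Shore.TanTab

/-!
The check of one vertex at one row.
-/

namespace Pool.Agent.H65.Shore

open Pool.Agent.H44.Shore

def posV (o B C : ℕ) (d : ℤ) (t : ℕ) : ℕ :=
  match d with
  | Int.ofNat d => posP 128 o B C 4951760157141521099596496896 4951760157141521099596496896 d t
  | Int.negSucc d => posM 128 o B C 4951760157141521099596496896 4951760157141521099596496896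
      (Nat.succ d) t

theorem posV_eq {n : ℕ} {b c : ℕ → ℤ} (hb : ∀ j < n, |b j| ≤ 2 ^ 92) (hc : ∀ j < n, |c j| ≤ 2 ^ 92)
    {d : ℤ} {t : ℕ} (h : d.natAbs + t ≤ 2 ^ 22) :
    posV (ones 128 n) (packN 128 n (fun j => (b j + (2 ^ 92 : ℕ)).toNat))
      (packN 128 n (fun j => (c j + (2 ^ 92 : ℕ)).toNat)) d t =
      packN 128 n (fun j => gz (2 ^ 92) d t (b j) (c j)) := by
  have e : (4951760157141521099596496896 : ℕ) = 2 ^ 92 := by norm_num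
  cases d with
  | ofNat d =>
    have h' : d + t ≤ 2 ^ 22 := h
    unfold posV
    simp only [e]
    rw [posP_eq (by norm_num) (fun j hj => by exact_mod_cast hb j hj)
      (fun j hj => by exact_mod_cast hc j hj) (by
        calc 2 * ((d + t) * 2 ^ 92) + 2 ^ 92 ≤ 2 * (2 ^ 22 * 2 ^ 92) + 2 ^ 92 := by gcongr
          _ < 2 ^ (128 - 1) := by norm_num)]
    rfl
  | negSucc d =>
    have h' : (d + 1) + t ≤ 2 ^ 22 := h
    unfold posV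
    simp only [e]
    rw [posM_eq (by norm_num) (fun j hj => by exact_mod_cast hb j hj)
      (fun j hj => by exact_mod_cast hc j hj) (by
        calc 2 * ((d.succ + t) * 2 ^ 92) + 2 ^ 92 ≤ 2 * (2 ^ 22 * 2 ^ 92) + 2 ^ 92 := by gcongr
          _ < 2 ^ (128 - 1) := by norm_num)]
    rfl

theorem max_toNat (x : ℤ) : max 0 (x:ℝ) = ((x.toNat : ℕ) : ℝ) := by
  rcases le_total 0 x with h | h
  · rw [max_eq_right (by exact_mod_cast h)]
    have := Int.toNat_of_nonneg h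
    exact_mod_cast this.symm
  · rw [max_eq_left (by exact_mod_cast h), Int.toNat_of_nonpos h]
    simp

theorem POS_lane {b c : ℤ} {Bv Cv : ℝ} (hb : |(b:ℝ) - 2 ^ 72 * Bv| ≤ 2 ^ 49)
    (hc : |(c:ℝ) - 2 ^ 72 * Cv| ≤ 2 ^ 49) {d : ℤ} {t : ℕ} (h : d.natAbs + t ≤ 2 ^ 22) :
    2 ^ 92 * (max 0 (-1 + ((d:ℝ) / 2 ^ 20) * Bv + ((t:ℝ) / 2 ^ 20) * Cv) +
      max 0 (-1 + ((d:ℝ) / 2 ^ 20) * Bv + (-((t:ℝ) / 2 ^ 20)) * Cv)) ≤
      (gz (2 ^ 92) d t b c : ℝ) + 2 ^ 72 := by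
  have hd : |(d:ℝ)| = (d.natAbs : ℝ) := by
    rw [Nat.cast_natAbs]
    push_cast
    rfl
  have hR : |(d:ℝ)| + t ≤ 2 ^ 22 := by
    rw [hd]
    exact_mod_cast h
  have ht0 : (0:ℝ) ≤ t := Nat.cast_nonneg _
  have k1 : |(d:ℝ) * ((b:ℝ) - 2 ^ 72 * Bv)| ≤ |(d:ℝ)| * 2 ^ 49 := by
    rw [abs_mul]
    gcongr
  have k2 : |(t:ℝ) * ((c:ℝ) - 2 ^ 72 * Cv)| ≤ (t:ℝ) * 2 ^ 49 := by
    rw [abs_mul, abs_of_nonneg ht0]
    gcongr
  have k3 := abs_le.mp k1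
  have k4 := abs_le.mp k2
  have k5 : (|(d:ℝ)| + t) * 2 ^ 49 ≤ 2 ^ 22 * 2 ^ 49 := by gcongr
  have e1 : (2:ℝ) ^ 22 * 2 ^ 49 = 2 ^ 71 := by norm_num
  have e2 : (2:ℝ) ^ 72 = 2 ^ 71 + 2 ^ 71 := by norm_num
  unfold gz
  push_cast
  rw [← max_toNat, ← max_toNat, mul_add, mul_max_of_nonneg _ _ (by positivity),
    mul_max_of_nonneg _ _ (by positivity), mul_zero]
  have f1 : (2:ℝ) ^ 92 * (-1 + (d:ℝ) / 2 ^ 20 * Bv + (t:ℝ) / 2 ^ 20 * Cv) =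
      -(2 ^ 92) + d * (2 ^ 72 * Bv) + t * (2 ^ 72 * Cv) := by ring
  have f2 : (2:ℝ) ^ 92 * (-1 + (d:ℝ) / 2 ^ 20 * Bv + -((t:ℝ) / 2 ^ 20) * Cv) =
      -(2 ^ 92) + d * (2 ^ 72 * Bv) - t * (2 ^ 72 * Cv) := by ring
  rw [f1, f2]
  have g1 : max 0 (-(2 ^ 92) + d * (2 ^ 72 * Bv) + t * (2 ^ 72 * Cv)) ≤
      max 0 ((((-(((2:ℕ) ^ 92 : ℕ) : ℤ) + d * b + t * c : ℤ)) : ℝ)) + 2 ^ 71 := by
    apply max_le
    · have := le_max_left 0 ((((-(((2:ℕ) ^ 92 : ℕ) : ℤ) + d * b + t * c : ℤ)) : ℝ))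
      positivity
    · have := le_max_right 0 ((((-(((2:ℕ) ^ 92 : ℕ) : ℤ) + d * b + t * c : ℤ)) : ℝ))
      push_cast at this ⊢
      linarith [k3.1, k3.2, k4.1, k4.2]
  have g2 : max 0 (-(2 ^ 92) + d * (2 ^ 72 * Bv) - t * (2 ^ 72 * Cv)) ≤
      max 0 ((((-(((2:ℕ) ^ 92 : ℕ) : ℤ) + d * b - t * c : ℤ)) : ℝ)) + 2 ^ 71 := by
    apply max_le
    · have := le_max_left 0 ((((-(((2:ℕ) ^ 92 : ℕ) : ℤ) + d * b - t * c : ℤ)) : ℝ))
      positivity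
    · have := le_max_right 0 ((((-(((2:ℕ) ^ 92 : ℕ) : ℤ) + d * b - t * c : ℤ)) : ℝ))
      push_cast at this ⊢
      linarith [k3.1, k3.2, k4.1, k4.2]
  push_cast at g1 g2 ⊢
  linarith

theorem POS_eq (D : Dat) (r vr vt δ : ℝ) (j : ℕ) : POS D r vr vt δ j =
    max 0 (-1 + (vr - r) * Bf D r (j * δ) + vt * Cf D r (j * δ)) +
      max 0 (-1 + (vr - r) * Bf D r (j * δ) + (-vt) * Cf D r (j * δ)) := by
  unfold POS
  rw [gs_eq, gs_eq]

theorem TT_POS_le {D : Dat} {n j0 dn rn B C : ℕ}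
    (h : RowT D n ((j0:ℝ) * ((dn:ℝ) / 2 ^ 30)) ((dn:ℝ) / 2 ^ 30) ((rn:ℝ) / 2 ^ 20) B C)
    (hn : n ≤ 2048) {v : ℤ} {t : ℕ} (hv : (v - rn).natAbs + t ≤ 2 ^ 22) {a b P : ℕ}
    (ha : j0 ≤ a) (hab : a < b) (hb : b + 1 < j0 + n) (hP0 : b * dn ≤ P) (hP1 : P ≤ (b + 1) * dn)
    (hdn : 0 < dn) (hdn4 : (b + 1) * dn ≤ 2 ^ 32) :
    TT (POS D ((rn:ℝ) / 2 ^ 20) ((v:ℝ) / 2 ^ 20) ((t:ℝ) / 2 ^ 20) ((dn:ℝ) / 2 ^ 30))
      ((dn:ℝ) / 2 ^ 30) a b ((P:ℝ) / 2 ^ 30 - b * ((dn:ℝ) / 2 ^ 30)) ≤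
      (tsum 128 (posV (ones 128 n) B C (v - rn) t) dn (P - b * dn) (a - j0) (b - j0) : ℝ) / 2 ^ 123 +
        1 / 2 ^ 18 := by
  obtain ⟨bz, cz', hB, hC, hbc⟩ := h
  have hb' : ∀ j < n, |bz j| ≤ 2 ^ 92 := fun j hj => (hbc j hj).2.1
  have hc' : ∀ j < n, |cz' j| ≤ 2 ^ 92 := fun j hj => (hbc j hj).2.2.2
  rw [hB, hC, posV_eq hb' hc' hv]
  set f : ℕ → ℕ := fun j => gz (2 ^ 92) (v - rn) t (bz j) (cz' j) with hf
  have hfle : ∀ j < n, f j ≤ 2 ^ 115 := by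
    intro j hj
    have h1 := gz_le (M := 2 ^ 92) (w := 2 ^ 92) (t := t) (D := (v - rn).natAbs) (d := v - rn)
      (b := bz j) (c := cz' j) (by exact_mod_cast hb' j hj) (by exact_mod_cast hc' j hj)
      (by rw [Nat.cast_natAbs]; exact le_rfl)
    refine h1.trans ?_
    calc 2 * (((v - rn).natAbs + t) * 2 ^ 92) ≤ 2 * (2 ^ 22 * 2 ^ 92) := by gcongr
      _ = 2 ^ 115 := by norm_num
  have hflt : ∀ j < n, f j < 2 ^ 128 := fun j hj => lt_of_le_of_lt (hfle j hj) (by norm_num)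
  have hab' : a - j0 < b - j0 := by omega
  have hbn : b - j0 + 1 < n := by omega
  set δ : ℝ := (dn:ℝ) / 2 ^ 30 with hδdef
  have hδ : 0 < δ := by
    rw [hδdef]
    have : (0:ℝ) < dn := by exact_mod_cast hdn
    positivity
  have key := tsum_bound (L := 128) hflt (dn := dn) (wn := P - b * dn) (a := a - j0) (b := b - j0)
    (j0 := j0) hdn (by
      have : (b + 1) * dn = b * dn + dn := by ring
      omega) hab' hbn (by
      calc ∑ j ∈ Finset.range (b - j0 - (a - j0) - 1), f (j + (a - j0 + 1))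
          ≤ ∑ _j ∈ Finset.range (b - j0 - (a - j0) - 1), 2 ^ 115 := by
            apply Finset.sum_le_sum
            intro j hj
            have := Finset.mem_range.mp hj
            exact hfle _ (by omega)
        _ = (b - j0 - (a - j0) - 1) * 2 ^ 115 := by simp
        _ ≤ 2048 * 2 ^ 115 := by
            apply Nat.mul_le_mul_right
            omega
        _ < 2 ^ 128 - 1 := by norm_num)
    (A := fun j => 2 ^ 92 * POS D ((rn:ℝ) / 2 ^ 20) ((v:ℝ) / 2 ^ 20) ((t:ℝ) / 2 ^ 20) δ j + -2 ^ 72)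
    (by
      intro j hj1 hj2
      have hj : j < n := by omega
      obtain ⟨k1, -, k2, -⟩ := hbc j hj
      have k3 := POS_lane k1 k2 hv
      rw [POS_eq]
      have e1 : ((j0 + j : ℕ) : ℝ) * δ = (j0:ℝ) * δ + j * δ := by
        push_cast
        ring
      have e2 : (v:ℝ) / 2 ^ 20 - (rn:ℝ) / 2 ^ 20 = ((v - rn : ℤ) : ℝ) / 2 ^ 20 := by
        push_cast
        ring
      rw [e1, e2]
      have e3 : ((f j : ℕ) : ℝ) = (gz (2 ^ 92) (v - rn) t (bz j) (cz' j) : ℝ) := rfl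
      rw [e3]
      linarith)
  have hj1 : j0 + (a - j0) = a := by omega
  have hj2 : j0 + (b - j0) = b := by omega
  rw [hj1, hj2] at key
  have hw : (((P - b * dn : ℕ) : ℝ)) / 2 ^ 30 = (P:ℝ) / 2 ^ 30 - b * δ := by
    rw [Nat.cast_sub hP0]
    push_cast
    rw [hδdef]
    ring
  rw [hw] at key
  rw [TT_add_const _ hδ hab, TT_smul _ _ hab] at key
  have hlen : ((b:ℝ) - a) * δ + ((P:ℝ) / 2 ^ 30 - b * δ) ≤ 4 := by
    have h1 : (P:ℝ) / 2 ^ 30 ≤ 4 := by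
      rw [div_le_iff₀ (by positivity)]
      have : P ≤ 2 ^ 32 := hP1.trans hdn4
      have : (P:ℝ) ≤ 2 ^ 32 := by exact_mod_cast this
      linarith
    have h2 : 0 ≤ (a:ℝ) * δ := by positivity
    linarith
  have e4 : (2:ℝ) ^ 123 = 2 ^ 92 * 2 ^ 31 := by norm_num
  have hX := mul_le_mul_of_nonneg_left hlen (by positivity : (0:ℝ) ≤ 2 ^ 72)
  set X := TT (POS D ((rn:ℝ) / 2 ^ 20) ((v:ℝ) / 2 ^ 20) ((t:ℝ) / 2 ^ 20) δ) δ a b
    ((P:ℝ) / 2 ^ 30 - b * δ) with hXd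
  set S := ((tsum 128 (packN 128 n f) dn (P - b * dn) (a - j0) (b - j0) : ℕ) : ℝ) with hS
  have h5 : 2 ^ 92 * X ≤ S / 2 ^ 31 + 2 ^ 72 * 4 := by
    linarith
  have h6 : X ≤ (S / 2 ^ 31 + 2 ^ 72 * 4) / 2 ^ 92 := by
    rw [le_div_iff₀ (by positivity)]
    linarith
  refine h6.trans (le_of_eq ?_)
  rw [e4]
  field_simp
  norm_num
  try ring

/-! ### the left region -/

/-- trapezoidal sum of the left region -/
noncomputable def HT (vr vt δ : ℝ) (a : ℕ) : ℝ :=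
  δ * (∑ j ∈ Finset.range (a + 1), hL vr vt (j * δ) - (hL vr vt 0 + hL vr vt (a * δ)) / 2)

theorem HT_zero (vr vt δ : ℝ) : HT vr vt δ 0 = 0 := by
  unfold HT
  simp

/-- a vertex with the packed lanes of the left region -/
structure Vx where
  v : ℤ
  t : ℕ
  H : ℕ

structure Vx.Ok (x : Vx) (nt : ℕ) (δ : ℝ) : Prop where
  h1 : x.v.natAbs + x.t ≤ 3 * 2 ^ 20
  h2 : ∃ f : ℕ → ℕ, x.H = packN 128 nt f ∧ ∀ j < nt, f j ≤ 2 ^ 100 ∧
    2 ^ 92 * hL ((x.v:ℝ) / 2 ^ 20) ((x.t:ℝ) / 2 ^ 20) (j * δ) ≤ f j + 2 ^ 58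

def hTabs (o T : ℕ) : List (ℤ × ℕ) → List Vx → (List Vx → Bool) → Bool
  | [], acc, k => k acc
  | p :: vs, acc, k =>
    andB (Nat.ble (Nat.add (Int.natAbs p.1) p.2) 3145728) (
    andB (Nat.ble p.2 2097152) (
    match p.1 with
    | Int.ofNat u => seqN (hV 128 o T false (Nat.mul u 4722366482869645213696) p.2) fun H =>
        hTabs o T vs (Vx.mk (Int.ofNat u) p.2 H :: acc) k
    | Int.negSucc u => seqN (hV 128 o T true (Nat.mul (Nat.succ u) 4722366482869645213696) p.2)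
        fun H => hTabs o T vs (Vx.mk (Int.negSucc u) p.2 H :: acc) k))

theorem vx_ok {nt : ℕ} {δ : ℝ} (hδ : 0 ≤ δ) (hnt : (nt:ℝ) * δ ≤ Real.pi / 2 + δ) {T : ℕ}
    (hT : TanT 128 nt δ T) {v : ℤ} {t : ℕ} (h1 : v.natAbs + t ≤ 3 * 2 ^ 20) (h2 : t ≤ 2 ^ 21)
    {neg : Bool} {u : ℕ} (hu : (v:ℝ) = (if neg then -1 else 1) * u) (hu2 : u = v.natAbs) :
    (Vx.mk v t (hV 128 (ones 128 nt) T neg (u * 2 ^ 72) t)).Ok nt δ := by
  obtain ⟨tf, hTp, htf⟩ := hT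
  have hu3 : u ≤ 3 * 2 ^ 20 := by omega
  refine ⟨h1, fun j => hlane neg (u * 2 ^ 72) t (tf j), ?_, fun j hj => ⟨?_, ?_⟩⟩
  · show hV 128 (ones 128 nt) T neg (u * 2 ^ 72) t = _
    rw [hTp]
    apply hV_eq (M := 2 ^ 76) (by norm_num) (fun j hj => (htf j hj).2.le)
    calc 2 ^ 76 * t + u * 2 ^ 72 ≤ 2 ^ 76 * 2 ^ 21 + 3 * 2 ^ 20 * 2 ^ 72 := by gcongr
      _ < 2 ^ (128 - 1) := by norm_num
  · have ht1 := (htf j hj).2.le
    have e1 : t * tf j ≤ 2 ^ 21 * 2 ^ 76 := Nat.mul_le_mul h2 ht1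
    have e2 : u * 2 ^ 72 ≤ 3 * 2 ^ 20 * 2 ^ 72 := Nat.mul_le_mul_right _ hu3
    cases neg with
    | false =>
      show t * tf j - u * 2 ^ 72 ≤ 2 ^ 100
      refine (Nat.sub_le _ _).trans (e1.trans (by norm_num))
    | true =>
      show (u * 2 ^ 72 + t * tf j) + (u * 2 ^ 72 - t * tf j) ≤ 2 ^ 100
      have e3 := Nat.sub_le (u * 2 ^ 72) (t * tf j)
      calc (u * 2 ^ 72 + t * tf j) + (u * 2 ^ 72 - t * tf j)
          ≤ (3 * 2 ^ 20 * 2 ^ 72 + 2 ^ 21 * 2 ^ 76) + 3 * 2 ^ 20 * 2 ^ 72 := by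
            gcongr
            exact e3.trans e2
        _ ≤ 2 ^ 100 := by norm_num
  · have hj' : (j:ℝ) + 1 ≤ nt := by exact_mod_cast hj
    have hjd : (j:ℝ) * δ ≤ Real.pi / 2 := by nlinarith
    have htan : 0 ≤ Real.tan (j * δ) :=
      Real.tan_nonneg_of_nonneg_of_le_pi_div_two (by positivity) hjd
    exact hL_lane (vn := u) (by
      show (v:ℝ) / 2 ^ 20 = _
      rw [hu]
      ring) rfl h2 (by push_cast; ring) htan (htf j hj).1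

theorem hTabs_sound {nt : ℕ} {δ : ℝ} (hδ : 0 ≤ δ) (hnt : (nt:ℝ) * δ ≤ Real.pi / 2 + δ) {T : ℕ}
    (hT : TanT 128 nt δ T) {k : List Vx → Bool} (vs : List (ℤ × ℕ)) :
    ∀ {acc : List Vx}, (∀ x ∈ acc, x.Ok nt δ) → hTabs (ones 128 nt) T vs acc k = true →
      ∃ xs : List Vx, (∀ x ∈ xs, x.Ok nt δ) ∧ (∀ x ∈ acc, x ∈ xs) ∧
        (∀ p ∈ vs, ∃ x ∈ xs, x.v = p.1 ∧ x.t = p.2) ∧ k xs = true := by
  induction vs with
  | nil =>
    intro acc hacc h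
    exact ⟨acc, hacc, fun x hx => hx, fun p hp => absurd hp (by simp), h⟩
  | cons p vs ih =>
    intro acc hacc h
    unfold hTabs at h
    obtain ⟨c1, h⟩ := andB_eq h
    obtain ⟨c2, h⟩ := andB_eq h
    have c1' : p.1.natAbs + p.2 ≤ 3 * 2 ^ 20 := (Nat.le_of_ble_eq_true c1).trans (by norm_num)
    have c2' : p.2 ≤ 2 ^ 21 := (Nat.le_of_ble_eq_true c2).trans (by norm_num)
    obtain ⟨v, t⟩ := p
    have main : ∀ x : Vx, x.Ok nt δ → x.v = v → x.t = t →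
        hTabs (ones 128 nt) T vs (x :: acc) k = true →
        ∃ xs : List Vx, (∀ x ∈ xs, x.Ok nt δ) ∧ (∀ x ∈ acc, x ∈ xs) ∧
        (∀ p ∈ (v, t) :: vs, ∃ x ∈ xs, x.v = p.1 ∧ x.t = p.2) ∧ k xs = true := by
      intro x hx1 hx2 hx3 hx4
      obtain ⟨xs, a1, a2, a3, a4⟩ := ih (acc := x :: acc) (by
        intro y hy
        rcases List.mem_cons.mp hy with rfl | hy
        · exact hx1
        · exact hacc y hy) hx4
      refine ⟨xs, a1, fun y hy => a2 y (List.mem_cons_of_mem _ hy), ?_, a4⟩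
      intro p hp
      rcases List.mem_cons.mp hp with rfl | hp
      · exact ⟨x, a2 x (by simp), hx2, hx3⟩
      · exact a3 p hp
    have hl : (4722366482869645213696 : ℕ) = 2 ^ 72 := by norm_num
    cases v with
    | ofNat u =>
      simp only [seqN_eq] at h
      refine main _ ?_ rfl rfl h
      rw [hl]
      exact vx_ok hδ hnt hT c1' c2' (neg := false) (by simp) rfl
    | negSucc u =>
      simp only [seqN_eq] at h
      refine main _ ?_ rfl rfl h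
      rw [hl]
      exact vx_ok hδ hnt hT c1' c2' (neg := true) (u := u + 1) (by
        push_cast [Int.cast_negSucc]
        simp) rfl

theorem HT_le {x : Vx} {nt dn : ℕ} (hx : x.Ok nt ((dn:ℝ) / 2 ^ 30)) (hnt : nt ≤ 2048) {a : ℕ}
    (ha : a < nt) (ha2 : (a:ℝ) * ((dn:ℝ) / 2 ^ 30) ≤ 2) :
    HT ((x.v:ℝ) / 2 ^ 20) ((x.t:ℝ) / 2 ^ 20) ((dn:ℝ) / 2 ^ 30) a ≤
      (hsum 128 x.H dn a : ℝ) / 2 ^ 123 + 1 / 2 ^ 33 := by
  obtain ⟨f, hf, hf2⟩ := hx.h2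
  have key := hsum_bound (L := 128) (n := nt) (f := f)
    (fun j hj => lt_of_le_of_lt (hf2 j hj).1 (by norm_num)) (dn := dn) ha (by
      calc ∑ j ∈ Finset.range (a - 1), f (j + 1)
          ≤ ∑ _j ∈ Finset.range (a - 1), 2 ^ 100 := by
            apply Finset.sum_le_sum
            intro j hj
            have := Finset.mem_range.mp hj
            exact (hf2 _ (by omega)).1
        _ = (a - 1) * 2 ^ 100 := by simp
        _ ≤ 2048 * 2 ^ 100 := by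
            apply Nat.mul_le_mul_right
            omega
        _ < 2 ^ 128 - 1 := by norm_num)
    (A := fun j => 2 ^ 92 * hL ((x.v:ℝ) / 2 ^ 20) ((x.t:ℝ) / 2 ^ 20) (j * ((dn:ℝ) / 2 ^ 30)) - 2 ^ 58)
    (fun j hj => by
      have := (hf2 j (by omega)).2
      linarith)
  rw [← hf] at key
  set δ : ℝ := (dn:ℝ) / 2 ^ 30 with hδdef
  have hδ0 : 0 ≤ δ := by positivity
  rw [Finset.sum_sub_distrib, ← Finset.mul_sum] at key
  simp only [Finset.sum_const, Finset.card_range, nsmul_eq_mul, Nat.cast_zero, zero_mul] at key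
  unfold HT
  set S := ∑ j ∈ Finset.range (a + 1), hL ((x.v:ℝ) / 2 ^ 20) ((x.t:ℝ) / 2 ^ 20) (j * δ) with hS
  set h0 := hL ((x.v:ℝ) / 2 ^ 20) ((x.t:ℝ) / 2 ^ 20) 0 with hh0
  set ha' := hL ((x.v:ℝ) / 2 ^ 20) ((x.t:ℝ) / 2 ^ 20) (a * δ) with hha
  have e1 : 2 ^ 92 * (δ * (S - (h0 + ha') / 2)) =
      δ * (2 ^ 92 * S - ((a + 1 : ℕ) : ℝ) * 2 ^ 58 - (2 ^ 92 * h0 - 2 ^ 58 + (2 ^ 92 * ha' - 2 ^ 58)) / 2) +
      2 ^ 58 * (a * δ) := by
    push_cast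
    ring
  have h5 : 2 ^ 92 * (δ * (S - (h0 + ha') / 2)) ≤ (hsum 128 x.H dn a : ℝ) / 2 ^ 31 + 2 ^ 58 * 2 := by
    rw [e1]
    have := mul_le_mul_of_nonneg_left ha2 (by positivity : (0:ℝ) ≤ 2 ^ 58)
    linarith
  have h6 : δ * (S - (h0 + ha') / 2) ≤ ((hsum 128 x.H dn a : ℝ) / 2 ^ 31 + 2 ^ 58 * 2) / 2 ^ 92 := by
    rw [le_div_iff₀ (by positivity)]
    linarith
  refine h6.trans (le_of_eq ?_)
  have e4 : (2:ℝ) ^ 123 = 2 ^ 92 * 2 ^ 31 := by norm_num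
  rw [e4]
  ring

end Pool.Agent.H65.Shore
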