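import Mathlib
import Pool.Agent.H65.Shore.VCheck
import Pool.Agent.H65.Shore.Slack

/-!
Checks of pairs of rows and of chains of rows.
-/

namespace Pool.Agent.H65.Shore

open Set
open Pool.Agent.H44.Shore Pool.Agent.H44.Shore.MBC

/-- parameters of a quadrature at a row; the weight is `-m / 2 ^ 20` -/
structure Par where
  a : ℕ
  b : ℕ
  P : ℕ
  m : ℕ
  E : ℕ

def parV (dn j0 X Hl rn : ℕ) (d : ℤ) (p : Par) : Bool :=
  match p with
  | Par.mk a b P m E =>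
    seqN (tsum 128 X dn (Nat.sub P (Nat.mul b dn)) (Nat.sub a j0) (Nat.sub b j0)) fun TS =>
    seqN (Nat.div (Nat.mul (hsum 128 Hl dn a) 1048576) rn) fun HS =>
    match d with
    | Int.ofNat d => andB (Nat.ble (Nat.mul m d) 1099511627776)
        (Nat.ble (Nat.add (Nat.add TS HS) (Nat.succ (Nat.mul E 9671406556917033397649408)))
          (Nat.mul (Nat.mul 3537118876014220 (Nat.sub 1099511627776 (Nat.mul m d))) 8589934592))
    | Int.negSucc d =>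
        Nat.ble (Nat.add (Nat.add TS HS) (Nat.succ (Nat.mul E 9671406556917033397649408)))
          (Nat.mul (Nat.mul 3537118876014220 (Nat.add 1099511627776 (Nat.mul m (Nat.succ d))))
            8589934592)

/-- structural conditions -/
structure Par.Ok (p : Par) (dn j0 n nt rn : ℕ) : Prop where
  ha : j0 ≤ p.a
  hab : p.a < p.b
  hb : p.b + 1 < j0 + n
  hP0 : p.b * dn ≤ p.P
  hP1 : p.P ≤ (p.b + 1) * dn
  hb4 : (p.b + 1) * dn ≤ 2 ^ 32
  hant : p.a < nt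
  ha2 : p.a * dn ≤ 2 ^ 31
  hr : p.a = 0 ∨ 2 ^ 17 ≤ rn

/-- the inequality at a row -/
def Par.Val (p : Par) (D : Dat) (dn rn : ℕ) (vr vt : ℝ) : Prop :=
  TT (POS D ((rn:ℝ) / 2 ^ 20) vr vt ((dn:ℝ) / 2 ^ 30)) ((dn:ℝ) / 2 ^ 30) p.a p.b
      ((p.P:ℝ) / 2 ^ 30 - p.b * ((dn:ℝ) / 2 ^ 30)) +
    HT vr vt ((dn:ℝ) / 2 ^ 30) p.a / ((rn:ℝ) / 2 ^ 20) -
    Real.pi * (1 + (-((p.m:ℝ) / 2 ^ 20)) * (vr - (rn:ℝ) / 2 ^ 20)) +
    ((p.E:ℝ) / 2 ^ 40 - 3 / 2 ^ 19) ≤ 0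

theorem pi_lower : (3537118876014220 : ℝ) / 2 ^ 50 ≤ Real.pi := by
  have h := Real.pi_gt_d20
  have h2 : (3537118876014220 : ℝ) / 2 ^ 50 ≤ 3.14159265358979323846 := by norm_num
  linarith

theorem parV_sound {D : Dat} {n nt j0 dn rn B C : ℕ} {x : Vx} {p : Par}
    (hR : RowT D n ((j0:ℝ) * ((dn:ℝ) / 2 ^ 30)) ((dn:ℝ) / 2 ^ 30) ((rn:ℝ) / 2 ^ 20) B C)
    (hn : n ≤ 2048) (hnt : nt ≤ 2048) (hdn : 0 < dn) (hrn : rn ≤ 2 ^ 20)
    (hx : x.Ok nt ((dn:ℝ) / 2 ^ 30)) (hp : p.Ok dn j0 n nt rn)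
    (h : parV dn j0 (posV (ones 128 n) B C (x.v - rn) x.t) x.H rn (x.v - rn) p = true) :
    p.Val D dn rn ((x.v:ℝ) / 2 ^ 20) ((x.t:ℝ) / 2 ^ 20) := by
  obtain ⟨a, b, P, m, E⟩ := p
  have hv1 := hx.h1
  have hv : (x.v - rn).natAbs + x.t ≤ 2 ^ 22 := by omega
  have h1 := TT_POS_le hR hn hv hp.ha hp.hab hp.hb hp.hP0 hp.hP1 hdn hp.hb4
  have haδ : (a:ℝ) * ((dn:ℝ) / 2 ^ 30) ≤ 2 := by
    have h2 : a * dn ≤ 2 ^ 31 := hp.ha2
    have h3 : (a:ℝ) * dn ≤ 2 ^ 31 := by exact_mod_cast h2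
    rw [← mul_div_assoc, div_le_iff₀ (by positivity)]
    linarith
  have h2 := HT_le hx hnt (a := a) hp.hant haδ
  -- the term of the left region
  have h3 : HT ((x.v:ℝ) / 2 ^ 20) ((x.t:ℝ) / 2 ^ 20) ((dn:ℝ) / 2 ^ 30) a / ((rn:ℝ) / 2 ^ 20) ≤
      ((hsum 128 x.H dn a * 1048576 / rn : ℕ) + 1 : ℝ) / 2 ^ 123 + 1 / 2 ^ 30 := by
    rcases hp.hr with h0 | hr
    · have h0' : a = 0 := h0
      rw [h0', HT_zero, zero_div]
      positivity
    · have hrp : (2:ℝ) ^ 17 ≤ rn := by exact_mod_cast hr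
      have hrp0 : (0:ℝ) < rn := lt_of_lt_of_le (by positivity) hrp
      have hrnN : 0 < rn := by exact_mod_cast hrp0
      have e1 : ((hsum 128 x.H dn a : ℝ) * 1048576) / rn ≤
          ((hsum 128 x.H dn a * 1048576 / rn : ℕ) : ℝ) + 1 := by
        rw [div_le_iff₀ hrp0]
        have := Nat.lt_div_mul_add (a := hsum 128 x.H dn a * 1048576) hrnN
        have h4 : ((hsum 128 x.H dn a * 1048576 : ℕ) : ℝ) ≤
            ((hsum 128 x.H dn a * 1048576 / rn * rn + rn : ℕ) : ℝ) := by exact_mod_cast this.le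
        push_cast at h4
        push_cast
        linarith
      have e2 : HT ((x.v:ℝ) / 2 ^ 20) ((x.t:ℝ) / 2 ^ 20) ((dn:ℝ) / 2 ^ 30) a / ((rn:ℝ) / 2 ^ 20) ≤
          ((hsum 128 x.H dn a : ℝ) / 2 ^ 123 + 1 / 2 ^ 33) / ((rn:ℝ) / 2 ^ 20) := by gcongr
      have e3 : ((hsum 128 x.H dn a : ℝ) / 2 ^ 123 + 1 / 2 ^ 33) / ((rn:ℝ) / 2 ^ 20) =
          ((hsum 128 x.H dn a : ℝ) * 1048576) / rn / 2 ^ 123 + 1 / 2 ^ 33 * (2 ^ 20 / rn) := by
        field_simp
        norm_num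
        try ring
      have e4 : (2:ℝ) ^ 20 / rn ≤ 8 := by
        rw [div_le_iff₀ hrp0]
        have : (2:ℝ) ^ 20 = 8 * 2 ^ 17 := by norm_num
        rw [this]
        gcongr
      have e5 : (1:ℝ) / 2 ^ 33 * (2 ^ 20 / rn) ≤ 1 / 2 ^ 33 * 8 := by gcongr
      have e6 : (1:ℝ) / 2 ^ 33 * 8 = 1 / 2 ^ 30 := by norm_num
      have e7 : ((hsum 128 x.H dn a : ℝ) * 1048576) / rn / 2 ^ 123 ≤
          (((hsum 128 x.H dn a * 1048576 / rn : ℕ) : ℝ) + 1) / 2 ^ 123 := by gcongr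
      rw [e3] at e2
      linarith
  -- the right hand side
  set TS := tsum 128 (posV (ones 128 n) B C (x.v - rn) x.t) dn (P - b * dn) (a - j0) (b - j0)
    with hTS
  set HS := hsum 128 x.H dn a * 1048576 / rn with hHS
  have key : (TS:ℝ) + HS + (E * 2 ^ 83 + 1) ≤ Real.pi *
      (1 + (-((m:ℝ) / 2 ^ 20)) * ((x.v:ℝ) / 2 ^ 20 - (rn:ℝ) / 2 ^ 20)) * 2 ^ 123 := by
    have hd : (x.v:ℝ) / 2 ^ 20 - (rn:ℝ) / 2 ^ 20 = ((x.v - rn : ℤ) : ℝ) / 2 ^ 20 := by
      push_cast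
      ring
    rw [hd]
    unfold parV at h
    simp only [seqN_eq] at h
    change (match (x.v - rn : ℤ) with
      | Int.ofNat d => andB (Nat.ble (Nat.mul m d) 1099511627776)
        (Nat.ble (Nat.add (Nat.add TS HS) (Nat.succ (Nat.mul E 9671406556917033397649408)))
          (Nat.mul (Nat.mul 3537118876014220 (Nat.sub 1099511627776 (Nat.mul m d))) 8589934592))
      | Int.negSucc d =>
        Nat.ble (Nat.add (Nat.add TS HS) (Nat.succ (Nat.mul E 9671406556917033397649408)))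
          (Nat.mul (Nat.mul 3537118876014220 (Nat.add 1099511627776 (Nat.mul m (Nat.succ d))))
            8589934592)) = true at h
    have hpi := pi_lower
    have hE : (9671406556917033397649408 : ℝ) = 2 ^ 83 := by norm_num
    generalize (x.v - rn : ℤ) = d at h
    cases d with
    | ofNat d =>
      obtain ⟨c1, c2⟩ := andB_eq h
      have c1' : m * d ≤ 1099511627776 := Nat.le_of_ble_eq_true c1
      have c2' : TS + HS + (E * 9671406556917033397649408 + 1) ≤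
          3537118876014220 * (1099511627776 - m * d) * 8589934592 := Nat.le_of_ble_eq_true c2
      have c3 : ((TS + HS + (E * 9671406556917033397649408 + 1) : ℕ) : ℝ) ≤
          ((3537118876014220 * (1099511627776 - m * d) * 8589934592 : ℕ) : ℝ) := by exact_mod_cast c2'
      rw [Nat.cast_mul, Nat.cast_mul, Nat.cast_sub c1'] at c3
      push_cast at c3
      rw [hE] at c3
      refine c3.trans ?_
      have c1'' : (m:ℝ) * d ≤ 1099511627776 := by exact_mod_cast c1'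
      have e0 : ((Int.ofNat d : ℤ) : ℝ) = (d:ℝ) := by
        show (((d : ℕ) : ℤ) : ℝ) = _
        push_cast
        rfl
      rw [e0]
      have e1 : (3537118876014220:ℝ) * (1099511627776 - (m:ℝ) * d) * 8589934592 =
          3537118876014220 / 2 ^ 50 * (1 + (-((m:ℝ) / 2 ^ 20)) * ((d:ℝ) / 2 ^ 20)) * 2 ^ 123 := by
        field_simp
        norm_num
        try ring
      rw [e1]
      have e2 : 0 ≤ 1 + (-((m:ℝ) / 2 ^ 20)) * ((d:ℝ) / 2 ^ 20) := by
        have : (m:ℝ) / 2 ^ 20 * ((d:ℝ) / 2 ^ 20) ≤ 1 := by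
          rw [div_mul_div_comm, div_le_one (by positivity)]
          refine c1''.trans (by norm_num)
        linarith
      gcongr
    | negSucc d =>
      have c2' : TS + HS + (E * 9671406556917033397649408 + 1) ≤
          3537118876014220 * (1099511627776 + m * (d + 1)) * 8589934592 := Nat.le_of_ble_eq_true h
      have c3 : ((TS + HS + (E * 9671406556917033397649408 + 1) : ℕ) : ℝ) ≤
          ((3537118876014220 * (1099511627776 + m * (d + 1)) * 8589934592 : ℕ) : ℝ) := by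
        exact_mod_cast c2'
      push_cast at c3
      rw [hE] at c3
      refine c3.trans ?_
      have e0 : ((Int.negSucc d : ℤ) : ℝ) = -((d:ℝ) + 1) := by
        rw [Int.cast_negSucc]
        push_cast
        ring
      rw [e0]
      have e1 : (3537118876014220:ℝ) * (1099511627776 + (m:ℝ) * (d + 1)) * 8589934592 =
          3537118876014220 / 2 ^ 50 * (1 + (-((m:ℝ) / 2 ^ 20)) * (-((d:ℝ) + 1) / 2 ^ 20)) *
            2 ^ 123 := by
        field_simp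
        norm_num
        try ring
      rw [e1]
      have e2 : 0 ≤ 1 + (-((m:ℝ) / 2 ^ 20)) * (-((d:ℝ) + 1) / 2 ^ 20) := by
        have : 0 ≤ (m:ℝ) / 2 ^ 20 * (((d:ℝ) + 1) / 2 ^ 20) := by positivity
        have e3 : (-((m:ℝ) / 2 ^ 20)) * (-((d:ℝ) + 1) / 2 ^ 20) =
          (m:ℝ) / 2 ^ 20 * (((d:ℝ) + 1) / 2 ^ 20) := by ring
        rw [e3]
        linarith
      gcongr
  unfold Par.Val
  simp only
  have k1 : ((TS:ℝ) + HS + (E * 2 ^ 83 + 1)) / 2 ^ 123 ≤ Real.pi *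
      (1 + (-((m:ℝ) / 2 ^ 20)) * ((x.v:ℝ) / 2 ^ 20 - (rn:ℝ) / 2 ^ 20)) := by
    rw [div_le_iff₀ (by positivity)]
    exact key
  have k2 : ((TS:ℝ) + HS + (E * 2 ^ 83 + 1)) / 2 ^ 123 =
      (TS:ℝ) / 2 ^ 123 + ((HS:ℝ) + 1) / 2 ^ 123 + (E:ℝ) / 2 ^ 40 := by
    field_simp
    norm_num
    try ring
  have k3 : (1:ℝ) / 2 ^ 18 + 1 / 2 ^ 30 ≤ 3 / 2 ^ 19 := by norm_num
  rw [k2] at k1
  linarith

/-- all parameters -/
def parsV (dn j0 X Hl rn : ℕ) (d : ℤ) : List Par → Bool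
  | [] => true
  | p :: ps => andB (parV dn j0 X Hl rn d p) (parsV dn j0 X Hl rn d ps)

theorem parsV_mem {dn j0 X Hl rn : ℕ} {d : ℤ} {ps : List Par}
    (h : parsV dn j0 X Hl rn d ps = true) : ∀ p ∈ ps, parV dn j0 X Hl rn d p = true := by
  induction ps with
  | nil => simp
  | cons p ps ih =>
    obtain ⟨h1, h2⟩ := andB_eq h
    intro q hq
    rcases List.mem_cons.mp hq with rfl | hq
    · exact h1
    · exact ih h2 q hq

/-- all vertices -/
def vLoop (dn j0 o B C rn : ℕ) (ps : List Par) : List Vx → Bool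
  | [] => true
  | x :: xs =>
    andB (match x with
      | Vx.mk v t H => seqI (Int.sub v (Int.ofNat rn)) fun d =>
        seqN (posV o B C d t) fun X => parsV dn j0 X H rn d ps)
      (vLoop dn j0 o B C rn ps xs)

theorem vLoop_sound {D : Dat} {n nt j0 dn rn B C : ℕ}
    (hR : RowT D n ((j0:ℝ) * ((dn:ℝ) / 2 ^ 30)) ((dn:ℝ) / 2 ^ 30) ((rn:ℝ) / 2 ^ 20) B C)
    (hn : n ≤ 2048) (hnt : nt ≤ 2048) (hdn : 0 < dn) (hrn : rn ≤ 2 ^ 20) {ps : List Par}
    (hps : ∀ p ∈ ps, p.Ok dn j0 n nt rn) {xs : List Vx}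
    (hxs : ∀ x ∈ xs, x.Ok nt ((dn:ℝ) / 2 ^ 30))
    (h : vLoop dn j0 (ones 128 n) B C rn ps xs = true) :
    ∀ x ∈ xs, ∀ p ∈ ps, p.Val D dn rn ((x.v:ℝ) / 2 ^ 20) ((x.t:ℝ) / 2 ^ 20) := by
  induction xs with
  | nil => simp
  | cons y ys ih =>
    obtain ⟨h1, h2⟩ := andB_eq h
    intro x hx p hp
    rcases List.mem_cons.mp hx with rfl | hx
    · obtain ⟨v, t, H⟩ := x
      simp only [seqI_eq, seqN_eq] at h1
      exact parV_sound (x := ⟨v, t, H⟩) hR hn hnt hdn hrn (hxs _ (by simp)) (hps p hp)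
        (parsV_mem h1 p hp)
    · exact ih (fun x hx => hxs x (List.mem_cons_of_mem _ hx)) h2 x hx p hp

end Pool.Agent.H65.Shore
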