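import Mathlib
import Pool.Agent.H44.Shore.Mb

/-!
The certificate with rational coefficients close to a given one.
-/

namespace Pool.Agent.H65.Shore

open Polynomial
open Pool.Agent.H44.Shore Pool.Agent.H44.Shore.MBC

/-- the polynomial with coefficients `gc L k m / 2 ^ C`, `m < 8` -/
noncomputable def bq (L : List (List ℤ)) (C k : ℕ) : ℝ[X] :=
  ∑ m ∈ Finset.range 8, Polynomial.C ((gc L k m : ℝ) / 2 ^ C) * X ^ m

/-- rational certificate -/
noncomputable def Dq (D : Dat) (L : List (List ℤ)) (C : ℕ) : Dat :=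
  { D with B0 := bq L C 0, B2 := bq L C 2, B3 := bq L C 3, B4 := bq L C 4 }

theorem bq_coeff (L : List (List ℤ)) (C k : ℕ) {m : ℕ} (hm : m < 8) :
    (bq L C k).coeff m = (gc L k m : ℝ) / 2 ^ C := by
  unfold bq
  simp only [finsetSum_coeff, coeff_C_mul, coeff_X_pow]
  simp [hm]

theorem bq_natDegree (L : List (List ℤ)) (C k : ℕ) : (bq L C k).natDegree < 8 := by
  have h : (bq L C k).natDegree ≤ 7 := by
    unfold bq
    apply natDegree_sum_le_of_forall_le
    intro m hm
    have := Finset.mem_range.mp hm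
    refine (natDegree_C_mul_X_pow_le _ _).trans (by omega)
  omega

theorem apx_q (D : Dat) {L : List (List ℤ)} {C : ℕ} (h5 : L.length ≤ 5)
    (h8 : ∀ r ∈ L, r.length ≤ 8) (h1 : L.getD 1 [] = []) : Apx (Dq D L C) L C 0 where
  deg := ⟨bq_natDegree L C 0, bq_natDegree L C 2, bq_natDegree L C 3, bq_natDegree L C 4⟩
  l5 := h5
  l8 := h8
  eps0 := le_rfl
  h := by
    intro k hk m hm
    have h0 := bq_coeff L C 0 hm
    have h2 := bq_coeff L C 2 hm
    have h3 := bq_coeff L C 3 hm
    have h4 := bq_coeff L C 4 hm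
    interval_cases k
    · show |(bq L C 0).coeff m - _| ≤ 0
      rw [h0]
      simp
    · show |0 - (gc L 1 m : ℝ) / 2 ^ C| ≤ 0
      have : gc L 1 m = 0 := by
        unfold gc
        rw [h1]
        simp
      rw [this]
      simp
    · show |(bq L C 2).coeff m - _| ≤ 0
      rw [h2]
      simp
    · show |(bq L C 3).coeff m - _| ≤ 0
      rw [h3]
      simp
    · show |(bq L C 4).coeff m - _| ≤ 0
      rw [h4]
      simp

/-- the strip integrands of the two certificates are close -/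
def Close (D : Dat) (L : List (List ℤ)) (C : ℕ) : Prop :=
  ∀ r vr u c s : ℝ, 0 ≤ r → r ≤ 1 → vr ^ 2 + u ^ 2 ≤ (51 / 50) ^ 2 → c ^ 2 + s ^ 2 = 1 →
    |r * c| ≤ 21 / 100 → |D.gs r vr u c s - (Dq D L C).gs r vr u c s| ≤ 1 / 2 ^ 22

end Pool.Agent.H65.Shore
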