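import Mathlib
import Pool.Agent.H65.Shore.Chain
import Pool.Agent.H65.Shore.Close

/-!
The vertex independent check of a pair of rows.
-/

namespace Pool.Agent.H65.Shore

open Set
open Pool.Agent.H44.Shore Pool.Agent.H44.Shore.MBC

/-- constants of the certificate: `xL = nL / N`, `rB ^ 2 = od / on`, `1 / ρ ≤ X1 / 2 ^ 60` -/
structure Cst where
  Lm : List (List ℤ)
  C : ℕ
  on : ℕ
  od : ℕ
  nL : ℕ
  N : ℕ
  X1 : ℕ

/-- constants of a region of radii -/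
structure Reg where
  ra : ℕ
  rb : ℕ
  xb : ℕ
  KR : ℕ
  KT : ℕ
  LA : ℕ
  LE : ℕ
  SL : ℕ
  ep : ℕ
  s : ℕ

/-- a pair of rows; `rn`, `m` belong to the upper row -/
structure Cell where
  a : ℕ
  b : ℕ
  P0 : ℕ
  P1 : ℕ
  k : ℕ
  E : ℕ
  rn : ℕ
  m : ℕ

structure CstOk (D : Dat) (K : Cst) : Prop where
  l5 : K.Lm.length ≤ 5
  l8 : ∀ r ∈ K.Lm, r.length ≤ 8
  l1 : K.Lm.getD 1 [] = []
  close : Close D K.Lm K.C
  hod : 0 < K.od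
  hon : 0 < K.on
  ho : K.on ≤ 12 * K.od
  hrB2 : D.rB ^ 2 = (K.od:ℝ) / K.on
  hrB : 0 < D.rB
  hN : 0 < K.N
  hxL : D.xL = (K.nL:ℝ) / K.N
  hxL0 : 0 < D.xL
  hxL1 : D.xL ≤ 21 / 100
  hρ : 0 < D.ρ
  hX1 : 1 / D.ρ ≤ (K.X1:ℝ) / 2 ^ 60

structure RegOk (D : Dat) (V : ℝ) (g : Reg) : Prop where
  semi : ∃ Kf : ℝ → ℝ → ℝ, SemiC D (-D.xL) ((g.xb:ℝ) / 2 ^ 20) ((g.ra:ℝ) / 2 ^ 20)
    ((g.rb:ℝ) / 2 ^ 20) V Kf ∧ Kf 1 0 ≤ g.KR ∧ Kf 0 1 ≤ g.KT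
  lip : ∃ Lf : ℝ → ℝ → ℝ, LipC D (-D.xL) ((g.xb:ℝ) / 2 ^ 20) ((g.ra:ℝ) / 2 ^ 20)
    ((g.rb:ℝ) / 2 ^ 20) V Lf ∧ ∀ a e, 0 ≤ a → 0 ≤ e → Lf a e ≤ g.LA * a + g.LE * e
  xb1 : (g.xb:ℝ) / 2 ^ 20 ≤ 21 / 100
  sliv : ∀ r ∈ Icc ((g.ra:ℝ) / 2 ^ 20) ((g.rb:ℝ) / 2 ^ 20), 0 < r → ∀ vr u : ℝ,
    vr ^ 2 + u ^ 2 ≤ V ^ 2 → ∀ θ ∈ Icc 0 (Real.pi / 2),
    D.xL - (g.ep:ℝ) / 2 ^ 40 ≤ r * Real.cos θ → r * Real.cos θ ≤ D.xL →
    max 0 (D.gs r vr u (Real.cos θ) (Real.sin θ)) ≤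
      max 0 ((-vr + u * Real.tan θ) / r) + (g.SL:ℝ) / 2 ^ 40

def orB (a : Bool) (b : Bool) : Bool :=
  match a with
  | true => true
  | false => b

theorem orB_eq {a b : Bool} (h : orB a b = true) : a = true ∨ b = true := by
  cases a
  · exact Or.inr h
  · exact Or.inl rfl

/-- `r cos Ψ ≤ -1/ρ` -/
def psiC (rn cb sb w X1 : ℕ) : Bool :=
  Nat.ble (Nat.mul X1 39614081257132168796771975168) (Nat.mul rn (Nat.mul
    (Nat.add (Nat.mul cb 1073741824) (Nat.mul sb w)) (Nat.sub 2305843009213693952 (Nat.mul w w))))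

def outC (X1 dn j0 co si rn rn1 b P0 P1 : ℕ) : Bool :=
  orB (Nat.ble 3373259427 P1)
    (andB (Nat.ble 1686629714 P1) (andB (Nat.ble P0 3373259426) (
    seqN (lget 128 co (Nat.sub b j0)) fun cbl =>
    seqN (lget 128 si (Nat.sub b j0)) fun sbl =>
    andB (Nat.ble (Nat.add cbl 5) 70368744177664) (andB (Nat.ble 70368744177669 sbl) (
    seqN (Nat.sub 70368744177664 (Nat.add cbl 5)) fun cb =>
    seqN (Nat.sub sbl 70368744177669) fun sb =>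
    andB (psiC rn cb sb (Nat.sub P0 (Nat.mul b dn)) X1)
      (psiC rn1 cb sb (Nat.sub P1 (Nat.mul b dn)) X1))))))

def xC (xb dn j0 co rn1 b : ℕ) : Bool :=
  orB (Nat.ble rn1 xb) (andB (Nat.ble (Nat.mul (Nat.succ b) dn) 3373259426)
    (Nat.ble (Nat.mul rn1 70368744177669) (Nat.add (Nat.mul xb 17592186044416)
      (Nat.mul rn1 (lget 128 co (Nat.sub (Nat.succ b) j0))))))

def leftC (N ep j0 co rn k ca xl : ℕ) (a : ℕ) : Bool :=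
  match a with
  | 0 => true
  | Nat.succ a' =>
    andB (Nat.ble 131072 rn) (
    andB (Nat.ble (Nat.add xl (Nat.mul (Nat.mul rn N) 70368744177669))
      (Nat.add (Nat.mul (Nat.mul rn N) ca) (Nat.mul (Nat.mul ep N) 16777216)))
    (orB (Nat.beq k (Nat.succ a'))
      (Nat.ble (Nat.succ (Nat.add xl (Nat.mul (Nat.mul rn N) 70368744177669)))
        (Nat.mul (Nat.mul rn N) (lget 128 co (Nat.sub (Nat.sub (Nat.succ a') k) j0))))))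

def errC (KR KT LA LE SL s dn a k P0 P1 dr m m1 E : ℕ) : Bool :=
  Nat.ble (Nat.add (Nat.add (Nat.add (Nat.mul (Nat.mul SL k) (Nat.mul dn 8388608))
    (Nat.mul (Nat.sub P0 (Nat.mul a dn)) (Nat.add (Nat.mul (Nat.mul KR (Nat.mul dr dr)) 1048576)
      (Nat.mul KT (Nat.mul dn dn)))))
    (Nat.add (Nat.mul (Nat.mul (Nat.sub P0 P1) (Nat.add (Nat.mul (Nat.mul LA dr) 1024)
      (Nat.mul LE dn))) 2147483648)
    (Nat.mul (Nat.mul 3537118876014221 (Nat.sub m1 m)) dr)))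
    (Nat.add 37778931862957161709568 (Nat.mul s 4503599627370496)))
    (Nat.mul E 4503599627370496)

def pairC (nL N X1 : ℕ) (g : Reg) (dn j0 n nt co si rn m : ℕ) (c : Cell) : Bool :=
  match g, c with
  | Reg.mk ra rb xb KR KT LA LE SL ep s, Cell.mk a b P0 P1 k E rn1 m1 =>
  andB (Nat.ble ra rn) (andB (Nat.ble (Nat.succ rn) rn1) (andB (Nat.ble rn1 rb) (
  andB (Nat.ble (Nat.add j0 k) a) (andB (Nat.ble (Nat.succ a) b) (
  andB (Nat.ble (Nat.add b 2) (Nat.add j0 n)) (andB (Nat.ble (Nat.succ a) nt) (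
  andB (Nat.ble P1 P0) (andB (Nat.ble (Nat.mul b dn) P1) (andB (Nat.ble P0 (Nat.mul (Nat.succ b) dn)) (
  andB (Nat.ble (Nat.mul (Nat.succ b) dn) 4294967296) (andB (Nat.ble (Nat.mul a dn) 1686629713) (
  seqN (lget 128 co (Nat.sub a j0)) fun ca =>
  seqN (Nat.mul nL 18446744073709551616) fun xl =>
  andB (Nat.ble (Nat.mul (Nat.mul rn1 N) (Nat.add ca 5))
    (Nat.add xl (Nat.mul (Nat.mul rn1 N) 70368744177664))) (
  andB (leftC N ep j0 co rn k ca xl a) (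
  andB (outC X1 dn j0 co si rn rn1 b P0 P1) (
  andB (xC xb dn j0 co rn1 b)
    (errC KR KT LA LE SL s dn a k P0 P1 (Nat.sub rn1 rn) m m1 E))))))))))))))))

/-- packed cosines with the offset `2 ^ 46` -/
def CosT (n : ℕ) (θ0 δ : ℝ) (co : ℕ) : Prop :=
  ∃ z : ℕ → ℤ, co = packN 128 n (fun j => (z j + (2 ^ 46 : ℕ)).toNat) ∧
    ∀ j < n, |(z j : ℝ) - 2 ^ 44 * Real.cos (θ0 + j * δ)| ≤ 5 ∧ |z j| ≤ 2 ^ 46

def SinT (n : ℕ) (θ0 δ : ℝ) (si : ℕ) : Prop :=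
  ∃ z : ℕ → ℤ, si = packN 128 n (fun j => (z j + (2 ^ 46 : ℕ)).toNat) ∧
    ∀ j < n, |(z j : ℝ) - 2 ^ 44 * Real.sin (θ0 + j * δ)| ≤ 5 ∧ |z j| ≤ 2 ^ 46

theorem lane46 {n : ℕ} {z : ℕ → ℤ} {j : ℕ} (hj : j < n) (h : ∀ j < n, |z j| ≤ 2 ^ 46) :
    (lget 128 (packN 128 n (fun j => (z j + (2 ^ 46 : ℕ)).toNat)) j : ℝ) = z j + 2 ^ 46 := by
  have h1 := fun j hj => abs_le.mp (h j hj)
  rw [lget_eq (f := fun j => (z j + (2 ^ 46 : ℕ)).toNat) (fun j hj => by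
    have := (h1 j hj).2
    have e : ((2:ℕ) ^ 128) = 340282366920938463463374607431768211456 := by norm_num
    have e2 : (((2:ℕ) ^ 46 : ℕ) : ℤ) = 70368744177664 := by norm_num
    have e3 : (2:ℤ) ^ 46 = 70368744177664 := by norm_num
    rw [e3] at this
    rw [e, e2]
    omega) hj]
  have h2 := (h1 j hj).1
  have h3 : ((((z j + (2 ^ 46 : ℕ)).toNat : ℕ) : ℤ)) = z j + 2 ^ 46 := by
    rw [Int.toNat_of_nonneg]
    · push_cast
      rfl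
    · push_cast
      linarith
  have h4 : ((((z j + (2 ^ 46 : ℕ)).toNat : ℕ) : ℤ) : ℝ) = ((z j + 2 ^ 46 : ℤ) : ℝ) := by rw [h3]
  rw [Int.cast_natCast] at h4
  rw [h4]
  push_cast
  norm_num

theorem CosT.get {n j0 co : ℕ} {δ : ℝ} (h : CosT n (j0 * δ) δ co) {j : ℕ} (h0 : j0 ≤ j)
    (h1 : j < j0 + n) : |(lget 128 co (j - j0) : ℝ) - 2 ^ 46 - 2 ^ 44 * Real.cos (j * δ)| ≤ 5 := by
  obtain ⟨z, hz, hz2⟩ := h
  have h2 : j - j0 < n := by omega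
  rw [hz, lane46 h2 (fun j hj => (hz2 j hj).2)]
  have h3 := (hz2 _ h2).1
  have e : (j0:ℝ) * δ + ((j - j0 : ℕ) : ℝ) * δ = j * δ := by
    rw [Nat.cast_sub h0]
    ring
  rw [e] at h3
  have e2 : (z (j - j0) : ℝ) + 2 ^ 46 - 2 ^ 46 - 2 ^ 44 * Real.cos (j * δ) =
      (z (j - j0) : ℝ) - 2 ^ 44 * Real.cos (j * δ) := by ring
  rw [e2]
  exact h3

theorem SinT.get {n j0 si : ℕ} {δ : ℝ} (h : SinT n (j0 * δ) δ si) {j : ℕ} (h0 : j0 ≤ j)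
    (h1 : j < j0 + n) : |(lget 128 si (j - j0) : ℝ) - 2 ^ 46 - 2 ^ 44 * Real.sin (j * δ)| ≤ 5 := by
  obtain ⟨z, hz, hz2⟩ := h
  have h2 : j - j0 < n := by omega
  rw [hz, lane46 h2 (fun j hj => (hz2 j hj).2)]
  have h3 := (hz2 _ h2).1
  have e : (j0:ℝ) * δ + ((j - j0 : ℕ) : ℝ) * δ = j * δ := by
    rw [Nat.cast_sub h0]
    ring
  rw [e] at h3
  have e2 : (z (j - j0) : ℝ) + 2 ^ 46 - 2 ^ 46 - 2 ^ 44 * Real.sin (j * δ) =
      (z (j - j0) : ℝ) - 2 ^ 44 * Real.sin (j * δ) := by ring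
  rw [e2]
  exact h3

theorem psiC_sound {rn cb sb w X1 : ℕ} {φ β' ρ : ℝ} (h : psiC rn cb sb w X1 = true)
    (hX1 : 1 / ρ ≤ (X1:ℝ) / 2 ^ 60) (hw : w ≤ 2 ^ 30) (hβ : β' = φ + (w:ℝ) / 2 ^ 30)
    (hc : (cb:ℝ) ≤ 2 ^ 44 * -Real.cos φ) (hs : (sb:ℝ) ≤ 2 ^ 44 * Real.sin φ) :
    (rn:ℝ) / 2 ^ 20 * Real.cos β' ≤ -(1 / ρ) := by
  have h' : X1 * 39614081257132168796771975168 ≤ rn * ((cb * 1073741824 + sb * w) *
      (2305843009213693952 - w * w)) := Nat.le_of_ble_eq_true h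
  have hww : w * w ≤ 2305843009213693952 := by
    calc w * w ≤ 2 ^ 30 * 2 ^ 30 := Nat.mul_le_mul hw hw
      _ ≤ 2305843009213693952 := by norm_num
  have h2 : ((X1 * 39614081257132168796771975168 : ℕ) : ℝ) ≤
      ((rn * ((cb * 1073741824 + sb * w) * (2305843009213693952 - w * w)) : ℕ) : ℝ) := by
    exact_mod_cast h'
  rw [Nat.cast_mul, Nat.cast_mul, Nat.cast_mul, Nat.cast_sub hww] at h2
  push_cast at h2
  set u : ℝ := (w:ℝ) / 2 ^ 30 with hu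
  have hu0 : 0 ≤ u := by positivity
  have hu1 : u ≤ 1 := by
    rw [hu, div_le_one (by positivity)]
    exact_mod_cast hw
  have hcos : 1 - u ^ 2 / 2 ≤ Real.cos u := Real.one_sub_sq_div_two_le_cos
  have hsin : u * (1 - u ^ 2 / 2) ≤ Real.sin u := by
    rcases hu0.eq_or_lt with h0 | h0
    · rw [← h0]
      simp
    · have := Real.sin_gt_sub_cube h0
      nlinarith [pow_pos h0 3]
  have hcb0 : (0:ℝ) ≤ cb := Nat.cast_nonneg _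
  have hsb0 : (0:ℝ) ≤ sb := Nat.cast_nonneg _
  have hk : 0 ≤ 1 - u ^ 2 / 2 := by nlinarith
  have e1 : Real.cos β' = Real.cos φ * Real.cos u - Real.sin φ * Real.sin u := by
    rw [hβ, Real.cos_add]
  have k1 : (cb:ℝ) * (1 - u ^ 2 / 2) ≤ (2 ^ 44 * -Real.cos φ) * Real.cos u := by
    apply mul_le_mul hc hcos hk
    linarith
  have k2 : (sb:ℝ) * (u * (1 - u ^ 2 / 2)) ≤ (2 ^ 44 * Real.sin φ) * Real.sin u := by
    apply mul_le_mul hs hsin (by positivity)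
    linarith
  have k3 : ((cb:ℝ) + sb * u) * (1 - u ^ 2 / 2) ≤ 2 ^ 44 * -Real.cos β' := by
    rw [e1]
    linarith
  have hr0 : (0:ℝ) ≤ rn := Nat.cast_nonneg _
  have k4 := mul_le_mul_of_nonneg_left k3 hr0
  have k5 : (X1:ℝ) * 39614081257132168796771975168 ≤
      (rn * (((cb:ℝ) + sb * u) * (1 - u ^ 2 / 2))) * (2 ^ 30 * 2 ^ 61) := by
    refine h2.trans (le_of_eq ?_)
    rw [hu]
    field_simp
    norm_num
    try ring
  have k6 : (X1:ℝ) * 39614081257132168796771975168 ≤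
      (rn * (2 ^ 44 * -Real.cos β')) * (2 ^ 30 * 2 ^ 61) := by
    refine k5.trans ?_
    gcongr
  have k7 : (X1:ℝ) / 2 ^ 60 ≤ -((rn:ℝ) / 2 ^ 20 * Real.cos β') := by
    rw [div_le_iff₀ (by positivity)]
    have e2 : -((rn:ℝ) / 2 ^ 20 * Real.cos β') * 2 ^ 60 =
        ((rn * (2 ^ 44 * -Real.cos β')) * (2 ^ 30 * 2 ^ 61)) / 39614081257132168796771975168 := by
      field_simp
      norm_num
      try ring
    rw [e2, le_div_iff₀ (by norm_num)]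
    exact k6
  linarith

theorem outC_sound {X1 dn j0 n co si rn rn1 b P0 P1 : ℕ} {ρ : ℝ}
    (hco : CosT n (j0 * ((dn:ℝ) / 2 ^ 30)) ((dn:ℝ) / 2 ^ 30) co)
    (hsi : SinT n (j0 * ((dn:ℝ) / 2 ^ 30)) ((dn:ℝ) / 2 ^ 30) si)
    (hX1 : 1 / ρ ≤ (X1:ℝ) / 2 ^ 60) (hj : j0 ≤ b) (hb : b + 1 < j0 + n)
    (hdn : dn ≤ 2 ^ 30) (hP : P1 ≤ P0) (hb1 : b * dn ≤ P1) (hb0 : P0 ≤ (b + 1) * dn)
    (h : outC X1 dn j0 co si rn rn1 b P0 P1 = true) :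
    (Real.pi ≤ (P0:ℝ) / 2 ^ 30 ∧ Real.pi ≤ (P1:ℝ) / 2 ^ 30) ∨
      (Real.pi / 2 ≤ (P1:ℝ) / 2 ^ 30 ∧ (P1:ℝ) / 2 ^ 30 ≤ (P0:ℝ) / 2 ^ 30 ∧
        (P0:ℝ) / 2 ^ 30 ≤ Real.pi ∧ (rn:ℝ) / 2 ^ 20 * Real.cos ((P0:ℝ) / 2 ^ 30) ≤ -(1 / ρ) ∧
        (rn1:ℝ) / 2 ^ 20 * Real.cos ((P1:ℝ) / 2 ^ 30) ≤ -(1 / ρ)) := by
  have hpl := Real.pi_gt_d20
  have hpu := Real.pi_lt_d20
  have hPR : (P1:ℝ) ≤ P0 := by exact_mod_cast hP
  rcases orB_eq h with h1 | h1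
  · left
    have h2 : 3373259427 ≤ P1 := Nat.le_of_ble_eq_true h1
    have h3 : (3373259427:ℝ) ≤ P1 := by exact_mod_cast h2
    have h4 : Real.pi ≤ (P1:ℝ) / 2 ^ 30 := by
      rw [le_div_iff₀ (by positivity)]
      have : (3.14159265358979323847:ℝ) * 2 ^ 30 ≤ 3373259427 := by norm_num
      nlinarith
    refine ⟨h4.trans ?_, h4⟩
    gcongr
  · right
    obtain ⟨c1, h1⟩ := andB_eq h1
    obtain ⟨c2, h1⟩ := andB_eq h1
    simp only [seqN_eq] at h1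
    obtain ⟨c3, h1⟩ := andB_eq h1
    obtain ⟨c4, h1⟩ := andB_eq h1
    obtain ⟨c5, c6⟩ := andB_eq h1
    have c1' : 1686629714 ≤ P1 := Nat.le_of_ble_eq_true c1
    have c2' : P0 ≤ 3373259426 := Nat.le_of_ble_eq_true c2
    have c3' : lget 128 co (b - j0) + 5 ≤ 70368744177664 := Nat.le_of_ble_eq_true c3
    have c4' : 70368744177669 ≤ lget 128 si (b - j0) := Nat.le_of_ble_eq_true c4
    have gc := hco.get hj (by omega : b < j0 + n)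
    have gs := hsi.get hj (by omega : b < j0 + n)
    have gc' := abs_le.mp gc
    have gs' := abs_le.mp gs
    have e46 : (70368744177664:ℝ) = 2 ^ 46 := by norm_num
    have hcb : ((70368744177664 - (lget 128 co (b - j0) + 5) : ℕ) : ℝ) ≤
        2 ^ 44 * -Real.cos (b * ((dn:ℝ) / 2 ^ 30)) := by
      rw [Nat.cast_sub c3']
      push_cast
      linarith
    have hsb : ((lget 128 si (b - j0) - 70368744177669 : ℕ) : ℝ) ≤
        2 ^ 44 * Real.sin (b * ((dn:ℝ) / 2 ^ 30)) := by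
      rw [Nat.cast_sub c4']
      push_cast
      linarith
    have hsucc : (b + 1) * dn = b * dn + dn := by ring
    have ew : ∀ P : ℕ, b * dn ≤ P → (P:ℝ) / 2 ^ 30 = b * ((dn:ℝ) / 2 ^ 30) +
        ((P - b * dn : ℕ) : ℝ) / 2 ^ 30 := by
      intro P hP
      rw [Nat.cast_sub hP]
      push_cast
      ring
    refine ⟨?_, by gcongr, ?_, ?_, ?_⟩
    · have h3 : (1686629714:ℝ) ≤ P1 := by exact_mod_cast c1'
      rw [le_div_iff₀ (by positivity)]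
      have : (3.14159265358979323847:ℝ) / 2 * 2 ^ 30 ≤ 1686629714 := by norm_num
      nlinarith
    · have h3 : (P0:ℝ) ≤ 3373259426 := by exact_mod_cast c2'
      rw [div_le_iff₀ (by positivity)]
      have : (3373259426:ℝ) ≤ 3.14159265358979323846 * 2 ^ 30 := by norm_num
      nlinarith
    · exact psiC_sound c5 hX1 (by
        show P0 - b * dn ≤ 2 ^ 30
        omega) (ew P0 (hb1.trans hP)) hcb hsb
    · exact psiC_sound c6 hX1 (by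
        show P1 - b * dn ≤ 2 ^ 30
        omega) (ew P1 hb1) hcb hsb

end Pool.Agent.H65.Shore
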