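import Mathlib
import Pool.Agent.H65.Shore.PairC

/-!
Soundness of the check of a pair of rows.
-/

namespace Pool.Agent.H65.Shore

open Set
open Pool.Agent.H44.Shore Pool.Agent.H44.Shore.MBC

theorem xC_sound {xb dn j0 n co rn1 b : ℕ}
    (hco : CosT n (j0 * ((dn:ℝ) / 2 ^ 30)) ((dn:ℝ) / 2 ^ 30) co)
    (hj : j0 ≤ b) (hb : b + 1 < j0 + n) (h : xC xb dn j0 co rn1 b = true) :
    (rn1:ℝ) / 2 ^ 20 ≤ (xb:ℝ) / 2 ^ 20 ∨ (((b:ℝ) + 1) * ((dn:ℝ) / 2 ^ 30) ≤ Real.pi ∧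
      -((rn1:ℝ) / 2 ^ 20 * Real.cos (((b:ℝ) + 1) * ((dn:ℝ) / 2 ^ 30))) ≤ (xb:ℝ) / 2 ^ 20) := by
  rcases orB_eq h with h1 | h1
  · left
    have h2 : rn1 ≤ xb := Nat.le_of_ble_eq_true h1
    have h3 : (rn1:ℝ) ≤ xb := by exact_mod_cast h2
    gcongr
  · right
    obtain ⟨c1, c2⟩ := andB_eq h1
    have c1' : (b + 1) * dn ≤ 3373259426 := Nat.le_of_ble_eq_true c1
    have c2' : rn1 * 70368744177669 ≤ xb * 17592186044416 + rn1 * lget 128 co (b + 1 - j0) :=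
      Nat.le_of_ble_eq_true c2
    constructor
    · have h3 : ((b:ℝ) + 1) * dn ≤ 3373259426 := by exact_mod_cast c1'
      have hpl := Real.pi_gt_d20
      rw [← mul_div_assoc, div_le_iff₀ (by positivity)]
      have : (3373259426:ℝ) ≤ 3.14159265358979323846 * 2 ^ 30 := by norm_num
      nlinarith
    · have gc := hco.get (j := b + 1) (by omega) (by omega)
      have gc' := abs_le.mp gc
      push_cast at gc'
      have h3 : (rn1:ℝ) * 70368744177669 ≤ xb * 17592186044416 +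
          rn1 * (lget 128 co (b + 1 - j0) : ℝ) := by exact_mod_cast c2'
      have hr0 : (0:ℝ) ≤ rn1 := Nat.cast_nonneg _
      have h4 : (rn1:ℝ) * (lget 128 co (b + 1 - j0) : ℝ) ≤ rn1 * (5 + 2 ^ 46 +
          2 ^ 44 * Real.cos (((b:ℝ) + 1) * ((dn:ℝ) / 2 ^ 30))) := by
        apply mul_le_mul_of_nonneg_left _ hr0
        linarith [gc'.2]
      set cc := Real.cos (((b:ℝ) + 1) * ((dn:ℝ) / 2 ^ 30))
      have h5 : 0 ≤ (xb + rn1 * cc) * (2:ℝ) ^ 44 := by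
        have e1 : (2:ℝ) ^ 44 = 17592186044416 := by norm_num
        have e2 : (2:ℝ) ^ 46 = 70368744177664 := by norm_num
        rw [e1, e2] at h4
        rw [e1]
        linarith
      have h6 : (0:ℝ) < 2 ^ 44 := by positivity
      have h7 : 0 ≤ (xb:ℝ) + rn1 * cc := nonneg_of_mul_nonneg_left h5 h6
      have h8 : 0 ≤ ((xb:ℝ) + rn1 * cc) / 2 ^ 20 := by positivity
      have e3 : ((xb:ℝ) + rn1 * cc) / 2 ^ 20 = (xb:ℝ) / 2 ^ 20 + (rn1:ℝ) / 2 ^ 20 * cc := by ring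
      linarith

/-- range of the abscissa on the used part of the grid -/
theorem x_range {xL r1 δ xb : ℝ} {a b : ℕ} (hδ : 0 < δ) (haδ : (a:ℝ) * δ < Real.pi / 2)
    (ha : r1 * Real.cos (a * δ) ≤ xL) (hxL : xL ≤ 21 / 100) (hxL0 : 0 < xL) (hxb : xb ≤ 21 / 100)
    (hb4 : ((b:ℝ) + 1) * δ ≤ 4)
    (hx : r1 ≤ xb ∨ (((b:ℝ) + 1) * δ ≤ Real.pi ∧ -(r1 * Real.cos (((b:ℝ) + 1) * δ)) ≤ xb))
    (hxb0 : 0 ≤ xb) {r : ℝ} (hr0 : 0 ≤ r) (hr1 : r ≤ r1) {j : ℕ} (hj0 : a ≤ j) (hj1 : j ≤ b + 1) :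
    |r * Real.cos (j * δ)| ≤ 21 / 100 := by
  have hpi := Real.pi_pos
  have hpi3 := Real.pi_gt_three
  have hja : (a:ℝ) * δ ≤ j * δ := by
    have : (a:ℝ) ≤ j := by exact_mod_cast hj0
    gcongr
  have hjb : (j:ℝ) * δ ≤ ((b:ℝ) + 1) * δ := by
    have : (j:ℝ) ≤ b + 1 := by exact_mod_cast hj1
    gcongr
  have ha0 : 0 ≤ (a:ℝ) * δ := by positivity
  have hca : 0 ≤ Real.cos (a * δ) := Real.cos_nonneg_of_mem_Icc ⟨by linarith, haδ.le⟩
  rw [abs_le]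
  constructor
  · rcases hx with h | ⟨h1, h2⟩
    · have h3 := Real.neg_one_le_cos (j * δ)
      nlinarith
    · have h3 : Real.cos (((b:ℝ) + 1) * δ) ≤ Real.cos (j * δ) :=
        Real.cos_le_cos_of_nonneg_of_le_pi (by linarith) h1 hjb
      rcases le_total 0 (Real.cos (j * δ)) with h4 | h4
      · have : 0 ≤ r * Real.cos (j * δ) := mul_nonneg hr0 h4
        linarith
      · have h5 : Real.cos (((b:ℝ) + 1) * δ) ≤ 0 := h3.trans h4
        have h6 : r1 * Real.cos (((b:ℝ) + 1) * δ) ≤ r * Real.cos (((b:ℝ) + 1) * δ) :=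
          mul_le_mul_of_nonpos_right hr1 h5
        have h7 : r * Real.cos (((b:ℝ) + 1) * δ) ≤ r * Real.cos (j * δ) := by gcongr
        linarith
  · rcases le_total (j * δ) Real.pi with h1 | h1
    · have h3 : Real.cos (j * δ) ≤ Real.cos (a * δ) :=
        Real.cos_le_cos_of_nonneg_of_le_pi ha0 h1 hja
      have h4 : r * Real.cos (j * δ) ≤ r * Real.cos (a * δ) := by gcongr
      have h5 : r * Real.cos (a * δ) ≤ r1 * Real.cos (a * δ) := by gcongr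
      linarith
    · have h3 : Real.cos (j * δ) ≤ 0 :=
        Real.cos_nonpos_of_pi_div_two_le_of_le (by linarith) (by linarith)
      have h4 : r * Real.cos (j * δ) ≤ 0 := mul_nonpos_of_nonneg_of_nonpos hr0 h3
      linarith

theorem TT_close {D D' : Dat} {r vr vt δ w : ℝ} {a b : ℕ} (hδ : 0 < δ) (hab : a < b)
    (hw0 : 0 ≤ w) (hw1 : w ≤ δ) (hb4 : ((b:ℝ) + 1) * δ ≤ 4)
    (h : ∀ u, (u = vt ∨ u = -vt) → ∀ j : ℕ, a ≤ j → j ≤ b + 1 →
      |D.gs r vr u (Real.cos (j * δ)) (Real.sin (j * δ)) -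
        D'.gs r vr u (Real.cos (j * δ)) (Real.sin (j * δ))| ≤ 1 / 2 ^ 22) :
    TT (POS D r vr vt δ) δ a b w ≤ TT (POS D' r vr vt δ) δ a b w + 1 / 2 ^ 19 := by
  have h1 := TT_mono (A := POS D r vr vt δ) (A' := fun j => POS D' r vr vt δ j + 1 / 2 ^ 21) hδ hab
    hw0 hw1 (by
      intro j hj0 hj1
      have k1 := abs_le.mp (h vt (Or.inl rfl) j hj0 hj1)
      have k2 := abs_le.mp (h (-vt) (Or.inr rfl) j hj0 hj1)
      unfold POS
      have m1 : max 0 (D.gs r vr vt (Real.cos (j * δ)) (Real.sin (j * δ))) ≤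
          max 0 (D'.gs r vr vt (Real.cos (j * δ)) (Real.sin (j * δ))) + 1 / 2 ^ 22 := by
        apply max_le
        · have := le_max_left 0 (D'.gs r vr vt (Real.cos (j * δ)) (Real.sin (j * δ)))
          positivity
        · have := le_max_right 0 (D'.gs r vr vt (Real.cos (j * δ)) (Real.sin (j * δ)))
          linarith [k1.2]
      have m2 : max 0 (D.gs r vr (-vt) (Real.cos (j * δ)) (Real.sin (j * δ))) ≤
          max 0 (D'.gs r vr (-vt) (Real.cos (j * δ)) (Real.sin (j * δ))) + 1 / 2 ^ 22 := by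
        apply max_le
        · have := le_max_left 0 (D'.gs r vr (-vt) (Real.cos (j * δ)) (Real.sin (j * δ)))
          positivity
        · have := le_max_right 0 (D'.gs r vr (-vt) (Real.cos (j * δ)) (Real.sin (j * δ)))
          linarith [k2.2]
      have e1 : (1:ℝ) / 2 ^ 21 = 1 / 2 ^ 22 + 1 / 2 ^ 22 := by norm_num
      linarith)
  rw [TT_add_const _ hδ hab] at h1
  have h2 : ((b:ℝ) - a) * δ + w ≤ 4 := by
    have : 0 ≤ (a:ℝ) * δ := by positivity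
    linarith
  have h3 : (1:ℝ) / 2 ^ 21 * (((b:ℝ) - a) * δ + w) ≤ 1 / 2 ^ 21 * 4 := by gcongr
  have h4 : (1:ℝ) / 2 ^ 21 * 4 = 1 / 2 ^ 19 := by norm_num
  linarith

theorem pair_sound {D : Dat} {K : Cst} {V : ℝ} {g : Reg} (hK : CstOk D K) (hg : RegOk D V g)
    (hVV : V = 51 / 50) {dn j0 n nt co si rn m : ℕ} {c : Cell} (hdn : 0 < dn) (hdn2 : dn ≤ 2 ^ 30)
    (hco : CosT n (j0 * ((dn:ℝ) / 2 ^ 30)) ((dn:ℝ) / 2 ^ 30) co)
    (hsi : SinT n (j0 * ((dn:ℝ) / 2 ^ 30)) ((dn:ℝ) / 2 ^ 30) si)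
    (hrb1 : g.rb ≤ 2 ^ 20) (h : pairC K.nL K.N K.X1 g dn j0 n nt co si rn m c = true) :
    rn < c.rn ∧ Par.Ok ⟨c.a, c.b, c.P0, m, c.E⟩ dn j0 n nt rn ∧
      Par.Ok ⟨c.a, c.b, c.P1, c.m, c.E⟩ dn j0 n nt c.rn ∧
      ∀ vr vt : ℝ, 0 ≤ vt → vr ^ 2 + vt ^ 2 ≤ V ^ 2 →
        Par.Val ⟨c.a, c.b, c.P0, m, c.E⟩ (Dq D K.Lm K.C) dn rn vr vt →
        Par.Val ⟨c.a, c.b, c.P1, c.m, c.E⟩ (Dq D K.Lm K.C) dn c.rn vr vt →
        ∀ lam ∈ Icc (0:ℝ) 1, 0 < lin ((rn:ℝ) / 2 ^ 20) ((c.rn:ℝ) / 2 ^ 20) lam →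
          FF D (lin ((rn:ℝ) / 2 ^ 20) ((c.rn:ℝ) / 2 ^ 20) lam)
            (lin (-((m:ℝ) / 2 ^ 20)) (-((c.m:ℝ) / 2 ^ 20)) lam) (vr, vt) ≤ -((g.s:ℝ) / 2 ^ 40) := by
  obtain ⟨ra, rb, xb, KR, KT, LA, LE, SL, ep, s⟩ := g
  obtain ⟨a, b, P0, P1, k, E, rn1, m1⟩ := c
  simp only [pairC, seqN_eq] at h
  obtain ⟨d1, h⟩ := andB_eq h
  obtain ⟨d2, h⟩ := andB_eq h
  obtain ⟨d3, h⟩ := andB_eq h
  obtain ⟨d4, h⟩ := andB_eq h
  obtain ⟨d5, h⟩ := andB_eq h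
  obtain ⟨d6, h⟩ := andB_eq h
  obtain ⟨d7, h⟩ := andB_eq h
  obtain ⟨d8, h⟩ := andB_eq h
  obtain ⟨d9, h⟩ := andB_eq h
  obtain ⟨d10, h⟩ := andB_eq h
  obtain ⟨d11, h⟩ := andB_eq h
  obtain ⟨d12, h⟩ := andB_eq h
  obtain ⟨d13, h⟩ := andB_eq h
  obtain ⟨d14, h⟩ := andB_eq h
  obtain ⟨d15, h⟩ := andB_eq h
  obtain ⟨d16, d17⟩ := andB_eq h
  have d1 : ra ≤ rn := Nat.le_of_ble_eq_true d1
  have d2 : rn + 1 ≤ rn1 := Nat.le_of_ble_eq_true d2
  have d3 : rn1 ≤ rb := Nat.le_of_ble_eq_true d3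
  have d4 : j0 + k ≤ a := Nat.le_of_ble_eq_true d4
  have d5 : a + 1 ≤ b := Nat.le_of_ble_eq_true d5
  have d6 : b + 2 ≤ j0 + n := Nat.le_of_ble_eq_true d6
  have d7 : a + 1 ≤ nt := Nat.le_of_ble_eq_true d7
  have d8 : P1 ≤ P0 := Nat.le_of_ble_eq_true d8
  have d9 : b * dn ≤ P1 := Nat.le_of_ble_eq_true d9
  have d10 : P0 ≤ (b + 1) * dn := Nat.le_of_ble_eq_true d10
  have d11 : (b + 1) * dn ≤ 4294967296 := Nat.le_of_ble_eq_true d11
  have d12 : a * dn ≤ 1686629713 := Nat.le_of_ble_eq_true d12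
  have d13 : rn1 * K.N * (lget 128 co (a - j0) + 5) ≤ K.nL * 18446744073709551616 +
    rn1 * K.N * 70368744177664 := Nat.le_of_ble_eq_true d13
  have hpl := Real.pi_gt_d20
  have hpu := Real.pi_lt_d20
  have hNR : (0:ℝ) < K.N := by exact_mod_cast hK.hN
  set δ : ℝ := (dn:ℝ) / 2 ^ 30 with hδdef
  have hδ : 0 < δ := by
    have : (0:ℝ) < dn := by exact_mod_cast hdn
    positivity
  have hrlt : rn < rn1 := d2
  have hraok : a = 0 ∨ 131072 ≤ rn := by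
    cases a with
    | zero => exact Or.inl rfl
    | succ a' =>
      right
      obtain ⟨l1, -⟩ := andB_eq d14
      exact Nat.le_of_ble_eq_true l1
  have hr17 : a = 0 ∨ 2 ^ 17 ≤ rn := by
    rcases hraok with h0 | h0
    · exact Or.inl h0
    · exact Or.inr ((by norm_num : (2:ℕ) ^ 17 = 131072).trans_le h0)
  have hr17' : a = 0 ∨ 2 ^ 17 ≤ rn1 := by
    rcases hr17 with h0 | h0
    · exact Or.inl h0
    · exact Or.inr (h0.trans hrlt.le)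
  refine ⟨hrlt, ⟨by show j0 ≤ a; omega, by show a < b; omega, by show b + 1 < j0 + n; omega,
    d9.trans d8, d10, d11.trans (by norm_num), d7, d12.trans (by norm_num), hr17⟩,
    ⟨by show j0 ≤ a; omega, by show a < b; omega, by show b + 1 < j0 + n; omega,
    d9, d8.trans d10, d11.trans (by norm_num), d7, d12.trans (by norm_num), hr17'⟩, ?_⟩
  intro vr vt hvt hv v0 v1 lam hl hpos
  -- casts
  have q0 : (0:ℝ) ≤ rn := Nat.cast_nonneg _
  have q1 : (rn:ℝ) ≤ rn1 := by exact_mod_cast hrlt.le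
  have q2 : (P1:ℝ) ≤ P0 := by exact_mod_cast d8
  have q3 : (b:ℝ) * dn ≤ P1 := by exact_mod_cast d9
  have q4 : (P0:ℝ) ≤ (b + 1) * dn := by exact_mod_cast d10
  have haδ : (a:ℝ) * δ < Real.pi / 2 := by
    have h3 : (a:ℝ) * dn ≤ 1686629713 := by exact_mod_cast d12
    rw [hδdef, ← mul_div_assoc, div_lt_iff₀ (by positivity)]
    have : (1686629713:ℝ) < 3.14159265358979323846 / 2 * 2 ^ 30 := by norm_num
    nlinarith
  have gca := hco.get (j := a) (by omega) (by omega)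
  have gca' := abs_le.mp gca
  have e44 : (2:ℝ) ^ 44 = 17592186044416 := by norm_num
  have e46 : (2:ℝ) ^ 46 = 70368744177664 := by norm_num
  have hrN1 : (0:ℝ) ≤ rn1 * K.N := by positivity
  have hrN0 : (0:ℝ) ≤ rn * K.N := by positivity
  have hra : (rn1:ℝ) / 2 ^ 20 * Real.cos (a * δ) ≤ D.xL := by
    have h3 : (rn1:ℝ) * K.N * ((lget 128 co (a - j0) : ℝ) + 5) ≤ K.nL * 18446744073709551616 +
        rn1 * K.N * 70368744177664 := by exact_mod_cast d13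
    have h4 : (rn1:ℝ) * K.N * (2 ^ 44 * Real.cos (a * δ) + 2 ^ 46) ≤
        (rn1:ℝ) * K.N * ((lget 128 co (a - j0) : ℝ) + 5) := by
      apply mul_le_mul_of_nonneg_left _ hrN1
      linarith [gca'.1]
    rw [hK.hxL, le_div_iff₀ hNR]
    rw [e44, e46] at h4
    have e20 : (2:ℝ) ^ 20 = 1048576 := by norm_num
    rw [e20]
    linarith
  have hPs := outC_sound (ρ := D.ρ) hco hsi hK.hX1 (by omega) (by omega) hdn2 d8 d9 d10 d15
  have hx := xC_sound hco (by omega) (by omega) d16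
  obtain ⟨Kf, hS, hKR, hKT⟩ := hg.semi
  obtain ⟨Lf, hL, hLf⟩ := hg.lip
  have hdr0 : 0 ≤ (rn1:ℝ) / 2 ^ 20 - (rn:ℝ) / 2 ^ 20 := by
    rw [sub_nonneg]
    gcongr
  have G : Grid D ((rn:ℝ) / 2 ^ 20) ((rn1:ℝ) / 2 ^ 20) vr vt δ a b ((P0:ℝ) / 2 ^ 30)
      ((P1:ℝ) / 2 ^ 30) KR KT (2 * (LA * ((rn1:ℝ) / 2 ^ 20 - (rn:ℝ) / 2 ^ 20) + LE * δ)) := by
    apply grid_of_num hS hL hK.hxL0 (by positivity) hv hδ (by omega) haδ (by positivity)
      (by gcongr)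
    · show (ra:ℝ) / 2 ^ 20 ≤ (rn:ℝ) / 2 ^ 20
      have : (ra:ℝ) ≤ rn := by exact_mod_cast d1
      gcongr
    · show (rn1:ℝ) / 2 ^ 20 ≤ (rb:ℝ) / 2 ^ 20
      have : (rn1:ℝ) ≤ rb := by exact_mod_cast d3
      gcongr
    · gcongr
    · rw [hδdef, ← mul_div_assoc]
      gcongr
    · rw [hδdef, ← mul_div_assoc]
      gcongr
    · exact hra
    · exact hPs
    · refine ⟨?_, hx⟩
      have h3 : ((b:ℝ) + 1) * dn ≤ 4294967296 := by exact_mod_cast d11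
      rw [hδdef, ← mul_div_assoc, div_le_iff₀ (by positivity)]
      refine h3.trans (by norm_num)
    · exact hKR
    · positivity
    · exact hKT
    · positivity
    · have := hLf ((rn1:ℝ) / 2 ^ 20 - (rn:ℝ) / 2 ^ 20) δ hdr0 hδ.le
      show 2 * Lf ((rn1:ℝ) / 2 ^ 20 - (rn:ℝ) / 2 ^ 20) δ ≤ _
      have e1 : ((Reg.mk ra rb xb KR KT LA LE SL ep s).LA : ℝ) = LA := rfl
      have e2 : ((Reg.mk ra rb xb KR KT LA LE SL ep s).LE : ℝ) = LE := rfl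
      rw [e1, e2] at this
      linarith
    · positivity
  -- error budget
  have herr : (2 * ((SL:ℝ) / 2 ^ 40) * (k * δ) + 2 * ((P0:ℝ) / 2 ^ 30 - a * δ) *
      ((KR:ℝ) * ((rn1:ℝ) / 2 ^ 20 - (rn:ℝ) / 2 ^ 20) ^ 2 / 8 + KT * δ ^ 2 / 8) +
      ((P0:ℝ) / 2 ^ 30 - (P1:ℝ) / 2 ^ 30) *
        (2 * (LA * ((rn1:ℝ) / 2 ^ 20 - (rn:ℝ) / 2 ^ 20) + LE * δ)) / 4 +
      Real.pi * max 0 (-((m:ℝ) / 2 ^ 20) - -((m1:ℝ) / 2 ^ 20)) *
        ((rn1:ℝ) / 2 ^ 20 - (rn:ℝ) / 2 ^ 20) / 4) ≤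
      (E:ℝ) / 2 ^ 40 - 1 / 2 ^ 17 - (s:ℝ) / 2 ^ 40 := by
    have hE : SL * k * (dn * 8388608) + (P0 - a * dn) * (KR * ((rn1 - rn) * (rn1 - rn)) * 1048576 +
        KT * (dn * dn)) + ((P0 - P1) * (LA * (rn1 - rn) * 1024 + LE * dn) * 2147483648 +
        3537118876014221 * (m1 - m) * (rn1 - rn)) + (37778931862957161709568 + s * 4503599627370496) ≤
        E * 4503599627370496 := Nat.le_of_ble_eq_true d17
    have hPa : a * dn ≤ P0 := by
      have : a * dn ≤ b * dn := Nat.mul_le_mul_right _ (by omega)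
      omega
    have hER : ((SL * k * (dn * 8388608) + (P0 - a * dn) * (KR * ((rn1 - rn) * (rn1 - rn)) * 1048576 +
        KT * (dn * dn)) + ((P0 - P1) * (LA * (rn1 - rn) * 1024 + LE * dn) * 2147483648 +
        3537118876014221 * (m1 - m) * (rn1 - rn)) + (37778931862957161709568 + s * 4503599627370496) :
        ℕ) : ℝ) ≤ ((E * 4503599627370496 : ℕ) : ℝ) := by exact_mod_cast hE
    push_cast [Nat.cast_sub hrlt.le, Nat.cast_sub d8, Nat.cast_sub hPa] at hER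
    have hmm : ((m1 - m : ℕ) : ℝ) = max 0 ((m1:ℝ) - m) := by
      rcases le_total m m1 with h5 | h5
      · rw [Nat.cast_sub h5, max_eq_right]
        have : (m:ℝ) ≤ m1 := by exact_mod_cast h5
        linarith
      · rw [Nat.sub_eq_zero_of_le h5, max_eq_left]
        · simp
        · have : (m1:ℝ) ≤ m := by exact_mod_cast h5
          linarith
    rw [hmm] at hER
    have hmax : max 0 (-((m:ℝ) / 2 ^ 20) - -((m1:ℝ) / 2 ^ 20)) = max 0 ((m1:ℝ) - m) / 2 ^ 20 := by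
      have e1 : -((m:ℝ) / 2 ^ 20) - -((m1:ℝ) / 2 ^ 20) = ((m1:ℝ) - m) / 2 ^ 20 := by ring
      rw [e1]
      rcases le_total 0 ((m1:ℝ) - m) with h5 | h5
      · rw [max_eq_right h5, max_eq_right (by positivity)]
      · rw [max_eq_left h5, max_eq_left (div_nonpos_of_nonpos_of_nonneg h5 (by positivity)),
          zero_div]
    rw [hmax]
    set μ := max 0 ((m1:ℝ) - m) with hμ
    have hμ0 : 0 ≤ μ := le_max_left _ _
    have hpiμ : Real.pi * (μ * ((rn1:ℝ) - rn)) ≤ 3537118876014221 / 2 ^ 50 * (μ * ((rn1:ℝ) - rn)) := by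
      have h6 : Real.pi ≤ 3537118876014221 / 2 ^ 50 := by
        have : (3.14159265358979323847:ℝ) ≤ 3537118876014221 / 2 ^ 50 := by norm_num
        linarith
      have h7 : 0 ≤ μ * ((rn1:ℝ) - rn) := mul_nonneg hμ0 (by linarith)
      gcongr
    have e1 : (2 * ((SL:ℝ) / 2 ^ 40) * (k * δ) + 2 * ((P0:ℝ) / 2 ^ 30 - a * δ) *
      ((KR:ℝ) * ((rn1:ℝ) / 2 ^ 20 - (rn:ℝ) / 2 ^ 20) ^ 2 / 8 + KT * δ ^ 2 / 8) +
      ((P0:ℝ) / 2 ^ 30 - (P1:ℝ) / 2 ^ 30) *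
        (2 * (LA * ((rn1:ℝ) / 2 ^ 20 - (rn:ℝ) / 2 ^ 20) + LE * δ)) / 4 +
      Real.pi * (μ / 2 ^ 20) * ((rn1:ℝ) / 2 ^ 20 - (rn:ℝ) / 2 ^ 20) / 4) =
      ((SL:ℝ) * k * (dn * 8388608) + (P0 - a * dn) * (KR * (((rn1:ℝ) - rn) * (rn1 - rn)) * 1048576 +
        KT * (dn * dn)) + (P0 - P1) * (LA * ((rn1:ℝ) - rn) * 1024 + LE * dn) * 2147483648) / 2 ^ 92 +
        Real.pi * (μ * ((rn1:ℝ) - rn)) / 2 ^ 42 := by
      rw [hδdef]
      field_simp
      norm_num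
      ring
    rw [e1]
    have e2 : ((SL:ℝ) * k * (dn * 8388608) + (P0 - a * dn) * (KR * (((rn1:ℝ) - rn) * (rn1 - rn)) *
        1048576 + KT * (dn * dn)) + (P0 - P1) * (LA * ((rn1:ℝ) - rn) * 1024 + LE * dn) *
        2147483648) / 2 ^ 92 + (3537118876014221 / 2 ^ 50 * (μ * ((rn1:ℝ) - rn))) / 2 ^ 42 +
        1 / 2 ^ 17 + (s:ℝ) / 2 ^ 40 ≤ (E:ℝ) / 2 ^ 40 := by
      have e3 : ((SL:ℝ) * k * (dn * 8388608) + (P0 - a * dn) * (KR * (((rn1:ℝ) - rn) * (rn1 - rn)) *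
        1048576 + KT * (dn * dn)) + (P0 - P1) * (LA * ((rn1:ℝ) - rn) * 1024 + LE * dn) *
        2147483648) / 2 ^ 92 + (3537118876014221 / 2 ^ 50 * (μ * ((rn1:ℝ) - rn))) / 2 ^ 42 +
        1 / 2 ^ 17 + (s:ℝ) / 2 ^ 40 =
        ((SL:ℝ) * k * (dn * 8388608) + (P0 - a * dn) * (KR * (((rn1:ℝ) - rn) * (rn1 - rn)) * 1048576 +
        KT * (dn * dn)) + ((P0 - P1) * (LA * ((rn1:ℝ) - rn) * 1024 + LE * dn) * 2147483648 +
        3537118876014221 * μ * ((rn1:ℝ) - rn)) +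
        (37778931862957161709568 + s * 4503599627370496)) / 2 ^ 92 := by
        field_simp
        norm_num
        ring
      have e4 : (E:ℝ) / 2 ^ 40 = (E:ℝ) * 4503599627370496 / 2 ^ 92 := by
        field_simp
        norm_num
      rw [e3, e4]
      gcongr
    have e5 : Real.pi * (μ * ((rn1:ℝ) - rn)) / 2 ^ 42 ≤
        (3537118876014221 / 2 ^ 50 * (μ * ((rn1:ℝ) - rn))) / 2 ^ 42 := by gcongr
    linarith
  have w0 : (P0:ℝ) / 2 ^ 30 - b * δ = (P0:ℝ) / 2 ^ 30 - b * ((dn:ℝ) / 2 ^ 30) := rfl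
  unfold Par.Val at v0 v1
  simp only at v0 v1
  rw [← hδdef] at v0 v1
  -- passage to the exact certificate
  have hb4 : ((b:ℝ) + 1) * δ ≤ 4 := by
    have h3 : ((b:ℝ) + 1) * dn ≤ 4294967296 := by exact_mod_cast d11
    rw [hδdef, ← mul_div_assoc, div_le_iff₀ (by positivity)]
    refine h3.trans (by norm_num)
  have hrb1' : (rn1:ℝ) / 2 ^ 20 ≤ 1 := by
    rw [div_le_one (by positivity)]
    have : rn1 ≤ 2 ^ 20 := d3.trans hrb1
    exact_mod_cast this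
  have hrr : (rn:ℝ) / 2 ^ 20 ≤ (rn1:ℝ) / 2 ^ 20 := by gcongr
  have hconv : ∀ r : ℝ, 0 ≤ r → r ≤ (rn1:ℝ) / 2 ^ 20 → ∀ u, (u = vt ∨ u = -vt) → ∀ j : ℕ,
      a ≤ j → j ≤ b + 1 → |D.gs r vr u (Real.cos (j * δ)) (Real.sin (j * δ)) -
        (Dq D K.Lm K.C).gs r vr u (Real.cos (j * δ)) (Real.sin (j * δ))| ≤ 1 / 2 ^ 22 := by
    intro r hr0 hr1 u hu j hj0 hj1
    apply hK.close r vr u _ _ hr0 (hr1.trans hrb1')
    · rw [← hVV]
      rcases hu with rfl | rfl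
      · exact hv
      · rw [neg_sq]
        exact hv
    · exact Real.cos_sq_add_sin_sq _
    · exact x_range hδ haδ hra hK.hxL1 hK.hxL0 hg.xb1 hb4 hx (by positivity) hr0 hr1 hj0 hj1
  have w00 : 0 ≤ (P0:ℝ) / 2 ^ 30 - b * δ := by
    rw [sub_nonneg, hδdef, ← mul_div_assoc]
    have : (b:ℝ) * dn ≤ P0 := q3.trans q2
    gcongr
  have w01 : (P0:ℝ) / 2 ^ 30 - b * δ ≤ δ := by
    have : (P0:ℝ) / 2 ^ 30 ≤ (b + 1) * δ := by
      rw [hδdef, ← mul_div_assoc]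
      gcongr
    linarith
  have w10 : 0 ≤ (P1:ℝ) / 2 ^ 30 - b * δ := by
    rw [sub_nonneg, hδdef, ← mul_div_assoc]
    gcongr
  have w11 : (P1:ℝ) / 2 ^ 30 - b * δ ≤ δ := by
    have : (P1:ℝ) / 2 ^ 30 ≤ (P0:ℝ) / 2 ^ 30 := by gcongr
    linarith
  have t0 := TT_close hδ (by omega : a < b) w00 w01 hb4
    (hconv _ (by positivity) hrr)
  have t1 := TT_close hδ (by omega : a < b) w10 w11 hb4
    (hconv _ (by positivity) le_rfl)
  have e19 : (3:ℝ) / 2 ^ 19 + 1 / 2 ^ 19 = 1 / 2 ^ 17 := by norm_num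
  rcases Nat.eq_zero_or_pos a with ha0 | ha0
  · -- no left region
    subst ha0
    rw [HT_zero, zero_div] at v0 v1
    have herr' : 2 * ((P0:ℝ) / 2 ^ 30) *
      ((KR:ℝ) * ((rn1:ℝ) / 2 ^ 20 - (rn:ℝ) / 2 ^ 20) ^ 2 / 8 + KT * δ ^ 2 / 8) +
      ((P0:ℝ) / 2 ^ 30 - (P1:ℝ) / 2 ^ 30) *
        (2 * (LA * ((rn1:ℝ) / 2 ^ 20 - (rn:ℝ) / 2 ^ 20) + LE * δ)) / 4 +
      Real.pi * max 0 (-((m:ℝ) / 2 ^ 20) - -((m1:ℝ) / 2 ^ 20)) *
        ((rn1:ℝ) / 2 ^ 20 - (rn:ℝ) / 2 ^ 20) / 4 ≤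
      (E:ℝ) / 2 ^ 40 - 1 / 2 ^ 17 - (s:ℝ) / 2 ^ 40 := by
      have : 0 ≤ 2 * ((SL:ℝ) / 2 ^ 40) * (k * δ) := by positivity
      simp only [Nat.cast_zero, zero_mul, sub_zero] at herr
      linarith
    refine grid_chord_zero_s (s := (s:ℝ) / 2 ^ 40) G hK.hρ hK.hxL0 herr' ?_ ?_ hl hpos
    · linarith
    · linarith
  · obtain ⟨a', rfl⟩ : ∃ a', a = a' + 1 := ⟨a - 1, by omega⟩
    obtain ⟨l1, l2⟩ := andB_eq d14
    obtain ⟨l2, l3⟩ := andB_eq l2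
    have l1 : 131072 ≤ rn := Nat.le_of_ble_eq_true l1
    have l2 : K.nL * 18446744073709551616 + rn * K.N * 70368744177669 ≤
      rn * K.N * lget 128 co (a' + 1 - j0) + ep * K.N * 16777216 := Nat.le_of_ble_eq_true l2
    have hr0p : 0 < (rn:ℝ) / 2 ^ 20 := by
      have : (131072:ℝ) ≤ rn := by exact_mod_cast l1
      positivity
    have he0 : D.xL - (ep:ℝ) / 2 ^ 40 ≤ (rn:ℝ) / 2 ^ 20 * Real.cos (((a' + 1 : ℕ) : ℝ) * δ) := by
      have h3 : (K.nL:ℝ) * 18446744073709551616 + rn * K.N * 70368744177669 ≤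
          rn * K.N * (lget 128 co (a' + 1 - j0) : ℝ) + ep * K.N * 16777216 := by exact_mod_cast l2
      have h4 : (rn:ℝ) * K.N * (lget 128 co (a' + 1 - j0) : ℝ) ≤
          (rn:ℝ) * K.N * (5 + 2 ^ 46 + 2 ^ 44 * Real.cos (((a' + 1 : ℕ) : ℝ) * δ)) := by
        apply mul_le_mul_of_nonneg_left _ hrN0
        linarith [gca'.2]
      rw [hK.hxL]
      rw [e44, e46] at h4
      set cc := Real.cos (((a' + 1 : ℕ) : ℝ) * δ)
      have h5 : (K.nL:ℝ) * 18446744073709551616 ≤ rn * K.N * (17592186044416 * cc) +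
          ep * K.N * 16777216 := by
        linarith
      rw [sub_le_iff_le_add, div_le_iff₀ hNR]
      have h6 : (K.nL:ℝ) ≤ (rn * K.N * (17592186044416 * cc) + ep * K.N * 16777216) /
          18446744073709551616 := by
        rw [le_div_iff₀ (by norm_num)]
        exact h5
      refine h6.trans (le_of_eq ?_)
      field_simp
      norm_num
      try ring
    have hf : ∀ r ∈ Icc ((rn:ℝ) / 2 ^ 20) ((rn1:ℝ) / 2 ^ 20), ∀ w, (w = vt ∨ w = -vt) →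
        ∀ θ ∈ Icc 0 (((a' + 1 : ℕ) : ℝ) * δ), r * Real.cos θ ≤ D.xL →
        max 0 (D.gs r vr w (Real.cos θ) (Real.sin θ)) ≤
          max 0 ((-vr + w * Real.tan θ) / r) + (SL:ℝ) / 2 ^ 40 := by
      intro r hr w hw θ hθ hle
      have hrp : 0 < r := lt_of_lt_of_le hr0p hr.1
      have hcos : Real.cos (((a' + 1 : ℕ) : ℝ) * δ) ≤ Real.cos θ :=
        Real.cos_le_cos_of_nonneg_of_le_pi hθ.1 (by linarith) hθ.2
      have hca : 0 ≤ Real.cos (((a' + 1 : ℕ) : ℝ) * δ) :=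
        Real.cos_nonneg_of_mem_Icc ⟨by
          have : 0 ≤ ((a' + 1 : ℕ) : ℝ) * δ := by positivity
          linarith, haδ.le⟩
      have k1 : (rn:ℝ) / 2 ^ 20 * Real.cos (((a' + 1 : ℕ) : ℝ) * δ) ≤ r * Real.cos θ := by
        have h3 : (rn:ℝ) / 2 ^ 20 * Real.cos (((a' + 1 : ℕ) : ℝ) * δ) ≤
            r * Real.cos (((a' + 1 : ℕ) : ℝ) * δ) := by
          have := hr.1
          gcongr
        have h4 : r * Real.cos (((a' + 1 : ℕ) : ℝ) * δ) ≤ r * Real.cos θ := by gcongr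
        linarith
      apply hg.sliv r ⟨?_, ?_⟩ hrp vr w ?_ θ ⟨hθ.1, hθ.2.trans haδ.le⟩ (he0.trans k1) hle
      · refine le_trans ?_ hr.1
        show (ra:ℝ) / 2 ^ 20 ≤ (rn:ℝ) / 2 ^ 20
        have : (ra:ℝ) ≤ rn := by exact_mod_cast d1
        gcongr
      · refine hr.2.trans ?_
        show (rn1:ℝ) / 2 ^ 20 ≤ (rb:ℝ) / 2 ^ 20
        have : (rn1:ℝ) ≤ rb := by exact_mod_cast d3
        gcongr
      · rcases hw with rfl | rfl
        · exact hv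
        · rw [neg_sq]
          exact hv
    have hw : (k:ℝ) * δ < ((a' + 1 : ℕ) : ℝ) * δ →
        D.xL < (rn:ℝ) / 2 ^ 20 * Real.cos (((a' + 1 : ℕ) : ℝ) * δ - k * δ) := by
      intro hlt
      have hk1 : k < a' + 1 := by
        have : (k:ℝ) < ((a' + 1 : ℕ) : ℝ) := lt_of_mul_lt_mul_right hlt hδ.le
        exact_mod_cast this
      rcases orB_eq l3 with l4 | l4
      · have : k = a' + 1 := Nat.eq_of_beq_eq_true l4
        omega
      · have l4 : K.nL * 18446744073709551616 + rn * K.N * 70368744177669 + 1 ≤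
          rn * K.N * lget 128 co (a' + 1 - k - j0) := Nat.le_of_ble_eq_true l4
        have gk := hco.get (j := a' + 1 - k) (by omega) (by omega)
        have gk' := abs_le.mp gk
        have e1 : (((a' + 1 : ℕ) : ℝ) * δ - k * δ) = ((a' + 1 - k : ℕ) : ℝ) * δ := by
          rw [Nat.cast_sub hk1.le]
          ring
        rw [e1]
        have h3 : (K.nL:ℝ) * 18446744073709551616 + rn * K.N * 70368744177669 + 1 ≤
            rn * K.N * (lget 128 co (a' + 1 - k - j0) : ℝ) := by exact_mod_cast l4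
        have h4 : (rn:ℝ) * K.N * (lget 128 co (a' + 1 - k - j0) : ℝ) ≤
            (rn:ℝ) * K.N * (5 + 2 ^ 46 + 2 ^ 44 * Real.cos (((a' + 1 - k : ℕ) : ℝ) * δ)) := by
          apply mul_le_mul_of_nonneg_left _ hrN0
          linarith [gk'.2]
        rw [hK.hxL, div_lt_iff₀ hNR]
        rw [e44, e46] at h4
        set cc := Real.cos (((a' + 1 - k : ℕ) : ℝ) * δ)
        have h5 : (K.nL:ℝ) * 18446744073709551616 < rn * K.N * (17592186044416 * cc) := by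
          linarith
        have h6 : (K.nL:ℝ) < (rn * K.N * (17592186044416 * cc)) / 18446744073709551616 := by
          rw [lt_div_iff₀ (by norm_num)]
          exact h5
        refine h6.trans_le (le_of_eq ?_)
        field_simp
        norm_num
        try ring
    have hH := HL_grid (vr := vr) hvt hδ.le (a' + 1) haδ
    refine grid_chord_s (s := (s:ℝ) / 2 ^ 40) (H := HT vr vt δ (a' + 1))
      (E := (E:ℝ) / 2 ^ 40 - 1 / 2 ^ 17 - (s:ℝ) / 2 ^ 40) G hK.hρ hK.hxL0 hr0p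
      (sl := (SL:ℝ) / 2 ^ 40)
      (wd := k * δ) (by positivity) (by positivity) hw hf hH ?_ ?_ ?_ hl
    · linarith
    · linarith
    · linarith

end Pool.Agent.H65.Shore
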