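import Mathlib
import Pool.Agent.H65.Shore.PairS
import Pool.Agent.H65.Shore.PowTab
import Pool.Agent.H65.Shore.Base

/-!
The check of a chain of rows, and its soundness.
-/

namespace Pool.Agent.H65.Shore

open Set
open Pool.Agent.H44.Shore Pool.Agent.H44.Shore.MBC

def rowV (K : Cst) (dn j0 o : ℕ) (Ps Qs : List ℤ) (rn : ℕ) (ps : List Par) (xs : List Vx) : Bool :=
  rowTab K.Lm K.C K.on K.od o Ps Qs rn fun B Cc => vLoop dn j0 o B Cc rn ps xs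

def chainV (K : Cst) (g : Reg) (dn j0 n nt o co si : ℕ) (Ps Qs : List ℤ) (xs : List Vx) :
    List Par → ℕ → ℕ → List Cell → Bool
  | ps, rn, m, [] => andB (Nat.ble rn 1048576) (rowV K dn j0 o Ps Qs rn ps xs)
  | ps, rn, m, c :: cs =>
    andB (Nat.ble rn 1048576) (
    andB (pairC K.nL K.N K.X1 g dn j0 n nt co si rn m c) (
    andB (rowV K dn j0 o Ps Qs rn (Par.mk c.a c.b c.P0 m c.E :: ps) xs)
      (chainV K g dn j0 n nt o co si Ps Qs xs [Par.mk c.a c.b c.P1 c.m c.E] c.rn c.m cs)))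

/-- the conclusion for a chain of cells -/
def ChainF (D : Dat) (s : ℝ) (vs : List (ℤ × ℕ)) : ℕ → ℕ → List Cell → Prop
  | _, _, [] => True
  | rn, m, c :: cs => (rn < c.rn ∧ ∀ lam ∈ Icc (0:ℝ) 1,
      0 < lin ((rn:ℝ) / 2 ^ 20) ((c.rn:ℝ) / 2 ^ 20) lam → ∀ p ∈ vs,
      FF D (lin ((rn:ℝ) / 2 ^ 20) ((c.rn:ℝ) / 2 ^ 20) lam)
        (lin (-((m:ℝ) / 2 ^ 20)) (-((c.m:ℝ) / 2 ^ 20)) lam)
        ((p.1:ℝ) / 2 ^ 20, (p.2:ℝ) / 2 ^ 20) ≤ -s) ∧ ChainF D s vs c.rn c.m cs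

/-- all vertices have length at most `51 / 50` -/
def vsC : List (ℤ × ℕ) → Bool
  | [] => true
  | p :: vs => andB (Nat.ble (Nat.mul 2500 (Nat.add (Nat.mul (Int.natAbs p.1) (Int.natAbs p.1))
      (Nat.mul p.2 p.2))) 2859829743845376) (vsC vs)

theorem vsC_sound {vs : List (ℤ × ℕ)} (h : vsC vs = true) : ∀ p ∈ vs,
    ((p.1:ℝ) / 2 ^ 20) ^ 2 + ((p.2:ℝ) / 2 ^ 20) ^ 2 ≤ (51 / 50) ^ 2 := by
  induction vs with
  | nil => simp
  | cons q vs ih =>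
    obtain ⟨h1, h2⟩ := andB_eq h
    intro p hp
    rcases List.mem_cons.mp hp with rfl | hp
    · have h3 : 2500 * (p.1.natAbs * p.1.natAbs + p.2 * p.2) ≤ 2859829743845376 :=
        Nat.le_of_ble_eq_true h1
      have h4 : (2500:ℝ) * ((p.1.natAbs:ℝ) * p.1.natAbs + p.2 * p.2) ≤ 2859829743845376 := by
        exact_mod_cast h3
      have e1 : (p.1.natAbs:ℝ) * p.1.natAbs = (p.1:ℝ) * p.1 := by
        rw [Nat.cast_natAbs]
        push_cast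
        exact abs_mul_abs_self _
      rw [e1] at h4
      have e2 : ((p.1:ℝ) / 2 ^ 20) ^ 2 + ((p.2:ℝ) / 2 ^ 20) ^ 2 =
          ((p.1:ℝ) * p.1 + p.2 * p.2) / 2 ^ 40 := by
        field_simp
      rw [e2, div_le_iff₀ (by positivity)]
      have : (51 / 50 : ℝ) ^ 2 * 2 ^ 40 = 2859829743845376 / 2500 := by norm_num
      rw [this]
      linarith
    · exact ih h2 p hp

theorem rowV_sound {D : Dat} {K : Cst} (hK : CstOk D K) {dn j0 n nt rn : ℕ} {Ps Qs : List ℤ}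
    (hn : n ≤ 2048) (hnt : nt ≤ 2048) (hdn : 0 < dn) (hrn : rn ≤ 2 ^ 20)
    (hP : LAs 128 n 5 (2 ^ 46) Ps (hcos ((j0:ℝ) * ((dn:ℝ) / 2 ^ 30)) ((dn:ℝ) / 2 ^ 30)))
    (hQ : LAs 128 n 5 (2 ^ 46) Qs (hsin ((j0:ℝ) * ((dn:ℝ) / 2 ^ 30)) ((dn:ℝ) / 2 ^ 30)))
    (hP8 : Ps.length = 8) (hQ7 : Qs.length = 7)
    {ps : List Par} (hps : ∀ p ∈ ps, p.Ok dn j0 n nt rn) {xs : List Vx}
    (hxs : ∀ x ∈ xs, x.Ok nt ((dn:ℝ) / 2 ^ 30))
    (h : rowV K dn j0 (ones 128 n) Ps Qs rn ps xs = true) :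
    ∀ x ∈ xs, ∀ p ∈ ps, p.Val (Dq D K.Lm K.C) dn rn ((x.v:ℝ) / 2 ^ 20) ((x.t:ℝ) / 2 ^ 20) := by
  obtain ⟨B, Cc, hR, h2⟩ := rowTab_sound (apx_q D hK.l5 hK.l8 hK.l1 (C := K.C)) (by positivity)
    hK.hod hK.hon hK.ho hK.hrB2 hrn hP hQ hP8 hQ7 h
  exact vLoop_sound hR hn hnt hdn hrn hps hxs h2

theorem chainV_sound {D : Dat} {K : Cst} {g : Reg} (hK : CstOk D K) (hg : RegOk D (51 / 50) g)
    {dn j0 n nt co si : ℕ} {Ps Qs : List ℤ} (hrb1 : g.rb ≤ 2 ^ 20)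
    (hn : n ≤ 2048) (hnt : nt ≤ 2048) (hdn : 0 < dn) (hdn2 : dn ≤ 2 ^ 30)
    (hP : LAs 128 n 5 (2 ^ 46) Ps (hcos ((j0:ℝ) * ((dn:ℝ) / 2 ^ 30)) ((dn:ℝ) / 2 ^ 30)))
    (hQ : LAs 128 n 5 (2 ^ 46) Qs (hsin ((j0:ℝ) * ((dn:ℝ) / 2 ^ 30)) ((dn:ℝ) / 2 ^ 30)))
    (hP8 : Ps.length = 8) (hQ7 : Qs.length = 7)
    (hco : CosT n (j0 * ((dn:ℝ) / 2 ^ 30)) ((dn:ℝ) / 2 ^ 30) co)
    (hsi : SinT n (j0 * ((dn:ℝ) / 2 ^ 30)) ((dn:ℝ) / 2 ^ 30) si)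
    {xs : List Vx} (hxs : ∀ x ∈ xs, x.Ok nt ((dn:ℝ) / 2 ^ 30))
    {vs : List (ℤ × ℕ)} (hvs : ∀ p ∈ vs, ∃ x ∈ xs, x.v = p.1 ∧ x.t = p.2)
    (hvs2 : vsC vs = true) (cs : List Cell) :
    ∀ {ps : List Par} {rn m : ℕ}, (∀ p ∈ ps, p.Ok dn j0 n nt rn) →
      chainV K g dn j0 n nt (ones 128 n) co si Ps Qs xs ps rn m cs = true →
      (∀ x ∈ xs, ∀ p ∈ ps, p.Val (Dq D K.Lm K.C) dn rn ((x.v:ℝ) / 2 ^ 20) ((x.t:ℝ) / 2 ^ 20)) ∧
        ChainF D ((g.s:ℝ) / 2 ^ 40) vs rn m cs := by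
  induction cs with
  | nil =>
    intro ps rn m hps h
    obtain ⟨h0, h⟩ := andB_eq h
    have h0' : rn ≤ 2 ^ 20 := (Nat.le_of_ble_eq_true h0).trans (by norm_num)
    exact ⟨rowV_sound hK hn hnt hdn h0' hP hQ hP8 hQ7 hps hxs h, trivial⟩
  | cons c cs ih =>
    intro ps rn m hps h
    obtain ⟨h0, h⟩ := andB_eq h
    obtain ⟨h1, h⟩ := andB_eq h
    obtain ⟨h2, h3⟩ := andB_eq h
    have h0' : rn ≤ 2 ^ 20 := (Nat.le_of_ble_eq_true h0).trans (by norm_num)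
    obtain ⟨k1, k2, k3, k4⟩ := pair_sound hK hg rfl hdn hdn2 hco hsi hrb1 h1
    have r1 := rowV_sound hK hn hnt hdn h0' hP hQ hP8 hQ7
      (ps := Par.mk c.a c.b c.P0 m c.E :: ps) (by
        intro p hp
        rcases List.mem_cons.mp hp with rfl | hp
        · exact k2
        · exact hps p hp) hxs h2
    obtain ⟨r2, r3⟩ := ih (ps := [Par.mk c.a c.b c.P1 c.m c.E]) (by
        intro p hp
        rw [List.mem_singleton] at hp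
        rw [hp]
        exact k3) h3
    refine ⟨fun x hx p hp => r1 x hx p (List.mem_cons_of_mem _ hp), ⟨k1, ?_⟩, r3⟩
    intro lam hl hpos p hp
    obtain ⟨x, hx, hx1, hx2⟩ := hvs p hp
    have v0 := r1 x hx _ (List.mem_cons_self)
    have v1 := r2 x hx _ (List.mem_singleton_self _)
    rw [hx1, hx2] at v0 v1
    exact k4 _ _ (by positivity) (vsC_sound hvs2 p hp) v0 v1 lam hl hpos

/-- data of a chain -/
structure ChD where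
  dn : ℕ
  bits : List Bool
  m2 : ℕ
  nt : ℕ
  g : Reg
  rn : ℕ
  m : ℕ
  cells : List Cell
  vs : List (ℤ × ℕ)

def csTab (o : ℕ) (Ps Qs : List ℤ) (k : ℕ → ℕ → Bool) : Bool :=
  match Ps, Qs with
  | _ :: p :: _, q :: _ =>
    seqN (offs 70368744177664 o p) fun co => seqN (offs 70368744177664 o q) fun si => k co si
  | _, _ => false

def tabs (dn : ℕ) (bits : List Bool) (m2 nt : ℕ) (vs : List (ℤ × ℕ))
    (k : ℕ → ℕ → List ℤ → List ℤ → ℕ → ℕ → List Vx → Bool) : Bool :=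
  andB (Nat.ble 1 dn) (andB (Nat.ble dn 8388608) (andB (Nat.ble m2 11) (andB (Nat.ble nt 2048) (
  andB (Nat.ble (Nat.mul (Nat.sub nt 1) dn) 1686629713) (andB (Nat.ble 1 nt) (
  seqN (cosN dn) fun cd => seqN (sinN dn) fun sd =>
  rotPow (Int.ofNat cd) (Int.ofNat sd) 5 bits 0 1152921504606846976 0 0 fun j0 c s e =>
  fourTab 128 m2 (Int.ofNat cd) (Int.ofNat sd) 5 c s e 7 (Int.ofNat cd) (Int.ofNat sd) 5 c s e [] []
    fun Fs Gs o =>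
  powTab 128 o Fs Gs fun Ps Qs =>
  csTab o Ps Qs fun co si =>
  tanTab 128 cd sd 5 nt 1152921504606846976 0 0 1 0 fun T =>
  seqN (Nat.div (Nat.sub (Nat.pow 2 (Nat.mul 128 nt)) 1) (Nat.sub (Nat.pow 2 128) 1)) fun ot =>
  hTabs ot T vs [] fun xs => k j0 o Ps Qs co si xs))))))

def chainAll (K : Cst) (ch : ChD) : Bool :=
  match ch with
  | ChD.mk dn bits m2 nt g rn m cells vs =>
    andB (vsC vs) (andB (Nat.ble g.rb 1048576) (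
    tabs dn bits m2 nt vs fun j0 o Ps Qs co si xs =>
      chainV K g dn j0 (Nat.pow 2 m2) nt o co si Ps Qs xs [] rn m cells))

theorem csTab_sound {n : ℕ} {θ0 δ : ℝ} {Ps Qs : List ℤ} (hP : LAs 128 n 5 (2 ^ 46) Ps (hcos θ0 δ))
    (hQ : LAs 128 n 5 (2 ^ 46) Qs (hsin θ0 δ)) {k : ℕ → ℕ → Bool}
    (h : csTab (ones 128 n) Ps Qs k = true) :
    ∃ co si, CosT n θ0 δ co ∧ SinT n θ0 δ si ∧ k co si = true := by
  unfold csTab at h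
  split at h
  · rename_i p0 p1 ps q qs
    simp only [seqN_eq] at h
    refine ⟨_, _, ?_, ?_, h⟩
    · obtain ⟨-, ⟨z, hz, hz2⟩, -⟩ := hP
      refine ⟨z, ?_, fun j hj => ⟨?_, (hz2 j hj).2⟩⟩
      · rw [hz]
        exact offs_eq (M := 70368744177664) (fun j hj => (hz2 j hj).2.trans (by norm_num))
      · have := (hz2 j hj).1
        simpa [hcos] using this
    · obtain ⟨⟨z, hz, hz2⟩, -⟩ := hQ
      refine ⟨z, ?_, fun j hj => ⟨?_, (hz2 j hj).2⟩⟩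
      · rw [hz]
        exact offs_eq (M := 70368744177664) (fun j hj => (hz2 j hj).2.trans (by norm_num))
      · have := (hz2 j hj).1
        simpa [hsin] using this
  · exact absurd h (by simp)

theorem tabs_sound {dn : ℕ} {bits : List Bool} {m2 nt : ℕ} {vs : List (ℤ × ℕ)}
    {k : ℕ → ℕ → List ℤ → List ℤ → ℕ → ℕ → List Vx → Bool} (h : tabs dn bits m2 nt vs k = true) :
    0 < dn ∧ dn ≤ 2 ^ 23 ∧ 2 ^ m2 ≤ 2048 ∧ nt ≤ 2048 ∧ ∃ (j0 : ℕ) (Ps Qs : List ℤ) (co si : ℕ)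
      (xs : List Vx),
      LAs 128 (2 ^ m2) 5 (2 ^ 46) Ps (hcos ((j0:ℝ) * ((dn:ℝ) / 2 ^ 30)) ((dn:ℝ) / 2 ^ 30)) ∧
      LAs 128 (2 ^ m2) 5 (2 ^ 46) Qs (hsin ((j0:ℝ) * ((dn:ℝ) / 2 ^ 30)) ((dn:ℝ) / 2 ^ 30)) ∧
      Ps.length = 8 ∧ Qs.length = 7 ∧
      CosT (2 ^ m2) (j0 * ((dn:ℝ) / 2 ^ 30)) ((dn:ℝ) / 2 ^ 30) co ∧
      SinT (2 ^ m2) (j0 * ((dn:ℝ) / 2 ^ 30)) ((dn:ℝ) / 2 ^ 30) si ∧
      (∀ x ∈ xs, x.Ok nt ((dn:ℝ) / 2 ^ 30)) ∧ (∀ p ∈ vs, ∃ x ∈ xs, x.v = p.1 ∧ x.t = p.2) ∧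
      k j0 (ones 128 (2 ^ m2)) Ps Qs co si xs = true := by
  unfold tabs at h
  obtain ⟨h1, h⟩ := andB_eq h
  obtain ⟨h2, h⟩ := andB_eq h
  obtain ⟨h3, h⟩ := andB_eq h
  obtain ⟨h4, h⟩ := andB_eq h
  obtain ⟨h5, h⟩ := andB_eq h
  obtain ⟨h6, h⟩ := andB_eq h
  simp only [seqN_eq] at h
  have h1 : 1 ≤ dn := Nat.le_of_ble_eq_true h1
  have h2 : dn ≤ 8388608 := Nat.le_of_ble_eq_true h2
  have h3 : m2 ≤ 11 := Nat.le_of_ble_eq_true h3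
  have h4 : nt ≤ 2048 := Nat.le_of_ble_eq_true h4
  have h5 : (nt - 1) * dn ≤ 1686629713 := Nat.le_of_ble_eq_true h5
  have h6 : 1 ≤ nt := Nat.le_of_ble_eq_true h6
  set δ : ℝ := (dn:ℝ) / 2 ^ 30 with hδ
  have hδ0 : 0 ≤ δ := by positivity
  have hb : TS δ (Int.ofNat (cosN dn)) (Int.ofNat (sinN dn)) 5 := TS_base h2
  have hz : TS ((0:ℕ) * δ) 1152921504606846976 0 0 := by
    have : TS ((0:ℕ) * δ) 1152921504606846976 0 (0 + 0) := by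
      apply TS.of_abs
      · simp [SC]
      · simp
    simpa using this
  obtain ⟨j0, c, s, e, b1, h⟩ := rotPow_sound hb bits hz h
  have hb1 : TS ((0 + 1 : ℕ) * δ) (Int.ofNat (cosN dn)) (Int.ofNat (sinN dn)) 5 := by
    simpa using hb
  have hc1 : TS ((0 + 1 : ℕ) * (j0 * δ)) c s e := by simpa using b1
  obtain ⟨Fs, Gs, f1, -, -, h⟩ := fourTab_sound (L := 128) (by norm_num) hb b1 7 hb1 hc1
    (show FL 128 (2 ^ m2) (j0 * δ) δ 0 [] [] from trivial) h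
  rw [zero_add] at f1
  obtain ⟨Ps, Qs, p1, p2, p3, p4, h⟩ := powTab_sound (by norm_num) f1 h
  obtain ⟨co, si, c1, c2, h⟩ := csTab_sound p1 p2 h
  have hz' : TS ((0:ℕ) * δ) ((1152921504606846976 : ℕ) : ℤ) ((0:ℕ) : ℤ) 0 := by simpa using hz
  obtain ⟨T, t1, h⟩ := tanTab_sound (L := 128) (δ := δ) (cd := cosN dn) (sd := sinN dn) (e0 := 5) hb
    nt (m := 0) hz' (by simp) ⟨fun _ => 0, by simp [packN], fun j hj => absurd hj (by omega)⟩ h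
  rw [zero_add] at t1
  rw [ones_div (by norm_num)] at h
  have hnt : (nt:ℝ) * δ ≤ Real.pi / 2 + δ := by
    have h7 : ((nt - 1 : ℕ) : ℝ) * dn ≤ 1686629713 := by exact_mod_cast h5
    rw [Nat.cast_sub h6] at h7
    have hpl := Real.pi_gt_d20
    have h8 : ((nt:ℝ) - 1) * δ ≤ Real.pi / 2 := by
      rw [hδ, ← mul_div_assoc, div_le_iff₀ (by positivity)]
      push_cast at h7
      refine h7.trans ?_
      have : (1686629713:ℝ) < 3.14159265358979323846 / 2 * 2 ^ 30 := by norm_num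
      nlinarith
    linarith
  obtain ⟨xs, x1, -, x3, h⟩ := hTabs_sound hδ0 hnt t1 vs (acc := []) (by simp) h
  refine ⟨h1, h2.trans (by norm_num), ?_, h4, j0, Ps, Qs, co, si, xs, p1, p2, p3, p4, c1, c2, x1,
    x3, h⟩
  calc 2 ^ m2 ≤ 2 ^ 11 := Nat.pow_le_pow_right (by norm_num) h3
    _ = 2048 := by norm_num

/-- **Soundness of the chain check.** -/
theorem chainAll_sound {D : Dat} {K : Cst} {ch : ChD} (hK : CstOk D K)
    (hg : RegOk D (51 / 50) ch.g) (h : chainAll K ch = true) :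
    ChainF D ((ch.g.s:ℝ) / 2 ^ 40) ch.vs ch.rn ch.m ch.cells := by
  obtain ⟨dn, bits, m2, nt, g, rn, m, cells, vs⟩ := ch
  obtain ⟨h1, h⟩ := andB_eq h
  obtain ⟨h2, h⟩ := andB_eq h
  obtain ⟨a1, a2, a3, a4, j0, Ps, Qs, co, si, xs, p1, p2, p3, p4, c1, c2, x1, x3, h⟩ := tabs_sound h
  exact (chainV_sound hK hg ((Nat.le_of_ble_eq_true h2).trans (by norm_num)) a3 a4 a1 (a2.trans (by norm_num)) p1 p2 p3 p4 c1 c2 x1 x3 h1 cells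
    (by simp) h).2

end Pool.Agent.H65.Shore
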