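import Mathlib
import Pool.Agent.H65.Shore.Full
import Pool.Agent.H44.Shore.Cone

/-!
From the vertices of a fan to all velocities.
-/

namespace Pool.Agent.H65.Shore

open Set
open Pool.Agent.H44.Shore

/-- the real vector of an integer vertex -/
noncomputable def vec (p : ℤ × ℕ) : ℝ × ℝ := ((p.1:ℝ) / 2 ^ 20, (p.2:ℝ) / 2 ^ 20)

/-- the segment `p q` has distance at least one from the origin, `q` is left of `p` -/
def edgeC (p q : ℤ × ℕ) : Bool :=
  seqI (Int.sub (Int.mul p.1 (Int.ofNat q.2)) (Int.mul (Int.ofNat p.2) q.1)) fun c =>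
  match c with
  | Int.ofNat c => andB (Nat.ble 1 c) (Nat.ble (Nat.mul (Nat.add
      (Nat.mul (Int.natAbs (Int.sub p.1 q.1)) (Int.natAbs (Int.sub p.1 q.1)))
      (Nat.mul (Int.natAbs (Int.sub (Int.ofNat p.2) (Int.ofNat q.2)))
        (Int.natAbs (Int.sub (Int.ofNat p.2) (Int.ofNat q.2))))) 1099511627776) (Nat.mul c c))
  | Int.negSucc _ => false

def fanC : ℤ × ℕ → List (ℤ × ℕ) → Bool
  | _, [] => false
  | p, [q] => edgeC p q
  | p, q :: r :: rest => andB (edgeC p q) (fanC q (r :: rest))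

def lastV : ℤ × ℕ → List (ℤ × ℕ) → ℤ × ℕ
  | p, [] => p
  | _, q :: rest => lastV q rest

theorem edgeC_sound {p q : ℤ × ℕ} (h : edgeC p q = true) :
    0 < cross (vec p) (vec q) ∧ ((vec p).1 - (vec q).1) ^ 2 + ((vec p).2 - (vec q).2) ^ 2 ≤
      (cross (vec p) (vec q)) ^ 2 := by
  unfold edgeC at h
  rw [seqI_eq] at h
  have e : Int.sub (Int.mul p.1 (Int.ofNat q.2)) (Int.mul (Int.ofNat p.2) q.1) =
      p.1 * q.2 - p.2 * q.1 := rfl
  rw [e] at h
  have hc : cross (vec p) (vec q) = ((p.1 * q.2 - p.2 * q.1 : ℤ) : ℝ) / 2 ^ 40 := by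
    unfold cross vec
    push_cast
    field_simp
    try ring
  generalize (p.1 * q.2 - p.2 * q.1 : ℤ) = c at h hc
  cases c with
  | negSucc c => exact absurd h (by simp)
  | ofNat c =>
    obtain ⟨h1, h2⟩ := andB_eq h
    have h1 : 1 ≤ c := Nat.le_of_ble_eq_true h1
    have h2 : ((p.1 - q.1).natAbs * (p.1 - q.1).natAbs +
      ((p.2:ℤ) - q.2).natAbs * ((p.2:ℤ) - q.2).natAbs) * 1099511627776 ≤ c * c :=
      Nat.le_of_ble_eq_true h2
    have e0 : ((Int.ofNat c : ℤ) : ℝ) = (c:ℝ) := by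
      show (((c : ℕ) : ℤ) : ℝ) = _
      push_cast
      rfl
    rw [e0] at hc
    rw [hc]
    have hsq : ∀ z : ℤ, (z.natAbs : ℝ) * z.natAbs = (z:ℝ) * z := by
      intro z
      rw [Nat.cast_natAbs]
      push_cast
      exact abs_mul_abs_self _
    constructor
    · have : (0:ℝ) < c := by exact_mod_cast h1
      positivity
    · have h3 : (((p.1 - q.1).natAbs : ℝ) * (p.1 - q.1).natAbs +
        (((p.2:ℤ) - q.2).natAbs : ℝ) * ((p.2:ℤ) - q.2).natAbs) * 1099511627776 ≤ (c:ℝ) * c := by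
        exact_mod_cast h2
      rw [hsq, hsq] at h3
      push_cast at h3
      unfold vec
      simp only
      have e1 : ((p.1:ℝ) / 2 ^ 20 - (q.1:ℝ) / 2 ^ 20) ^ 2 + ((p.2:ℝ) / 2 ^ 20 - (q.2:ℝ) / 2 ^ 20) ^ 2
          = (((p.1:ℝ) - q.1) * (p.1 - q.1) + ((p.2:ℝ) - q.2) * (p.2 - q.2)) * 1099511627776 /
            2 ^ 80 := by
        field_simp
        norm_num
        try ring
      have e2 : ((c:ℝ) / 2 ^ 40) ^ 2 = (c:ℝ) * c / 2 ^ 80 := by
        field_simp
        try norm_num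
      rw [e1, e2]
      gcongr

theorem fan_sound {F : ℝ × ℝ → ℝ} (hF : ConvexOn ℝ univ F) (F0 : F 0 ≤ 0) :
    ∀ (rest : List (ℤ × ℕ)) (p : ℤ × ℕ), fanC p rest = true → (∀ q ∈ p :: rest, F (vec q) ≤ 0) →
      ∀ v : ℝ × ℝ, v.1 ^ 2 + v.2 ^ 2 ≤ 1 → 0 ≤ cross (vec p) v →
        0 ≤ cross v (vec (lastV p rest)) → F v ≤ 0 := by
  intro rest
  induction rest with
  | nil =>
    intro p h
    exact absurd h (by simp [fanC])
  | cons q rest ih =>
    intro p h hq v hv h1 h2
    cases rest with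
    | nil =>
      have h : edgeC p q = true := h
      obtain ⟨k1, k2⟩ := edgeC_sound h
      exact cone_lemma hF k1 k2 hv h1 h2 F0 (hq p (by simp)) (hq q (by simp))
    | cons r rest =>
      obtain ⟨h3, h4⟩ := andB_eq h
      obtain ⟨k1, k2⟩ := edgeC_sound h3
      rcases le_or_gt 0 (cross v (vec q)) with h5 | h5
      · exact cone_lemma hF k1 k2 hv h1 h5 F0 (hq p (by simp)) (hq q (by simp))
      · refine ih q h4 (fun s hs => hq s (List.mem_cons_of_mem _ hs)) v hv ?_ h2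
        have : cross (vec q) v = -cross v (vec q) := by unfold cross; ring
        rw [this]
        linarith

/-- check of a full fan: the list starts with the origin -/
def fullFan : List (ℤ × ℕ) → Bool
  | z :: p :: rest => andB (Nat.beq (Int.natAbs z.1) 0) (andB (Nat.beq z.2 0) (
      andB (Nat.beq p.2 0) (andB (Nat.beq (lastV p rest).2 0) (
      andB (match p.1 with
        | Int.ofNat _ => true
        | Int.negSucc _ => false) (
      andB (match (lastV p rest).1 with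
        | Int.ofNat _ => false
        | Int.negSucc _ => true) (fanC p rest))))))
  | _ => false

theorem fullFan_sound {F : ℝ × ℝ → ℝ} (hF : ConvexOn ℝ univ F) {vs : List (ℤ × ℕ)}
    (h : fullFan vs = true) (hv : ∀ p ∈ vs, F (vec p) ≤ 0) {v : ℝ × ℝ}
    (h1 : v.1 ^ 2 + v.2 ^ 2 ≤ 1) (h2 : 0 ≤ v.2) : F v ≤ 0 := by
  match vs with
  | [] => exact absurd h (by simp [fullFan])
  | [z] => exact absurd h (by simp [fullFan])
  | z :: p :: rest =>
    unfold fullFan at h
    obtain ⟨c1, h⟩ := andB_eq h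
    obtain ⟨c2, h⟩ := andB_eq h
    obtain ⟨c3, h⟩ := andB_eq h
    obtain ⟨c4, h⟩ := andB_eq h
    obtain ⟨c5, h⟩ := andB_eq h
    obtain ⟨c6, h⟩ := andB_eq h
    have c1 : z.1.natAbs = 0 := Nat.eq_of_beq_eq_true c1
    have c2 : z.2 = 0 := Nat.eq_of_beq_eq_true c2
    have c3 : p.2 = 0 := Nat.eq_of_beq_eq_true c3
    have c4 : (lastV p rest).2 = 0 := Nat.eq_of_beq_eq_true c4
    have c1' : z.1 = 0 := by omega
    have c5' : 0 ≤ p.1 := by
      revert c5
      cases p.1 with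
      | ofNat n => intro _; exact Int.natCast_nonneg n
      | negSucc n => intro h; exact absurd h (by simp)
    have c6' : (lastV p rest).1 ≤ 0 := by
      revert c6
      cases (lastV p rest).1 with
      | ofNat n => intro h; exact absurd h (by simp)
      | negSucc n => intro _; exact (Int.negSucc_lt_zero n).le
    have F0 : F 0 ≤ 0 := by
      have := hv z (by simp)
      have e : vec z = 0 := by
        unfold vec
        rw [c1', c2]
        simp
      rwa [e] at this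
    refine fan_sound hF F0 rest p h (fun q hq => hv q (List.mem_cons_of_mem _ hq)) v h1 ?_ ?_
    · unfold cross vec
      rw [c3]
      have : (0:ℝ) ≤ (p.1:ℝ) := by exact_mod_cast c5'
      simp only [Nat.cast_zero, zero_div, zero_mul, sub_zero]
      positivity
    · unfold cross vec
      rw [c4]
      have : ((lastV p rest).1:ℝ) ≤ 0 := by exact_mod_cast c6'
      simp only [Nat.cast_zero, zero_div, mul_zero, zero_sub]
      have h3 : v.2 * (((lastV p rest).1:ℝ) / 2 ^ 20) ≤ 0 :=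
        mul_nonpos_of_nonneg_of_nonpos h2 (div_nonpos_of_nonpos_of_nonneg this (by positivity))
      linarith

/-- the conclusion for a chain of cells with full fans -/
def ChainA (D : Dat) : ℕ → ℕ → List Cell → Prop
  | _, _, [] => True
  | rn, m, c :: cs => (rn < c.rn ∧ ∀ lam ∈ Icc (0:ℝ) 1,
      0 < lin ((rn:ℝ) / 2 ^ 20) ((c.rn:ℝ) / 2 ^ 20) lam → ∀ v : ℝ × ℝ, v.1 ^ 2 + v.2 ^ 2 ≤ 1 →
      0 ≤ v.2 → FF D (lin ((rn:ℝ) / 2 ^ 20) ((c.rn:ℝ) / 2 ^ 20) lam)
        (lin (-((m:ℝ) / 2 ^ 20)) (-((c.m:ℝ) / 2 ^ 20)) lam) v ≤ 0) ∧ ChainA D c.rn c.m cs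

theorem chainA_of {D : Dat} (hxL : 0 < D.xL) {s : ℝ} (hs : 0 ≤ s) {vs : List (ℤ × ℕ)}
    (hv : fullFan vs = true) (cs : List Cell) :
    ∀ {rn m : ℕ}, ChainF D s vs rn m cs → ChainA D rn m cs := by
  induction cs with
  | nil => intro rn m _; trivial
  | cons c cs ih =>
    intro rn m h
    refine ⟨⟨h.1.1, fun lam hl hpos v h1 h2 => ?_⟩, ih h.2⟩
    exact fullFan_sound (FF_convex D hxL hpos _) hv
      (fun p hp => (h.1.2 lam hl hpos p hp).trans (by linarith)) h1 h2

end Pool.Agent.H65.Shore
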